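import Pool.Agent.Q18.KZ.S4
import Pool.Agent.Q241.KS.Fin

/-!
# Project KZ: job POR
-/

set_option autoImplicit false

namespace Pool.Agent.Q198.KZ

open Finset Filter Topology MeasureTheory Pool.Agent.Q18.KZ
open scoped Classical
open Pool.Agent.W76.MO (hh nc cell lp Rough)
open Pool.Agent.Q240.KS (MAINP pic)

theorem sep_cover (S : Finset ℝ) {h : ℝ} (hh0 : 0 ≤ h) : ∃ U : Finset ℝ, U ⊆ S ∧
    (∀ y ∈ U, ∀ y' ∈ U, y ≠ y' → h ≤ |y - y'|) ∧ ∀ y ∈ S, ∃ u ∈ U, |y - u| ≤ h := by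
  induction S using Finset.induction_on with
  | empty => exact ⟨∅, by simp, by simp, by simp⟩
  | insert a S ha ih =>
    obtain ⟨U, hU, h1, h2⟩ := ih
    by_cases hc : ∃ u ∈ U, |a - u| < h
    · obtain ⟨u, hu, h3⟩ := hc
      refine ⟨U, hU.trans (subset_insert _ _), h1, fun y hy => ?_⟩
      rcases mem_insert.1 hy with rfl | hy
      · exact ⟨u, hu, h3.le⟩
      · exact h2 y hy
    · push Not at hc
      refine ⟨insert a U, insert_subset_insert _ hU, ?_, ?_⟩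
      · intro y hy y' hy' hne
        rcases mem_insert.1 hy with e1 | e1
        · rcases mem_insert.1 hy' with e2 | e2
          · exact absurd (e1.trans e2.symm) hne
          · rw [e1]
            exact hc y' e2
        · rcases mem_insert.1 hy' with e2 | e2
          · rw [e2, abs_sub_comm]
            exact hc y e1
          · exact h1 y e1 y' e2 hne
      · intro y hy
        rcases mem_insert.1 hy with rfl | hy
        · exact ⟨y, mem_insert_self _ _, by simpa using hh0⟩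
        · obtain ⟨u, hu, h3⟩ := h2 y hy
          exact ⟨u, mem_insert_of_mem hu, h3⟩

theorem two_rpow (x : ℝ) : (2 : ℝ) ^ x = Real.exp (x * Real.log 2) := by
  rw [Real.rpow_def_of_pos (by norm_num), mul_comm]

theorem hh_bds {δ : ℝ} {i : ℕ} (h0 : 0 < δ) (h1 : δ ≤ 1 / 2) :
    (2 : ℝ) ^ ((1 / 2 - δ) * i - 1) ≤ hh δ i ∧ (hh δ i : ℝ) ≤ (2 : ℝ) ^ ((1 / 2 : ℝ) * i) := by
  have e : (hh δ i : ℝ) = (2 : ℝ) ^ ((⌊(1 / 2 - δ) * i⌋₊ : ℕ) : ℝ) := by
    rw [hh, Real.rpow_natCast]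
    push_cast
    rfl
  have h2 : (0 : ℝ) ≤ (1 / 2 - δ) * i := mul_nonneg (by linarith) (by positivity)
  rw [e]
  constructor
  · exact Real.rpow_le_rpow_of_exponent_le (by norm_num) (Nat.sub_one_lt_floor _).le
  · refine Real.rpow_le_rpow_of_exponent_le (by norm_num) ((Nat.floor_le h2).trans ?_)
    have : (0 : ℝ) ≤ i := by positivity
    nlinarith

/-- The count in one half of the range. -/
theorem half {c₀ η₀ : ℝ} {Y h : ℝ} (hh0 : 0 < h)
    (hM : ∀ U : Finset ℝ,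
      (∀ y ∈ U, 0 < y ∧ |Real.log y - Y| ≤ 2 / 5 ∧ (pic y h : ℝ) < c₀ * h / Y) →
      (∀ y ∈ U, ∀ y' ∈ U, y ≠ y' → h ≤ |y - y'|) → (U.card : ℝ) ≤ Real.exp ((13 / 16 - η₀) * Y))
    (S : Finset ℝ) (hS : ∀ y ∈ S, 0 < y ∧ |Real.log y - Y| ≤ 2 / 5 ∧ (pic y h : ℝ) < c₀ * h / Y) :
    ∃ U : Finset ℝ, (U.card : ℝ) ≤ Real.exp ((13 / 16 - η₀) * Y) ∧ ∀ y ∈ S, ∃ u ∈ U, |y - u| ≤ h := by
  obtain ⟨U, h1, h2, h3⟩ := sep_cover S hh0.le
  exact ⟨U, hM U (fun y hy => hS y (h1 hy)) h2, h3⟩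

theorem pic_le {δ : ℝ} {i k v M : ℕ} {h : ℝ} (hk : k < nc δ i) (hv : v.Prime) (hvM : v ≤ 2 * M)
    (hM : 0 < M) (he : h = hh δ i / (2 * M)) : pic (lA δ i k / v) h ≤ (QqD δ i k v).card := by
  have hv0 : (0 : ℝ) < v := by exact_mod_cast hv.pos
  have hM0 : (0 : ℝ) < M := by exact_mod_cast hM
  have hvM' : (v : ℝ) ≤ 2 * M := by exact_mod_cast hvM
  have hl0 : 0 ≤ lA δ i k := by
    unfold lA
    positivity
  have hh0 : (0 : ℝ) ≤ hh δ i := by positivity
  have h0 : 0 ≤ h := by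
    rw [he]
    positivity
  unfold pic
  refine card_le_card ?_
  intro q hq
  rw [mem_filter, mem_Ioc] at hq
  obtain ⟨⟨h1, h2⟩, h3⟩ := hq
  have h4 : lA δ i k / v < q := (Nat.floor_lt (by positivity)).1 h1
  have h5 : (q : ℝ) ≤ lA δ i k / v + h := by
    refine le_trans ?_ (Nat.floor_le (by positivity))
    exact_mod_cast h2
  rw [div_lt_iff₀ hv0] at h4
  have h6 : (q : ℝ) * v ≤ lA δ i k + hh δ i := by
    have h7 : h * v ≤ hh δ i := by
      rw [he, div_mul_eq_mul_div, div_le_iff₀ (by positivity)]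
      exact mul_le_mul_of_nonneg_left hvM' hh0
    have h8 := mul_le_mul_of_nonneg_right h5 hv0.le
    rw [add_mul, div_mul_cancel₀ _ hv0.ne'] at h8
    linarith
  have h7 : 2 ^ i + k * hh δ i < v * q := by
    have : ((2 ^ i + k * hh δ i : ℕ) : ℝ) < ((v * q : ℕ) : ℝ) := by
      push_cast
      unfold lA at h4
      linarith
    exact_mod_cast this
  have h8 : v * q ≤ 2 ^ i + (k + 1) * hh δ i := by
    have : ((v * q : ℕ) : ℝ) ≤ ((2 ^ i + (k + 1) * hh δ i : ℕ) : ℝ) := by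
      push_cast
      unfold lA at h6
      linarith
    exact_mod_cast this
  have h9 : (k + 1) * hh δ i ≤ 2 ^ i := by
    have h10 : nc δ i * hh δ i ≤ 2 ^ i := by
      rw [nc]
      exact Nat.div_mul_le_self _ _
    exact (Nat.mul_le_mul_right _ hk).trans h10
  rw [QqD, mem_filter, mem_range]
  refine ⟨?_, h3, ?_⟩
  · have h10 : q ≤ v * q := Nat.le_mul_of_pos_left _ hv.pos
    have h11 : 2 ^ (i + 1) = 2 ^ i + 2 ^ i := by
      rw [pow_succ]
      ring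
    omega
  · rw [cell, mem_Ioc]
    exact ⟨h7, h8⟩

theorem t_POR : S_POR := by
  rintro ⟨c₀, η₀, Y₀, hc₀, hη₀, hMP⟩
  obtain ⟨e, he⟩ : ∃ e : ℝ, e = min η₀ (1 / 100) := ⟨_, rfl⟩
  have he0 : 0 < e := by
    rw [he]
    exact lt_min hη₀ (by norm_num)
  have he1 : e ≤ η₀ := by
    rw [he]
    exact min_le_left _ _
  have he2 : e ≤ 1 / 100 := by
    rw [he]
    exact min_le_right _ _
  refine ⟨c₀ / 2, e / 8, e / 8, by positivity, by positivity, by positivity, ?_⟩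
  intro δ hδ0 hδ
  refine ⟨⌈max (|Y₀| * 3) (9 / e)⌉₊ + 10, ?_⟩
  intro i M hi hM1 hM2
  have hi' : max (|Y₀| * 3) (9 / e) ≤ i := by
    have h1 : (⌈max (|Y₀| * 3) (9 / e)⌉₊ : ℝ) ≤ i := by
      exact_mod_cast (by omega : ⌈max (|Y₀| * 3) (9 / e)⌉₊ ≤ i)
    exact (Nat.le_ceil _).trans h1
  have hiY : |Y₀| * 3 ≤ i := (le_max_left _ _).trans hi'
  have hie : 9 / e ≤ i := (le_max_right _ _).trans hi'
  rw [div_le_iff₀ he0] at hie
  have hi10 : (10 : ℝ) ≤ i := by exact_mod_cast (by omega : 10 ≤ i)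
  have hl1 := Real.log_two_lt_d9
  have hl2 := Real.log_two_gt_d9
  have hl0 : 0 < Real.log 2 := by linarith
  have hM0 : (0 : ℝ) < M := lt_of_lt_of_le (by positivity) hM1
  have hMn : 0 < M := by exact_mod_cast hM0
  obtain ⟨h, hh'⟩ : ∃ h : ℝ, h = hh δ i / (2 * M) := ⟨_, rfl⟩
  obtain ⟨hb1, hb2⟩ := hh_bds (i := i) hδ0 (by linarith : δ ≤ 1 / 2)
  have hhh0 : (0 : ℝ) < hh δ i := lt_of_lt_of_le (by positivity) hb1
  have h0 : 0 < h := by
    rw [hh']
    positivity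
  have hlow : (2 : ℝ) ^ ((3 / 26 - e / 4) * i - 2) ≤ h := by
    rw [hh', le_div_iff₀ (by positivity)]
    calc (2 : ℝ) ^ ((3 / 26 - e / 4) * i - 2) * (2 * M)
        ≤ (2 : ℝ) ^ ((3 / 26 - e / 4) * i - 2) * (2 * (2 : ℝ) ^ ((5 / 13 + e / 8) * (i : ℝ))) := by gcongr
      _ = (2 : ℝ) ^ (((3 / 26 - e / 4) * i - 2) + (1 + (5 / 13 + e / 8) * (i : ℝ))) := by
          rw [Real.rpow_add (by norm_num), Real.rpow_add (by norm_num) 1, Real.rpow_one]
      _ ≤ (2 : ℝ) ^ ((1 / 2 - δ) * i - 1) := by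
          refine Real.rpow_le_rpow_of_exponent_le (by norm_num) ?_
          nlinarith
      _ ≤ _ := hb1
  have hup : h ≤ (2 : ℝ) ^ ((3 / 26 : ℝ) * i) := by
    rw [hh', div_le_iff₀ (by positivity)]
    refine hb2.trans ?_
    calc (2 : ℝ) ^ ((1 / 2 : ℝ) * i) = (2 : ℝ) ^ ((3 / 26 : ℝ) * i) * (2 * (2 : ℝ) ^ (5 / 13 * (i : ℝ) - 1)) := by
          rw [show (2 : ℝ) * (2 : ℝ) ^ (5 / 13 * (i : ℝ) - 1) = (2 : ℝ) ^ (1 + (5 / 13 * (i : ℝ) - 1)) by
            rw [Real.rpow_add (by norm_num) 1, Real.rpow_one], ← Real.rpow_add (by norm_num)]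
          congr 1
          ring
      _ ≤ _ := by gcongr
  -- the general half
  have main : ∀ a : ℝ, (2 : ℝ) ^ ((8 / 13 - e / 8) * (i : ℝ) - 1) ≤ a → a ≤ (2 : ℝ) ^ ((8 / 13 : ℝ) * i + 1) →
      ∃ U : Finset ℝ, (U.card : ℝ) ≤ (2 : ℝ) ^ ((1 / 2 - e / 8) * (i : ℝ) - 1) ∧
        ∀ k v : ℕ, k < nc δ i → v.Prime → M < v → v ≤ 2 * M →
          ((QqD δ i k v).card : ℝ) < c₀ / 2 * hh δ i / (v * i) →
          a ≤ lA δ i k / v → lA δ i k / v ≤ 2 * a → ∃ u ∈ U, |lA δ i k / v - u| ≤ h := by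
    intro a ha1 ha2
    have ha0 : 0 < a := lt_of_lt_of_le (by positivity) ha1
    obtain ⟨Y, hY⟩ : ∃ Y : ℝ, Y = Real.log a + Real.log 2 / 2 := ⟨_, rfl⟩
    have hla1 : ((8 / 13 - e / 8) * (i : ℝ) - 1) * Real.log 2 ≤ Real.log a := by
      rw [← Real.log_rpow (by norm_num)]
      exact Real.log_le_log (by positivity) ha1
    have hla2 : Real.log a ≤ ((8 / 13 : ℝ) * i + 1) * Real.log 2 := by
      rw [← Real.log_rpow (by norm_num)]
      exact Real.log_le_log ha0 ha2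
    have hY1 : ((8 / 13 - e / 8) * (i : ℝ) - 1 / 2) * Real.log 2 ≤ Y := by
      rw [hY]
      linarith
    have hY2 : Y ≤ ((8 / 13 : ℝ) * i + 3 / 2) * Real.log 2 := by
      rw [hY]
      linarith
    have hei : e * i ≤ i / 100 := by nlinarith
    have hYlow : 2 / 5 * (i : ℝ) - 1 ≤ Y := by
      refine le_trans ?_ hY1
      have h1 : 6 / 10 * (i : ℝ) - 1 / 2 ≤ (8 / 13 - e / 8) * (i : ℝ) - 1 / 2 := by nlinarith
      have h2 := mul_le_mul_of_nonneg_right h1 hl0.le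
      nlinarith
    have hY0 : 0 < Y := by linarith
    have hYY : Y₀ ≤ Y := by
      have := le_abs_self Y₀
      have h3 := abs_nonneg Y₀
      by_cases hbig : (20 : ℝ) ≤ i
      · linarith
      · linarith
    have hYi : Y ≤ i := by
      refine hY2.trans ?_
      have h1 : ((8 / 13 : ℝ) * i + 3 / 2) * Real.log 2 ≤ ((8 / 13 : ℝ) * i + 3 / 2) * 0.7 :=
        mul_le_mul_of_nonneg_left (by linarith) (by positivity)
      linarith
    have hcond1 : Real.exp ((1 - 13 / 16 - η₀) * Y) ≤ h := by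
      refine le_trans ?_ hlow
      rw [two_rpow, Real.exp_le_exp]
      have h1 : (1 - 13 / 16 - η₀) * Y ≤ (3 / 16 - e) * Y := mul_le_mul_of_nonneg_right (by linarith) hY0.le
      have h2 : (3 / 16 - e) * Y ≤ (3 / 16 - e) * (((8 / 13 : ℝ) * i + 3 / 2) * Real.log 2) :=
        mul_le_mul_of_nonneg_left hY2 (by linarith)
      refine h1.trans (h2.trans ?_)
      rw [← mul_assoc]
      refine mul_le_mul_of_nonneg_right ?_ hl0.le
      nlinarith
    have hcond2 : h ≤ Real.exp (0.9 * Y) := by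
      refine hup.trans ?_
      rw [two_rpow, Real.exp_le_exp]
      have h1 : 0.9 * (((8 / 13 - e / 8) * (i : ℝ) - 1 / 2) * Real.log 2) ≤ 0.9 * Y :=
        mul_le_mul_of_nonneg_left hY1 (by norm_num)
      refine le_trans ?_ h1
      rw [← mul_assoc]
      refine mul_le_mul_of_nonneg_right ?_ hl0.le
      nlinarith
    obtain ⟨S, hSdef⟩ : ∃ S : Finset ℝ, S = (((range (nc δ i)) ×ˢ (Ioc M (2 * M))).filter (fun u =>
      u.2.Prime ∧ ((QqD δ i u.1 u.2).card : ℝ) < c₀ / 2 * hh δ i / (u.2 * i) ∧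
        a ≤ lA δ i u.1 / u.2 ∧ lA δ i u.1 / u.2 ≤ 2 * a)).image (fun u => lA δ i u.1 / u.2) := ⟨_, rfl⟩
    have hS : ∀ y ∈ S, 0 < y ∧ |Real.log y - Y| ≤ 2 / 5 ∧ (pic y h : ℝ) < c₀ * h / Y := by
      intro y hy
      rw [hSdef, mem_image] at hy
      obtain ⟨⟨k, v⟩, hu, rfl⟩ := hy
      rw [mem_filter, mem_product, mem_range, mem_Ioc] at hu
      obtain ⟨⟨hk, hv1, hv2⟩, hv, hbad, hy1, hy2⟩ := hu
      simp only at hk hv1 hv2 hv hbad hy1 hy2 ⊢
      have hy0 : 0 < lA δ i k / v := lt_of_lt_of_le ha0 hy1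
      refine ⟨hy0, ?_, ?_⟩
      · have h1 := Real.log_le_log ha0 hy1
        have h2 := Real.log_le_log hy0 hy2
        rw [Real.log_mul (by norm_num) ha0.ne'] at h2
        rw [hY, abs_le]
        constructor <;> linarith
      · have h1 : (pic (lA δ i k / v) h : ℝ) ≤ ((QqD δ i k v).card : ℝ) := by
          exact_mod_cast pic_le hk hv hv2 hMn hh'
        have hv0 : (0 : ℝ) < v := by exact_mod_cast hv.pos
        have hvM : (M : ℝ) ≤ v := by exact_mod_cast hv1.le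
        refine h1.trans_lt (hbad.trans_le ?_)
        have h2 : c₀ / 2 * hh δ i / (v * i) ≤ c₀ / 2 * hh δ i / (M * i) := by
          refine div_le_div_of_nonneg_left (by positivity) (by positivity) ?_
          gcongr
        refine h2.trans ?_
        have h3 : c₀ / 2 * hh δ i / (M * i) = c₀ * h / i := by
          rw [hh']
          field_simp
        rw [h3]
        exact div_le_div_of_nonneg_left (by positivity) hY0 hYi
    obtain ⟨U, hU1, hU2⟩ := half h0 (fun U => hMP Y hYY h hcond1 hcond2 U) S hS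
    refine ⟨U, hU1.trans ?_, ?_⟩
    · rw [two_rpow, Real.exp_le_exp]
      have h1 : (13 / 16 - η₀) * Y ≤ (13 / 16 - e) * Y := mul_le_mul_of_nonneg_right (by linarith) hY0.le
      have h2 : (13 / 16 - e) * Y ≤ (13 / 16 - e) * (((8 / 13 : ℝ) * i + 3 / 2) * Real.log 2) :=
        mul_le_mul_of_nonneg_left hY2 (by linarith)
      refine h1.trans (h2.trans ?_)
      rw [← mul_assoc]
      refine mul_le_mul_of_nonneg_right ?_ hl0.le
      nlinarith
    · intro k v hk hv hv1 hv2 hbad hy1 hy2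
      apply hU2
      rw [hSdef, mem_image]
      refine ⟨(k, v), ?_, rfl⟩
      rw [mem_filter, mem_product, mem_range, mem_Ioc]
      exact ⟨⟨hk, hv1, hv2⟩, hv, hbad, hy1, hy2⟩
  have hp1 : (2 : ℝ) ^ i = (2 : ℝ) ^ (i : ℝ) := (Real.rpow_natCast _ _).symm
  obtain ⟨U₁, hU1, hU1'⟩ := main ((2 : ℝ) ^ i / (2 * M)) (by
    rw [le_div_iff₀ (by positivity), hp1]
    calc (2 : ℝ) ^ ((8 / 13 - e / 8) * (i : ℝ) - 1) * (2 * M)
        ≤ (2 : ℝ) ^ ((8 / 13 - e / 8) * (i : ℝ) - 1) * (2 * (2 : ℝ) ^ ((5 / 13 + e / 8) * (i : ℝ))) := by gcongr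
      _ = (2 : ℝ) ^ (((8 / 13 - e / 8) * (i : ℝ) - 1) + (1 + (5 / 13 + e / 8) * (i : ℝ))) := by
          rw [Real.rpow_add (by norm_num), Real.rpow_add (by norm_num) 1, Real.rpow_one]
      _ ≤ (2 : ℝ) ^ (i : ℝ) := by
          refine Real.rpow_le_rpow_of_exponent_le (by norm_num) ?_
          nlinarith) (by
    rw [div_le_iff₀ (by positivity), hp1]
    calc (2 : ℝ) ^ (i : ℝ) ≤ (2 : ℝ) ^ ((8 / 13 : ℝ) * i + 1) * (2 * (2 : ℝ) ^ (5 / 13 * (i : ℝ) - 1)) := by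
          rw [show (2 : ℝ) * (2 : ℝ) ^ (5 / 13 * (i : ℝ) - 1) = (2 : ℝ) ^ (1 + (5 / 13 * (i : ℝ) - 1)) by
            rw [Real.rpow_add (by norm_num) 1, Real.rpow_one], ← Real.rpow_add (by norm_num)]
          refine Real.rpow_le_rpow_of_exponent_le (by norm_num) ?_
          linarith
      _ ≤ _ := by gcongr)
  obtain ⟨U₂, hU2, hU2'⟩ := main ((2 : ℝ) ^ i / M) (by
    rw [le_div_iff₀ (by positivity), hp1]
    calc (2 : ℝ) ^ ((8 / 13 - e / 8) * (i : ℝ) - 1) * M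
        ≤ (2 : ℝ) ^ ((8 / 13 - e / 8) * (i : ℝ) - 1) * (2 : ℝ) ^ ((5 / 13 + e / 8) * (i : ℝ)) := by gcongr
      _ = (2 : ℝ) ^ (((8 / 13 - e / 8) * (i : ℝ) - 1) + ((5 / 13 + e / 8) * (i : ℝ))) := by
          rw [Real.rpow_add (by norm_num)]
      _ ≤ (2 : ℝ) ^ (i : ℝ) := by
          refine Real.rpow_le_rpow_of_exponent_le (by norm_num) ?_
          nlinarith) (by
    rw [div_le_iff₀ (by positivity), hp1]
    calc (2 : ℝ) ^ (i : ℝ) ≤ (2 : ℝ) ^ ((8 / 13 : ℝ) * i + 1) * (2 : ℝ) ^ (5 / 13 * (i : ℝ) - 1) := by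
          rw [← Real.rpow_add (by norm_num)]
          refine Real.rpow_le_rpow_of_exponent_le (by norm_num) ?_
          linarith
      _ ≤ _ := by gcongr)
  refine ⟨U₁ ∪ U₂, ?_, ?_⟩
  · have h1 : ((U₁ ∪ U₂).card : ℝ) ≤ U₁.card + U₂.card := by exact_mod_cast card_union_le _ _
    refine h1.trans ((add_le_add hU1 hU2).trans ?_)
    rw [← two_mul]
    have h2 : (2 : ℝ) * (2 : ℝ) ^ ((1 / 2 - e / 8) * (i : ℝ) - 1) = (2 : ℝ) ^ (1 + ((1 / 2 - e / 8) * (i : ℝ) - 1)) := by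
      rw [Real.rpow_add (by norm_num) 1, Real.rpow_one]
    rw [h2]
    exact le_of_eq (by ring_nf)
  · intro k v hk hv hv1 hv2 hbad
    have hv0 : (0 : ℝ) < v := by exact_mod_cast hv.pos
    have hvM : (M : ℝ) ≤ v := by exact_mod_cast hv1.le
    have hvM2 : (v : ℝ) ≤ 2 * M := by exact_mod_cast hv2
    have hlA1 : (2 : ℝ) ^ i ≤ lA δ i k := by
      unfold lA
      have : (0 : ℝ) ≤ k * hh δ i := by positivity
      linarith
    have hlA2 : lA δ i k ≤ 2 * (2 : ℝ) ^ i := by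
      have h9 : k * hh δ i ≤ 2 ^ i := by
        have h10 : nc δ i * hh δ i ≤ 2 ^ i := by
          rw [nc]
          exact Nat.div_mul_le_self _ _
        exact (Nat.mul_le_mul_right _ hk.le).trans h10
      have h11 : ((k * hh δ i : ℕ) : ℝ) ≤ ((2 ^ i : ℕ) : ℝ) := by exact_mod_cast h9
      push_cast at h11
      unfold lA
      linarith
    have hlA0 : 0 < lA δ i k := lt_of_lt_of_le (by positivity) hlA1
    have hle : h ≤ hh δ i / M := by
      rw [hh']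
      refine div_le_div_of_nonneg_left hhh0.le hM0 ?_
      linarith
    rcases le_total (lA δ i k / v) ((2 : ℝ) ^ i / M) with hc | hc
    · obtain ⟨u, hu, h1⟩ := hU1' k v hk hv hv1 hv2 hbad (by
        rw [div_le_div_iff₀ (by positivity) hv0]
        exact mul_le_mul hlA1 hvM2 hv0.le hlA0.le) (hc.trans (le_of_eq (by field_simp)))
      exact ⟨u, mem_union_left _ hu, h1.trans hle⟩
    · obtain ⟨u, hu, h1⟩ := hU2' k v hk hv hv1 hv2 hbad hc (by
        rw [← mul_div_assoc, div_le_div_iff₀ hv0 hM0]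
        exact mul_le_mul hlA2 hvM hM0.le (by positivity))
      exact ⟨u, mem_union_right _ hu, h1.trans hle⟩

end Pool.Agent.Q198.KZ
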