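import Pool.Agent.Q276.KZ.Stm

set_option autoImplicit false

/-! Project KZ (helper276), job D1. -/

namespace Pool.Agent.Q198.KZ

open MeasureTheory Filter Finset
open Pool.Agent.Q276.CD Pool.Agent.Q276.KZ

lemma b_mono {b : ℕ → ℕ} {J : ℕ} (hb : ∀ j ≤ J, b j ≤ b (j + 1)) {i j : ℕ} (hij : i ≤ j)
    (hj : j ≤ J + 1) : b i ≤ b j := by
  induction j with
  | zero =>
    have : i = 0 := by omega
    rw [this]
  | succ j ih =>
    rcases Nat.eq_or_lt_of_le hij with h | h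
    · rw [h]
    · exact (ih (by omega) (by omega)).trans (hb j (by omega))

lemma blk_prod {b : ℕ → ℕ} {J : ℕ} (hb : ∀ j ≤ J, b j ≤ b (j + 1)) (φ : ℕ → ℕ → ℝ) (n : ℕ) :
    ∏ j ∈ range (J + 1), blk b j φ n =
      mf (fun p a => if b 0 ≤ p ∧ p < b (J + 1) then φ p a else 1) n := by
  induction J with
  | zero => simp [blk]
  | succ J ih =>
    rw [prod_range_succ, ih (fun j hj => hb j (by omega))]
    unfold blk
    rw [← mf_mul_fun]
    refine mf_congr fun p _ => ?_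
    have h1 : b 0 ≤ b (J + 1) := b_mono hb (by omega) (by omega)
    have h2 : b (J + 1) ≤ b (J + 1 + 1) := hb (J + 1) le_rfl
    by_cases h3 : b 0 ≤ p ∧ p < b (J + 1)
    · rw [if_pos h3, if_neg (by omega), if_pos (by omega), mul_one]
    · by_cases h4 : b (J + 1) ≤ p ∧ p < b (J + 1 + 1)
      · rw [if_neg h3, if_pos h4, if_pos (by omega), one_mul]
      · rw [if_neg h3, if_neg h4, if_neg (by omega), one_mul]

lemma bp_prod {b : ℕ → ℕ} {J : ℕ} (hb : ∀ j ≤ J, b j ≤ b (j + 1)) (F : ℕ → ℝ) :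
    ∏ j ∈ range (J + 1), ∏ p ∈ bp b j, F p =
      ∏ p ∈ (Nat.primesBelow (b (J + 1))).filter (fun p => b 0 ≤ p), F p := by
  induction J with
  | zero => simp [bp]
  | succ J ih =>
    rw [prod_range_succ, ih (fun j hj => hb j (by omega))]
    have h1 : b 0 ≤ b (J + 1) := b_mono hb (by omega) (by omega)
    have h2 : b (J + 1) ≤ b (J + 1 + 1) := hb (J + 1) le_rfl
    rw [← prod_union]
    · refine prod_congr ?_ fun _ _ => rfl
      ext p
      simp only [bp, mem_union, mem_filter, Nat.mem_primesBelow]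
      constructor
      · rintro (⟨⟨h3, h4⟩, h5⟩ | ⟨⟨h3, h4⟩, h5⟩)
        · exact ⟨⟨by omega, h4⟩, h5⟩
        · exact ⟨⟨h3, h4⟩, by omega⟩
      · rintro ⟨⟨h3, h4⟩, h5⟩
        by_cases h6 : p < b (J + 1)
        · exact Or.inl ⟨⟨h6, h4⟩, h5⟩
        · exact Or.inr ⟨⟨h3, h4⟩, by omega⟩
    · rw [disjoint_left]
      intro p
      simp only [bp, mem_filter, Nat.mem_primesBelow]
      rintro ⟨⟨h3, _⟩, _⟩ ⟨_, h5⟩
      omega

lemma bp_sum {b : ℕ → ℕ} {j : ℕ} (hb : b j ≤ b (j + 1)) :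
    ∑ p ∈ bp b j, 1 / (p : ℝ) = R1 (b (j + 1)) - R1 (b j) := by
  unfold R1 bp
  rw [eq_sub_iff_add_eq, ← sum_filter_add_sum_filter_not (Nat.primesBelow (b (j + 1)))
    (fun p => b j ≤ p)]
  congr 1
  refine sum_congr ?_ fun _ _ => rfl
  ext p
  simp only [mem_filter, Nat.mem_primesBelow]
  constructor
  · rintro ⟨h1, h2⟩; exact ⟨⟨by omega, h2⟩, by omega⟩
  · rintro ⟨⟨_, h2⟩, h1⟩; exact ⟨by omega, h2⟩

/-- local values `1, u, c, c, …` -/
noncomputable def lv (u c : ℝ) (_p a : ℕ) : ℝ := if a = 0 then 1 else if a = 1 then u else c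

lemma lv_zero (u c : ℝ) (p : ℕ) : lv u c p 0 = 1 := by simp [lv]

lemma lv_nonneg {u c : ℝ} (hu : 0 ≤ u) (hc : 0 ≤ c) (p a : ℕ) : 0 ≤ lv u c p a := by
  unfold lv; split_ifs <;> first | exact zero_le_one | assumption

lemma lv_mul (u c u' c' : ℝ) (p a : ℕ) : lv u c p a * lv u' c' p a = lv (u * u') (c * c') p a := by
  unfold lv; split_ifs <;> simp

/-- `∑_{a ≥ 2} p^{-a}` -/
noncomputable def sp (p : ℕ) : ℝ := 1 / (p : ℝ) ^ 2 * (1 - 1 / (p : ℝ))⁻¹

lemma sp_nonneg {p : ℕ} (hp : 2 ≤ p) : 0 ≤ sp p := by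
  unfold sp
  have h2 : (2 : ℝ) ≤ p := by exact_mod_cast hp
  have : 1 / (p : ℝ) ≤ 1 / 2 := one_div_le_one_div_of_le (by norm_num) h2
  have h3 : 0 ≤ (1 - 1 / (p : ℝ))⁻¹ := inv_nonneg.2 (by linarith)
  positivity

lemma sp_le {p : ℕ} (hp : 2 ≤ p) : sp p ≤ 2 / (p : ℝ) ^ 2 := by
  unfold sp
  have h2 : (2 : ℝ) ≤ p := by exact_mod_cast hp
  have h1 : 1 / (p : ℝ) ≤ 1 / 2 := one_div_le_one_div_of_le (by norm_num) h2
  have h3 : (1 - 1 / (p : ℝ))⁻¹ ≤ 2 := by
    rw [inv_le_comm₀ (by linarith) (by norm_num)]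
    linarith
  have h4 : 0 ≤ 1 / (p : ℝ) ^ 2 := by positivity
  calc 1 / (p : ℝ) ^ 2 * (1 - 1 / (p : ℝ))⁻¹ ≤ 1 / (p : ℝ) ^ 2 * 2 :=
        mul_le_mul_of_nonneg_left h3 h4
    _ = _ := by ring

lemma lv_hasSum (u c : ℝ) {p : ℕ} (hp : 2 ≤ p) :
    HasSum (fun a : ℕ => lv u c p a / (p : ℝ) ^ a) (1 + u / p + c * sp p) := by
  have h2 : (2 : ℝ) ≤ p := by exact_mod_cast hp
  have h1 : 1 / (p : ℝ) ≤ 1 / 2 := one_div_le_one_div_of_le (by norm_num) h2
  have hg := hasSum_geometric_of_lt_one (r := 1 / (p : ℝ)) (by positivity) (by linarith)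
  have hg2 := hg.mul_left (c * (1 / (p : ℝ) ^ 2))
  have h3 : HasSum (fun a : ℕ => lv u c p (a + 2) / (p : ℝ) ^ (a + 2)) (c * sp p) := by
    have e : (fun a : ℕ => lv u c p (a + 2) / (p : ℝ) ^ (a + 2)) =
        fun a : ℕ => c * (1 / (p : ℝ) ^ 2) * (1 / (p : ℝ)) ^ a := by
      funext a
      unfold lv
      rw [if_neg (by omega), if_neg (by omega), pow_add, one_div_pow]
      have : (p : ℝ) ≠ 0 := by positivity
      field_simp
    rw [e]
    have e2 : c * sp p = c * (1 / (p : ℝ) ^ 2) * (1 - 1 / (p : ℝ))⁻¹ := by unfold sp; ring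
    rw [e2]
    exact hg2
  rw [← hasSum_nat_add_iff' 2]
  rw [sum_range_succ, sum_range_one]
  have e : 1 + u / p + c * sp p - (lv u c p 0 / (p : ℝ) ^ 0 + lv u c p 1 / (p : ℝ) ^ 1) =
      c * sp p := by
    simp only [lv, if_true, pow_zero, div_one, pow_one, one_ne_zero, if_false]
    ring
  rw [e]
  exact h3

lemma prod_diff_le {ι : Type*} (S : Finset ι) (x y : ι → ℝ) (hx : ∀ i ∈ S, 1 ≤ x i)
    (hy : ∀ i ∈ S, 0 ≤ y i) {t : ℝ} (ht : ∑ i ∈ S, y i ≤ t) (X : ℝ) (hX : ∏ i ∈ S, x i ≤ X) :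
    ∏ i ∈ S, (x i + y i) - ∏ i ∈ S, x i ≤ X * (Real.exp t - 1) := by
  have h1 : ∏ i ∈ S, (x i + y i) ≤ ∏ i ∈ S, (x i * Real.exp (y i)) := by
    refine prod_le_prod (fun i hi => by linarith [hx i hi, hy i hi]) fun i hi => ?_
    have h2 := Real.add_one_le_exp (y i)
    have h3 := hx i hi
    have h4 := hy i hi
    nlinarith
  rw [prod_mul_distrib, ← Real.exp_sum] at h1
  have h0 : 0 ≤ ∏ i ∈ S, x i := prod_nonneg fun i hi => by linarith [hx i hi]
  have h2 : Real.exp (∑ i ∈ S, y i) ≤ Real.exp t := Real.exp_le_exp.2 ht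
  have h3 : 1 ≤ Real.exp t := by
    have : 0 ≤ ∑ i ∈ S, y i := sum_nonneg hy
    exact Real.one_le_exp (this.trans ht)
  have h4 : (∏ i ∈ S, x i) * (Real.exp t - 1) ≤ X * (Real.exp t - 1) :=
    mul_le_mul_of_nonneg_right hX (by linarith)
  have h5 : (∏ i ∈ S, x i) * Real.exp (∑ i ∈ S, y i) ≤ (∏ i ∈ S, x i) * Real.exp t :=
    mul_le_mul_of_nonneg_left h2 h0
  linarith

/-- `∑_{p ≥ m} 1/p²` over a finite set -/
lemma sum_sq_le {m N : ℕ} (hm : 2 ≤ m) :
    ∑ p ∈ (Nat.primesBelow N).filter (fun p => m ≤ p), 1 / (p : ℝ) ^ 2 ≤ 2 / (m : ℝ) := by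
  have h1 : ∑ p ∈ (Nat.primesBelow N).filter (fun p => m ≤ p), 1 / (p : ℝ) ^ 2 ≤
      ∑ i ∈ Ico m N, 1 / (i : ℝ) ^ 2 := by
    refine sum_le_sum_of_subset_of_nonneg (fun p hp => ?_) fun _ _ _ => by positivity
    rw [mem_filter, Nat.mem_primesBelow] at hp
    rw [mem_Ico]
    exact ⟨hp.2, hp.1.1⟩
  refine h1.trans ?_
  have h2 : ∀ M : ℕ, m ≤ M → ∑ i ∈ Ico m M, 1 / (i : ℝ) ^ 2 ≤ 1 / ((m : ℝ) - 1) - 1 / ((M : ℝ) - 1) := by
    intro M hM
    induction M, hM using Nat.le_induction with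
    | base => simp
    | succ M hM ih =>
      rw [sum_Ico_succ_top hM]
      have hM2 : (2 : ℝ) ≤ M := by exact_mod_cast hm.trans hM
      have h3 : 1 / (M : ℝ) ^ 2 ≤ 1 / ((M : ℝ) - 1) - 1 / (((M + 1 : ℕ) : ℝ) - 1) := by
        push_cast
        have : (0:ℝ) < M - 1 := by linarith
        rw [add_sub_cancel_right, div_sub_div _ _ (by positivity) (by positivity),
          div_le_div_iff₀ (by positivity) (by positivity)]
        nlinarith
      linarith
  have hm2 : (2 : ℝ) ≤ m := by exact_mod_cast hm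
  rcases le_total m N with h | h
  · have h3 := h2 N h
    have hN2 : (2 : ℝ) ≤ N := by exact_mod_cast hm.trans h
    have h4 : 0 ≤ 1 / ((N : ℝ) - 1) := by
      apply div_nonneg zero_le_one; linarith
    have h5 : 1 / ((m : ℝ) - 1) ≤ 2 / m := by
      rw [div_le_div_iff₀ (by linarith) (by linarith)]
      linarith
    linarith
  · rw [Ico_eq_empty_of_le h, sum_empty]
    positivity

/-! ## local values -/

lemma pe_zero (z : ℝ) (p : ℕ) : pe z p 0 = 1 := by simp [pe]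

lemma pe_one (z : ℝ) (p : ℕ) : pe z p 1 = 1 + z := by simp [pe, sum_range_succ]

lemma pe_abs {z : ℝ} (hz : |z| ≤ 1) (p a : ℕ) : |pe z p a| ≤ 3 := by
  unfold pe
  refine (abs_sum_le_sum_abs _ _).trans ?_
  have h1 : ∀ i ∈ range (a + 1), |z ^ i / (i.factorial : ℝ)| ≤ 1 ^ i / (i.factorial : ℝ) := by
    intro i _
    rw [abs_div, abs_pow, Nat.abs_cast]
    exact div_le_div_of_nonneg_right (pow_le_pow_left₀ (abs_nonneg _) hz i) (Nat.cast_nonneg _)
  refine (sum_le_sum h1).trans ?_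
  refine (Real.sum_le_exp_of_nonneg zero_le_one (a + 1)).trans ?_
  have := Real.exp_one_lt_d9
  linarith

lemma pe_lv {k : ℝ} (hk0 : 0 ≤ k) (hk1 : k ≤ 1) (p a : ℕ) : |pe (k - 1) p a| ≤ lv k 3 p a := by
  unfold lv
  split_ifs with h0 h1
  · rw [h0, pe_zero, abs_one]
  · rw [h1, pe_one, show 1 + (k - 1) = k by ring, abs_of_nonneg hk0]
  · exact pe_abs (by rw [abs_le]; constructor <;> linarith) p a

lemma ek_lv {k : ℝ} (hk0 : 0 ≤ k) (hk1 : k ≤ 1) (p a : ℕ) : |ek k p a| ≤ lv k 3 p a := by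
  unfold lv
  split_ifs with h0 h1
  · rw [h0, ek_zero, abs_one]
  · rw [h1]; simp [ek, abs_of_nonneg hk0]
  · exact (ek_abs_le_one (by rw [abs_le]; constructor <;> linarith) p a).trans (by norm_num)

lemma low_eq {b : ℕ → ℕ} {n : ℕ} (hn : n ≠ 0) (h : Ob 0 (b 0) n = 0) (ψ : ℕ → ℕ → ℝ) :
    low b ψ n = 1 := by
  unfold low mf
  refine prod_eq_one fun p hp => ?_
  rw [Nat.mem_primeFactors] at hp
  show (if p < b 0 then _ else _) = 1
  rw [if_neg]
  intro h2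
  have := Ob_pos hp.1 hp.2.1 hn ⟨Nat.zero_le p, h2⟩
  omega

lemma low_nonneg {b : ℕ → ℕ} {ψ : ℕ → ℕ → ℝ} (h : ∀ p a, 0 ≤ ψ p a) (n : ℕ) :
    0 ≤ low b ψ n := by
  refine mf_nonneg (fun p a => ?_) n
  split_ifs
  · exact h p a
  · exact zero_le_one

lemma blk_nonneg {b : ℕ → ℕ} {j : ℕ} {φ : ℕ → ℕ → ℝ} (h : ∀ p a, 0 ≤ φ p a) (n : ℕ) :
    0 ≤ blk b j φ n := by
  refine mf_nonneg (fun p a => ?_) n
  split_ifs
  · exact h p a
  · exact zero_le_one

lemma range_of {b : ℕ → ℕ} {J n : ℕ} (hs : n ∈ Nat.smoothNumbers (b (J + 1)))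
    (h : Ob 0 (b 0) n = 0) : ∀ p ∈ n.primeFactors, b 0 ≤ p ∧ p < b (J + 1) := by
  intro p hp
  rw [Nat.mem_primeFactors] at hp
  rw [sm_iff] at hs
  refine ⟨?_, hs.2 p hp.1 hp.2.1⟩
  by_contra h2
  have := Ob_pos hp.1 hp.2.1 hp.2.2 ⟨Nat.zero_le p, not_le.1 h2⟩
  omega

lemma blk_prod' {b : ℕ → ℕ} {J n : ℕ} (hb : ∀ j ≤ J, b j ≤ b (j + 1))
    (hs : n ∈ Nat.smoothNumbers (b (J + 1))) (h : Ob 0 (b 0) n = 0) (φ : ℕ → ℕ → ℝ) :
    ∏ j ∈ range (J + 1), blk b j φ n = mf φ n := by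
  rw [blk_prod hb]
  refine mf_congr fun p hp => ?_
  rw [if_pos (range_of hs h p hp)]

lemma fQ_good {b : ℕ → ℕ} {J n : ℕ} {K : ℕ → ℕ} {k : ℝ} (hb : ∀ j ≤ J, b j ≤ b (j + 1))
    (hs : n ∈ Nat.smoothNumbers (b (J + 1))) (h : Ob 0 (b 0) n = 0)
    (hg : ∀ j ≤ J, Ob (b j) (b (j + 1)) n ≤ K j) : fQ b J (QE k K) n = mf (ek k) n := by
  classical
  have e1 : fQ b J (QE k K) n = mf (ek 1) n *
      ∏ j ∈ range (J + 1), QE k K j (Ob (b j) (b (j + 1)) n) := by
    show (if _ then _ else _) = _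
    rw [if_pos ⟨hs, h⟩]
  have e2 : ∏ j ∈ range (J + 1), QE k K j (Ob (b j) (b (j + 1)) n) =
      ∏ j ∈ range (J + 1), blk b j (fun _ a => k ^ a) n := by
    refine prod_congr rfl fun j hj => ?_
    unfold QE
    rw [if_pos (hg j (by rw [mem_range] at hj; omega)), pow_Ob]
    rfl
  rw [e1, e2, blk_prod' hb hs h, ← mf_mul_fun]
  refine mf_congr fun p _ => ?_
  unfold ek
  rw [one_pow]
  ring

lemma fQ_bad {b : ℕ → ℕ} {J n : ℕ} {K : ℕ → ℕ} {k : ℝ} {j : ℕ} (hj : j ≤ J)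
    (hg : K j < Ob (b j) (b (j + 1)) n) : fQ b J (QE k K) n = 0 := by
  classical
  show (if _ then _ else _) = _
  split_ifs
  · rw [prod_eq_zero (i := j) (mem_range.2 (by omega)), mul_zero]
    unfold QE
    rw [if_neg (by omega)]
  · rfl

lemma fQ_small {b : ℕ → ℕ} {J n : ℕ} {Q : ℕ → ℕ → ℝ} (h : Ob 0 (b 0) n ≠ 0) :
    fQ b J Q n = 0 := by
  classical
  show (if _ then _ else _) = _
  rw [if_neg (fun h' => h h'.2)]

/-! ## one block -/

/-- the block factor of the convolution -/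
noncomputable def Gj (b : ℕ → ℕ) (z : ℝ) (K : ℕ → ℕ) (n j : ℕ) : ℝ :=
  ∑ d ∈ (prt (b j) (b (j + 1)) n).divisors, mf (ek 1) d * QE z K j (Ob (b j) (b (j + 1)) d)

lemma mf_prod_pow {φ : ℕ → ℕ → ℝ} (h0 : ∀ p, φ p 0 = 1) (a : ℕ → ℕ) (S : Finset ℕ)
    (hS : ∀ p ∈ S, p.Prime) : mf φ (∏ p ∈ S, p ^ a p) = ∏ p ∈ S, φ p (a p) := by
  classical
  induction S using Finset.induction_on with
  | empty => simp [mf_one]
  | insert q S hq ih =>
    rw [prod_insert hq, prod_insert hq, mf_mul, mf_prime_pow (hS q (mem_insert_self _ _)) (h0 q),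
      ih fun p hp => hS p (mem_insert_of_mem hp)]
    refine Nat.Coprime.prod_right fun p hp => ?_
    refine Nat.Coprime.pow _ _ ?_
    rw [Nat.coprime_primes (hS q (mem_insert_self _ _)) (hS p (mem_insert_of_mem hp))]
    rintro rfl
    exact hq hp

lemma mf_prt {φ : ℕ → ℕ → ℝ} (h0 : ∀ p, φ p 0 = 1) (u v n : ℕ) :
    mf φ (prt u v n) = mf (fun p a => if u ≤ p ∧ p < v then φ p a else 1) n := by
  unfold prt
  rw [mf_prod_pow h0]
  · unfold mf
    rw [prod_filter]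
  · intro p hp
    rw [mem_filter, Nat.mem_primeFactors] at hp
    exact hp.1.1

lemma prt_ne (u v n : ℕ) : prt u v n ≠ 0 := by
  unfold prt
  refine prod_ne_zero_iff.2 fun p hp => ?_
  rw [mem_filter, Nat.mem_primeFactors] at hp
  exact pow_ne_zero _ hp.1.1.ne_zero

/-- the bad blocks -/
lemma Gj_bad {b : ℕ → ℕ} {z : ℝ} (hz : |z| ≤ 1) {K : ℕ → ℕ} {n j : ℕ}
    (h : K j < Ob (b j) (b (j + 1)) n) :
    Gj b z K n j ^ 2 ≤ rr⁻¹ ^ K j * blk b j (tm 2) n := by
  have h1 : |Gj b z K n j| ≤ mf tl (prt (b j) (b (j + 1)) n) := by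
    unfold Gj
    refine (abs_sum_le_sum_abs _ _).trans ?_
    have h2 : ∀ d ∈ (prt (b j) (b (j + 1)) n).divisors,
        |mf (ek 1) d * QE z K j (Ob (b j) (b (j + 1)) d)| ≤ 1 := by
      intro d _
      rw [abs_mul]
      have h3 : |mf (ek 1) d| ≤ 1 := by
        rw [mf_abs]
        exact mf_le_one (fun _ _ => abs_nonneg _) (fun p a => ek_abs_le_one (by simp) p a) d
      have h4 : |QE z K j (Ob (b j) (b (j + 1)) d)| ≤ 1 := by
        unfold QE
        split_ifs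
        · rw [abs_pow]; exact pow_le_one₀ (abs_nonneg _) hz
        · simp
      exact mul_le_one₀ h3 (abs_nonneg _) h4
    refine (sum_le_sum h2).trans ?_
    rw [sum_const, nsmul_eq_mul, mul_one]
    exact (tau_eq (prt_ne _ _ _)).ge
  rw [mf_prt tl_zero] at h1
  have h5 : Gj b z K n j ^ 2 ≤
      (mf (fun p a => if b j ≤ p ∧ p < b (j + 1) then tl p a else 1) n) ^ 2 := by
    rw [← sq_abs]
    exact pow_le_pow_left₀ (abs_nonneg _) h1 2
  refine h5.trans ?_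
  have h6 : (1 : ℝ) ≤ rr⁻¹ ^ K j * rr ^ Ob (b j) (b (j + 1)) n := by
    have h7 : rr ^ K j ≤ rr ^ Ob (b j) (b (j + 1)) n :=
      pow_le_pow_right₀ one_le_rr h.le
    have h8 : 0 < rr ^ K j := pow_pos rr_pos _
    rw [inv_pow, inv_mul_eq_div, le_div_iff₀ h8, one_mul]
    exact h7
  have h9 : blk b j (tm 2) n = (mf (fun p a => if b j ≤ p ∧ p < b (j + 1) then tl p a else 1) n) ^ 2 *
      rr ^ Ob (b j) (b (j + 1)) n := by
    rw [pow_Ob, ← mf_pow_fun, ← mf_mul_fun]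
    unfold blk
    refine mf_congr fun p _ => ?_
    split_ifs
    · simp [tm, tl]
    · simp
  rw [h9]
  have h10 : 0 ≤ (mf (fun p a => if b j ≤ p ∧ p < b (j + 1) then tl p a else 1) n) ^ 2 := sq_nonneg _
  nlinarith

/-- the sequence with the two values `b j`, `b (j + 1)` -/
def b2 (b : ℕ → ℕ) (j i : ℕ) : ℕ := if i = 0 then b j else b (j + 1)

/-- the good blocks -/
lemma Gj_good (hF : P_FAC) (hG : P_GSG) {b : ℕ → ℕ} {k : ℝ} {K : ℕ → ℕ} {n j : ℕ} (hn : n ≠ 0)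
    (hb : b j ≤ b (j + 1)) (h : Ob (b j) (b (j + 1)) n ≤ K j) :
    Gj b (k - 1) K n j = blk b j (pe (k - 1)) n := by
  have hb2 : ∀ i ≤ 0, b2 b j i ≤ b2 b j (i + 1) := by
    intro i hi
    have : i = 0 := by omega
    subst this
    simpa [b2] using hb
  have h1 := hF (b2 b j) 0 (QE (k - 1) (fun _ => K j)) hb2 n hn
  have h2 := hG (b2 b j) 0 (fun _ => K j) k hb2 n hn (by
    intro i hi
    have : i = 0 := by omega
    subst this
    simpa [b2] using h)
  rw [h2] at h1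
  simp only [zero_add, range_one, prod_singleton] at h1
  have e1 : blk (b2 b j) 0 (pe (k - 1)) n = blk b j (pe (k - 1)) n := by
    simp [blk, b2]
  rw [e1] at h1
  rw [h1]
  unfold Gj
  simp only [b2, if_true, one_ne_zero, if_false, QE]

/-! ## the sums -/

/-- the local values of the indicator function of the numbers without small prime factors -/
noncomputable def dlt (_p a : ℕ) : ℝ := if a = 0 then 1 else 0

lemma dlt_tsum (p : ℕ) : ∑' a : ℕ, dlt p a / (p : ℝ) ^ a = 1 := by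
  rw [tsum_eq_single 0]
  · simp [dlt]
  · intro a ha
    simp [dlt, ha]

lemma dlt_sum (p : ℕ) : Summable fun a : ℕ => |dlt p a| / (p : ℝ) ^ a := by
  refine summable_of_ne_finset_zero (s := {0}) fun a ha => ?_
  rw [Finset.mem_singleton] at ha
  simp [dlt, ha]

lemma gl1 (hL : P_GL) {b : ℕ → ℕ} {J : ℕ} (hb : ∀ j ≤ J, b j ≤ b (j + 1)) {φ : ℕ → ℕ → ℝ}
    (h0 : ∀ p, φ p 0 = 1)
    (hs : ∀ p : ℕ, p.Prime → Summable fun a : ℕ => |φ p a| / (p : ℝ) ^ a) :
    Sb (b (J + 1)) (fun n => low b dlt n * ∏ j ∈ range (J + 1), blk b j φ n) ∧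
    SS (b (J + 1)) (fun n => low b dlt n * ∏ j ∈ range (J + 1), blk b j φ n) =
      ∏ p ∈ (Nat.primesBelow (b (J + 1))).filter (fun p => b 0 ≤ p),
        ∑' a : ℕ, φ p a / (p : ℝ) ^ a := by
  have h := hL b J {0} dlt (fun _ _ => 1) (fun _ _ => φ) hb (fun p => by simp [dlt])
    (fun _ _ p => h0 p) (fun p _ _ => dlt_sum p) (fun j _ o _ p hp => by
      simp only [bp, mem_filter, Nat.mem_primesBelow] at hp
      exact hs p hp.1.2)
  simp only [sum_singleton, one_mul, dlt_tsum, prod_const_one] at h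
  rw [bp_prod hb] at h
  exact ⟨Sb_of_le h.1 fun n _ => le_rfl, h.2⟩

lemma gl2 (hL : P_GL) {b : ℕ → ℕ} {J : ℕ} (hb : ∀ j ≤ J, b j ≤ b (j + 1)) {φ ψ : ℕ → ℕ → ℝ}
    (c : ℕ → ℝ) (h0 : ∀ p, φ p 0 = 1) (h0' : ∀ p, ψ p 0 = 1)
    (hs : ∀ p : ℕ, p.Prime → Summable fun a : ℕ => |φ p a| / (p : ℝ) ^ a)
    (hs' : ∀ p : ℕ, p.Prime → Summable fun a : ℕ => |ψ p a| / (p : ℝ) ^ a) :
    Sb (b (J + 1)) (fun n => low b dlt n * ∏ j ∈ range (J + 1),
      (blk b j φ n + c j * blk b j ψ n)) ∧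
    SS (b (J + 1)) (fun n => low b dlt n * ∏ j ∈ range (J + 1),
      (blk b j φ n + c j * blk b j ψ n)) =
      ∏ j ∈ range (J + 1), ((∏ p ∈ bp b j, ∑' a : ℕ, φ p a / (p : ℝ) ^ a) +
        c j * ∏ p ∈ bp b j, ∑' a : ℕ, ψ p a / (p : ℝ) ^ a) := by
  have h := hL b J (range 2) dlt (fun j o => if o = 0 then 1 else c j)
    (fun _ o => if o = 0 then φ else ψ) hb (fun p => by simp [dlt])
    (fun _ o p => by split_ifs; exacts [h0 p, h0' p]) (fun p _ _ => dlt_sum p)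
    (fun j _ o _ p hp => by
      simp only [bp, mem_filter, Nat.mem_primesBelow] at hp
      split_ifs
      exacts [hs p hp.1.2, hs' p hp.1.2])
  simp only [sum_range_succ, range_zero, sum_empty, zero_add, if_true, one_ne_zero, if_false,
    one_mul, dlt_tsum, prod_const_one] at h
  exact ⟨Sb_of_le h.1 fun n _ => le_rfl, h.2⟩

lemma prod_bad {ι : Type*} [DecidableEq ι] (S : Finset ι) (A B x : ι → ℝ)
    (hA : ∀ i ∈ S, 0 ≤ A i) (hB : ∀ i ∈ S, 0 ≤ B i) (hx : ∀ i ∈ S, 0 ≤ x i)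
    (hx1 : ∀ i ∈ S, x i ≤ A i + B i) {j : ι} (hj : j ∈ S) (hxj : x j ≤ B j) :
    ∏ i ∈ S, x i ≤ ∏ i ∈ S, (A i + B i) - ∏ i ∈ S, A i := by
  rw [← mul_prod_erase S x hj, ← mul_prod_erase S (fun i => A i + B i) hj,
    ← mul_prod_erase S A hj]
  have h1 : ∏ i ∈ S.erase j, x i ≤ ∏ i ∈ S.erase j, (A i + B i) :=
    prod_le_prod (fun i hi => hx i (mem_of_mem_erase hi)) fun i hi => hx1 i (mem_of_mem_erase hi)
  have h2 : ∏ i ∈ S.erase j, A i ≤ ∏ i ∈ S.erase j, (A i + B i) :=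
    prod_le_prod (fun i hi => hA i (mem_of_mem_erase hi)) fun i hi => by
      linarith [hB i (mem_of_mem_erase hi)]
  have h3 : x j * ∏ i ∈ S.erase j, x i ≤ B j * ∏ i ∈ S.erase j, (A i + B i) :=
    mul_le_mul hxj h1 (prod_nonneg fun i hi => hx i (mem_of_mem_erase hi)) (hB j hj)
  have h4 : A j * ∏ i ∈ S.erase j, A i ≤ A j * ∏ i ∈ S.erase j, (A i + B i) :=
    mul_le_mul_of_nonneg_left h2 (hA j hj)
  linarith

/-- the pointwise bound -/
lemma pointwise (hF : P_FAC) (hG : P_GSG) (hM : P_FACM) {b : ℕ → ℕ} {J : ℕ} {K : ℕ → ℕ} {k : ℝ}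
    (hb : ∀ j ≤ J, b j ≤ b (j + 1)) (hk0 : 0 ≤ k) (hk1 : k ≤ 1) {n : ℕ}
    (hs : n ∈ Nat.smoothNumbers (b (J + 1))) :
    ((mu0 (b 0) * fQ b J (QE (k - 1) K) * zt) n - fQ b J (QE k K) n) ^ 2 ≤
      4 * (low b dlt n * ∏ j ∈ range (J + 1), blk b j (lv (k ^ 2) 18) n) +
      (-4) * (low b dlt n * ∏ j ∈ range (J + 1), blk b j (lv (k ^ 2) 9) n) +
      (low b dlt n * ∏ j ∈ range (J + 1), (blk b j (fun p a => pe (k - 1) p a ^ 2) n +
        rr⁻¹ ^ K j * blk b j (tm 2) n) +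
      (-1) * (low b dlt n * ∏ j ∈ range (J + 1), blk b j (fun p a => pe (k - 1) p a ^ 2) n)) := by
  classical
  have hn : n ≠ 0 := (sm_iff.mp hs).1
  have hdl : ∀ p a, 0 ≤ dlt p a := fun p a => by unfold dlt; split_ifs <;> norm_num
  have hlow : 0 ≤ low b dlt n := low_nonneg hdl n
  have hk2 : 0 ≤ k ^ 2 := sq_nonneg k
  have hA : ∀ j ∈ range (J + 1), 0 ≤ blk b j (fun p a => pe (k - 1) p a ^ 2) n :=
    fun j _ => blk_nonneg (fun _ _ => sq_nonneg _) n
  have hB : ∀ j ∈ range (J + 1), 0 ≤ rr⁻¹ ^ K j * blk b j (tm 2) n := fun j _ =>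
    mul_nonneg (pow_nonneg (inv_nonneg.2 rr_pos.le) _) (blk_nonneg (fun p a => tm_nonneg 2 p a) n)
  -- both differences are nonnegative
  have hd1 : ∏ j ∈ range (J + 1), blk b j (lv (k ^ 2) 9) n ≤
      ∏ j ∈ range (J + 1), blk b j (lv (k ^ 2) 18) n := by
    refine prod_le_prod (fun j _ => blk_nonneg (lv_nonneg hk2 (by norm_num)) n) fun j _ => ?_
    refine mf_le (fun p a => ?_) n fun p _ => ?_
    · split_ifs
      · exact lv_nonneg hk2 (by norm_num) _ _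
      · exact zero_le_one
    · split_ifs
      · unfold lv; split_ifs <;> norm_num
      · exact le_rfl
  have hd2 : ∏ j ∈ range (J + 1), blk b j (fun p a => pe (k - 1) p a ^ 2) n ≤
      ∏ j ∈ range (J + 1), (blk b j (fun p a => pe (k - 1) p a ^ 2) n +
        rr⁻¹ ^ K j * blk b j (tm 2) n) :=
    prod_le_prod hA fun j hj => by linarith [hB j hj]
  rw [hM b J _ hb n hn]
  by_cases h0 : Ob 0 (b 0) n = 0
  swap
  · rw [if_neg h0, fQ_small h0, sub_zero]
    have e1 := mul_le_mul_of_nonneg_left hd1 hlow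
    have e2 := mul_le_mul_of_nonneg_left hd2 hlow
    have : (0 : ℝ) ^ 2 = 0 := by norm_num
    rw [this]
    linarith
  rw [if_pos h0, low_eq hn h0]
  simp only [one_mul]
  by_cases hgood : ∀ j ≤ J, Ob (b j) (b (j + 1)) n ≤ K j
  · rw [hG b J K k hb n hn hgood, fQ_good hb hs h0 hgood, blk_prod' hb hs h0]
    rw [blk_prod' hb hs h0, blk_prod' hb hs h0, blk_prod' hb hs h0] at *
    by_cases hsq : ∀ p ∈ n.primeFactors, n.factorization p = 1
    · have e : mf (pe (k - 1)) n = mf (ek k) n := by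
        refine mf_congr fun p hp => ?_
        rw [hsq p hp, pe_one]
        simp [ek]
      rw [e, sub_self]
      have : (0 : ℝ) ^ 2 = 0 := by norm_num
      rw [this]
      linarith
    · push Not at hsq
      obtain ⟨p, hp, hpa⟩ := hsq
      have hp' := hp
      rw [Nat.mem_primeFactors] at hp'
      have hpa1 : 1 ≤ n.factorization p := hp'.1.factorization_pos_of_dvd hn hp'.2.1
      have h1 : |mf (pe (k - 1)) n| ≤ mf (lv k 3) n := by
        rw [mf_abs]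
        exact mf_le (fun _ _ => abs_nonneg _) n fun q _ => pe_lv hk0 hk1 q _
      have h2 : |mf (ek k) n| ≤ mf (lv k 3) n := by
        rw [mf_abs]
        exact mf_le (fun _ _ => abs_nonneg _) n fun q _ => ek_lv hk0 hk1 q _
      have h3 : (mf (pe (k - 1)) n - mf (ek k) n) ^ 2 ≤ 4 * mf (lv k 3) n ^ 2 := by
        rw [abs_le] at h1 h2
        nlinarith
      have e9 : mf (lv k 3) n ^ 2 = mf (lv (k ^ 2) 9) n := by
        rw [← mf_pow_fun]
        refine mf_congr fun q _ => ?_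
        rw [sq, lv_mul, ← sq]
        norm_num
      have e18 : mf (lv (k ^ 2) 18) n = mf (lv (k ^ 2) 9) n * mf (lv 1 2) n := by
        rw [← mf_mul_fun]
        refine mf_congr fun q _ => ?_
        rw [lv_mul, mul_one]
        norm_num
      have h4 : 2 ≤ mf (lv 1 2) n := by
        unfold mf
        rw [← mul_prod_erase _ _ hp]
        have h5 : lv 1 2 p (n.factorization p) = 2 := by
          unfold lv
          rw [if_neg (by omega), if_neg hpa]
        have h6 : 1 ≤ ∏ q ∈ n.primeFactors.erase p, lv 1 2 q (n.factorization q) := by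
          refine Finset.one_le_prod fun q _ => ?_
          unfold lv
          split_ifs <;> norm_num
        rw [h5]
        linarith
      have h9 : 0 ≤ mf (lv (k ^ 2) 9) n := mf_nonneg (lv_nonneg hk2 (by norm_num)) n
      rw [e9] at h3
      rw [e18]
      nlinarith
  · push Not at hgood
    obtain ⟨j0, hj0, hbad⟩ := hgood
    rw [fQ_bad hj0 hbad, sub_zero, hF b J _ hb n hn]
    have e : ∏ j ∈ range (J + 1), ∑ d ∈ (prt (b j) (b (j + 1)) n).divisors,
        mf (ek 1) d * QE (k - 1) K j (Ob (b j) (b (j + 1)) d) =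
        ∏ j ∈ range (J + 1), Gj b (k - 1) K n j := rfl
    rw [e, ← prod_pow]
    have hz : |k - 1| ≤ 1 := by rw [abs_le]; constructor <;> linarith
    have h1 := prod_bad (range (J + 1)) (fun j => blk b j (fun p a => pe (k - 1) p a ^ 2) n)
      (fun j => rr⁻¹ ^ K j * blk b j (tm 2) n) (fun j => Gj b (k - 1) K n j ^ 2) hA hB
      (fun _ _ => sq_nonneg _) (fun j hj => by
        have hjJ : j ≤ J := by rw [mem_range] at hj; omega
        by_cases hc : Ob (b j) (b (j + 1)) n ≤ K j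
        · have h2 := Gj_good hF hG (k := k) hn (hb j hjJ) hc
          have h3 : blk b j (fun p a => pe (k - 1) p a ^ 2) n = blk b j (pe (k - 1)) n ^ 2 := by
            unfold blk
            rw [← mf_pow_fun]
            refine mf_congr fun p _ => ?_
            split_ifs <;> simp
          rw [h2, h3]
          have := hB j hj
          linarith
        · have h2 := Gj_bad (b := b) (K := K) (n := n) (j := j) hz (not_le.1 hc)
          have := hA j hj
          linarith) (mem_range.2 (by omega : j0 < J + 1)) (Gj_bad hz hbad)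
    linarith

lemma exp_sub_one_le {t : ℝ} : Real.exp t - 1 ≤ t * Real.exp t := by
  have h := Real.add_one_le_exp (-t)
  have h2 := Real.exp_pos t
  have h3 : Real.exp (-t) * Real.exp t = 1 := by rw [← Real.exp_add]; simp
  nlinarith

theorem t_D1 (hF : P_FAC) (hG : P_GSG) (hM : P_FACM) (hL : P_GL) (hC : P_LC) : P_D1 := by
  classical
  obtain ⟨C, hC1, hLC⟩ := hC
  have hq1 : ∀ p : ℕ, p.Prime → ∀ k : ℝ, 0 ≤ k → k ≤ 1 →
      ((Summable fun a : ℕ => pe (k - 1) p a ^ 2 / (p : ℝ) ^ a) ∧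
        ∑' a : ℕ, pe (k - 1) p a ^ 2 / (p : ℝ) ^ a ≤
          Real.exp (k ^ 2 / p + C / (p : ℝ) ^ 2)) ∧
      ((Summable fun a : ℕ => tm 2 p a / (p : ℝ) ^ a) ∧
        ∑' a : ℕ, tm 2 p a / (p : ℝ) ^ a ≤ Real.exp (C / p)) := by
    intro p hp k hk0 hk1
    obtain ⟨_, h2, h3, _⟩ := hLC p hp 1 le_rfl (by norm_num) k hk0 hk1
    simp only [one_pow, mul_one, Real.log_one, mul_zero, zero_div, add_zero] at h2 h3
    exact ⟨h2, h3⟩
  refine ⟨1 / (15 * C), by positivity, fun e he0 he1 C3 _ =>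
    ⟨4 * (36 * Real.exp 72) + Real.exp (C + 1), by positivity,
    Filter.Eventually.of_forall fun T k J K b hSu => ?_⟩⟩
  have hb := hSu.mono
  have hk0 : 0 ≤ k := hSu.k0.le
  have hk1 := hSu.k1
  have hk2 : 0 ≤ k ^ 2 := sq_nonneg k
  have hk21 : k ^ 2 ≤ 1 := pow_le_one₀ hk0 hk1
  have hb0 : (2 : ℝ) ≤ b 0 := by exact_mod_cast hSu.b0
  have hb0k : 1 / (b 0 : ℝ) ≤ k ^ 2 := by
    have h1 := hSu.b0l
    have hk3 : 0 < k ^ 2 := pow_pos hSu.k0 2
    rw [div_le_iff₀ (by linarith)]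
    rw [div_le_iff₀ hk3] at h1
    linarith
  -- the four sums
  have hlvs : ∀ u c : ℝ, 0 ≤ u → 0 ≤ c → ∀ p : ℕ, p.Prime →
      Summable fun a : ℕ => |lv u c p a| / (p : ℝ) ^ a := by
    intro u c hu hc p hp
    refine (lv_hasSum u c hp.two_le).summable.congr fun a => ?_
    rw [abs_of_nonneg (lv_nonneg hu hc p a)]
  have hpes : ∀ p : ℕ, p.Prime →
      Summable fun a : ℕ => |(fun p a => pe (k - 1) p a ^ 2) p a| / (p : ℝ) ^ a := by
    intro p hp
    refine (hq1 p hp k hk0 hk1).1.1.congr fun a => ?_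
    rw [abs_of_nonneg (sq_nonneg _)]
  have htms : ∀ p : ℕ, p.Prime → Summable fun a : ℕ => |tm 2 p a| / (p : ℝ) ^ a := by
    intro p hp
    refine (hq1 p hp k hk0 hk1).2.1.congr fun a => ?_
    rw [abs_of_nonneg (tm_nonneg 2 p a)]
  obtain ⟨s1, e1⟩ := gl1 hL hb (φ := lv (k ^ 2) 18) (lv_zero _ _) (hlvs _ _ hk2 (by norm_num))
  obtain ⟨s2, e2⟩ := gl1 hL hb (φ := lv (k ^ 2) 9) (lv_zero _ _) (hlvs _ _ hk2 (by norm_num))
  obtain ⟨s3, e3⟩ := gl2 hL hb (φ := fun p a => pe (k - 1) p a ^ 2) (ψ := tm 2)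
    (fun j => rr⁻¹ ^ K j) (fun p => by rw [pe_zero, one_pow]) (fun p => tm_zero 2 p) hpes htms
  obtain ⟨s4, e4⟩ := gl1 hL hb (φ := fun p a => pe (k - 1) p a ^ 2)
    (fun p => by rw [pe_zero, one_pow]) hpes
  have hpt : ∀ n ∈ Nat.smoothNumbers (b (J + 1)), _ := fun n hn =>
    pointwise hF hG hM (K := K) hb hk0 hk1 hn
  have t1 := s1.const_mul 4
  have t2 := s2.const_mul (-4)
  have t4 := s4.const_mul (-1)
  have t12 := t1.add t2
  have t34 := s3.add t4
  have tall := t12.add t34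
  have hSb : Sb (b (J + 1)) (fun n =>
      ((mu0 (b 0) * fQ b J (QE (k - 1) K) * zt) n - fQ b J (QE k K) n) ^ 2) := by
    refine Sb_of_le tall fun n hn => ?_
    rw [abs_of_nonneg (sq_nonneg _)]
    exact hpt n hn
  refine ⟨hSb, (SS_le hSb tall hpt).trans ?_⟩
  rw [SS_add t12 t34, SS_add t1 t2, SS_add s3 t4, SS_const_mul, SS_const_mul, SS_const_mul, e1, e2,
    e3, e4]
  set PR := (Nat.primesBelow (b (J + 1))).filter (fun p => b 0 ≤ p) with hPR
  have hPRp : ∀ p ∈ PR, p.Prime := fun p hp => by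
    rw [hPR, mem_filter, Nat.mem_primesBelow] at hp; exact hp.1.2
  have hsq : ∑ p ∈ PR, 1 / (p : ℝ) ^ 2 ≤ 2 * k ^ 2 := by
    have h1 := sum_sq_le (m := b 0) (N := b (J + 1)) hSu.b0
    have h2 : 2 / (b 0 : ℝ) = 2 * (1 / b 0) := by ring
    rw [h2] at h1
    linarith
  have hsum1 : ∑ p ∈ PR, 1 / (p : ℝ) ≤ R1 (b (J + 1)) := by
    unfold R1
    exact sum_le_sum_of_subset_of_nonneg (filter_subset _ _) fun _ _ _ => by positivity
  have hW : 0 < WW k J b := Real.exp_pos _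
  -- first difference
  have hD1 : ∏ p ∈ PR, ∑' a : ℕ, lv (k ^ 2) 18 p a / (p : ℝ) ^ a -
      ∏ p ∈ PR, ∑' a : ℕ, lv (k ^ 2) 9 p a / (p : ℝ) ^ a ≤
      (Real.exp 36 * WW k J b) * (Real.exp (36 * k ^ 2) - 1) := by
    have q1 : ∏ p ∈ PR, ∑' a : ℕ, lv (k ^ 2) 18 p a / (p : ℝ) ^ a =
        ∏ p ∈ PR, ((1 + k ^ 2 / p + 9 * sp p) + 9 * sp p) := by
      refine prod_congr rfl fun p hp => ?_
      rw [(lv_hasSum _ _ (hPRp p hp).two_le).tsum_eq]
      ring
    have q2 : ∏ p ∈ PR, ∑' a : ℕ, lv (k ^ 2) 9 p a / (p : ℝ) ^ a =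
        ∏ p ∈ PR, (1 + k ^ 2 / p + 9 * sp p) := by
      refine prod_congr rfl fun p hp => ?_
      rw [(lv_hasSum _ _ (hPRp p hp).two_le).tsum_eq]
    have hspS : ∑ p ∈ PR, 9 * sp p ≤ 36 * k ^ 2 := by
      calc ∑ p ∈ PR, 9 * sp p ≤ ∑ p ∈ PR, 18 * (1 / (p : ℝ) ^ 2) := by
            refine sum_le_sum fun p hp => ?_
            have := sp_le (hPRp p hp).two_le
            have e : 18 * (1 / (p : ℝ) ^ 2) = 9 * (2 / (p : ℝ) ^ 2) := by ring
            rw [e]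
            linarith
        _ = 18 * ∑ p ∈ PR, 1 / (p : ℝ) ^ 2 := by rw [mul_sum]
        _ ≤ _ := by linarith
    rw [q1, q2]
    refine prod_diff_le PR _ _ (fun p hp => ?_) (fun p hp => ?_) hspS _ ?_
    · have := sp_nonneg (hPRp p hp).two_le
      have h2 : 0 ≤ k ^ 2 / (p : ℝ) := by positivity
      linarith
    · have := sp_nonneg (hPRp p hp).two_le
      linarith
    · have h1 : ∏ p ∈ PR, (1 + k ^ 2 / p + 9 * sp p) ≤
          ∏ p ∈ PR, Real.exp (k ^ 2 * (1 / p) + 9 * sp p) := by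
        refine prod_le_prod (fun p hp => ?_) fun p hp => ?_
        · have := sp_nonneg (hPRp p hp).two_le
          have h2 : 0 ≤ k ^ 2 / (p : ℝ) := by positivity
          linarith
        · have := Real.add_one_le_exp (k ^ 2 * (1 / (p : ℝ)) + 9 * sp p)
          have e : k ^ 2 / (p : ℝ) = k ^ 2 * (1 / p) := by ring
          rw [e]
          linarith
      refine h1.trans ?_
      rw [← Real.exp_sum, sum_add_distrib, ← mul_sum]
      unfold WW
      rw [← Real.exp_add]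
      apply Real.exp_le_exp.2
      have h3 : k ^ 2 * ∑ p ∈ PR, 1 / (p : ℝ) ≤ k ^ 2 * R1 (b (J + 1)) :=
        mul_le_mul_of_nonneg_left hsum1 hk2
      linarith
  -- second difference
  have hloge : 1 / 6 ≤ Real.log rr := by
    have h1 := Real.one_sub_inv_le_log_of_pos rr_pos
    have h2 : 1 - rr⁻¹ = 1 / 6 := by unfold rr; norm_num
    linarith
  have hD2 : ∏ j ∈ range (J + 1),
        ((∏ p ∈ bp b j, ∑' a : ℕ, (fun p a => pe (k - 1) p a ^ 2) p a / (p : ℝ) ^ a) +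
        rr⁻¹ ^ K j * ∏ p ∈ bp b j, ∑' a : ℕ, tm 2 p a / (p : ℝ) ^ a) -
      ∏ p ∈ PR, ∑' a : ℕ, (fun p a => pe (k - 1) p a ^ 2) p a / (p : ℝ) ^ a ≤
      (Real.exp C * WW k J b) * (Real.exp (k ^ 2) - 1) := by
    rw [hPR, ← bp_prod hb]
    have hbpp : ∀ j, ∀ p ∈ bp b j, p.Prime := fun j p hp => by
      simp only [bp, mem_filter, Nat.mem_primesBelow] at hp; exact hp.1.2
    refine prod_diff_le (range (J + 1)) _ _ (fun j _ => ?_) (fun j _ => ?_) ?_ _ ?_
    · refine Finset.one_le_prod fun p hp => ?_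
      have h1 := (hq1 p (hbpp j p hp) k hk0 hk1).1.1
      have h2 := h1.le_tsum 0 (fun a _ => by positivity)
      rw [pe_zero] at h2
      simpa using h2
    · refine mul_nonneg (pow_nonneg (inv_nonneg.2 rr_pos.le) _) (prod_nonneg fun p _ =>
        tsum_nonneg fun a => div_nonneg (tm_nonneg 2 p a) (by positivity))
    · refine le_trans (sum_le_sum fun j hj => ?_) hSu.err
      have hjJ : j ≤ J := by rw [mem_range] at hj; omega
      have h1 : ∏ p ∈ bp b j, ∑' a : ℕ, tm 2 p a / (p : ℝ) ^ a ≤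
          Real.exp (C * (R1 (b (j + 1)) - R1 (b j))) := by
        rw [← bp_sum (hb j hjJ), mul_sum, Real.exp_sum]
        refine prod_le_prod (fun p _ => tsum_nonneg fun a =>
          div_nonneg (tm_nonneg 2 p a) (by positivity)) fun p hp => ?_
        have := (hq1 p (hbpp j p hp) k hk0 hk1).2.2
        rwa [mul_one_div]
      have h2 : rr⁻¹ ^ K j ≤ Real.exp (-((K j : ℝ) / 6)) := by
        have h3 : rr⁻¹ = Real.exp (-Real.log rr) := by rw [Real.exp_neg, Real.exp_log rr_pos]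
        rw [h3, ← Real.exp_nat_mul]
        apply Real.exp_le_exp.2
        have : (0 : ℝ) ≤ K j := Nat.cast_nonneg _
        nlinarith
      have h4 : C * (R1 (b (j + 1)) - R1 (b j)) ≤ (K j : ℝ) / 15 := by
        have h5 := hSu.var j hjJ
        have h6 : C * e ≤ 1 / 15 := by
          calc C * e ≤ C * (1 / (15 * C)) := mul_le_mul_of_nonneg_left he1 (by linarith)
            _ = 1 / 15 := by field_simp
        have h7 : (0 : ℝ) ≤ K j := Nat.cast_nonneg _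
        calc C * (R1 (b (j + 1)) - R1 (b j)) ≤ C * (e * K j) :=
              mul_le_mul_of_nonneg_left h5 (by linarith)
          _ = C * e * K j := by ring
          _ ≤ 1 / 15 * K j := mul_le_mul_of_nonneg_right h6 h7
          _ = _ := by ring
      calc rr⁻¹ ^ K j * ∏ p ∈ bp b j, ∑' a : ℕ, tm 2 p a / (p : ℝ) ^ a
          ≤ Real.exp (-((K j : ℝ) / 6)) * Real.exp ((K j : ℝ) / 15) := by
            refine mul_le_mul h2 (h1.trans (Real.exp_le_exp.2 h4)) (prod_nonneg fun p _ =>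
              tsum_nonneg fun a => div_nonneg (tm_nonneg 2 p a) (by positivity))
              (Real.exp_pos _).le
        _ = Real.exp (-((K j : ℝ) / 6) + (K j : ℝ) / 15) := by rw [Real.exp_add]
        _ ≤ Real.exp (-((K j : ℝ) / 100)) := by
            apply Real.exp_le_exp.2
            have h7 : (0 : ℝ) ≤ K j := Nat.cast_nonneg _
            linarith
    · rw [bp_prod hb, ← hPR]
      have h1 : ∏ p ∈ PR, ∑' a : ℕ, pe (k - 1) p a ^ 2 / (p : ℝ) ^ a ≤
          ∏ p ∈ PR, Real.exp (k ^ 2 * (1 / p) + C * (1 / (p : ℝ) ^ 2)) := by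
        refine prod_le_prod (fun p _ => tsum_nonneg fun a => by positivity) fun p hp => ?_
        have := (hq1 p (hPRp p hp) k hk0 hk1).1.2
        rwa [mul_one_div, mul_one_div]
      refine h1.trans ?_
      rw [← Real.exp_sum, sum_add_distrib, ← mul_sum, ← mul_sum]
      unfold WW
      rw [← Real.exp_add]
      apply Real.exp_le_exp.2
      have h3 : k ^ 2 * ∑ p ∈ PR, 1 / (p : ℝ) ≤ k ^ 2 * R1 (b (J + 1)) :=
        mul_le_mul_of_nonneg_left hsum1 hk2
      have h4 : ∑ p ∈ PR, 1 / (p : ℝ) ^ 2 ≤ 1 := by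
        have h5 := sum_sq_le (m := b 0) (N := b (J + 1)) hSu.b0
        have h6 : 2 / (b 0 : ℝ) ≤ 1 := by rw [div_le_one (by linarith)]; exact hb0
        linarith
      have h5 : C * ∑ p ∈ PR, 1 / (p : ℝ) ^ 2 ≤ C * 1 :=
        mul_le_mul_of_nonneg_left h4 (by linarith)
      linarith
  have hx1 : Real.exp (36 * k ^ 2) - 1 ≤ 36 * k ^ 2 * Real.exp 36 := by
    refine exp_sub_one_le.trans ?_
    have : Real.exp (36 * k ^ 2) ≤ Real.exp 36 := Real.exp_le_exp.2 (by linarith)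
    exact mul_le_mul_of_nonneg_left this (by positivity)
  have hx2 : Real.exp (k ^ 2) - 1 ≤ k ^ 2 * Real.exp 1 := by
    refine exp_sub_one_le.trans ?_
    have : Real.exp (k ^ 2) ≤ Real.exp 1 := Real.exp_le_exp.2 hk21
    exact mul_le_mul_of_nonneg_left this (by positivity)
  have hy1 : (Real.exp 36 * WW k J b) * (Real.exp (36 * k ^ 2) - 1) ≤
      36 * Real.exp 72 * k ^ 2 * WW k J b := by
    calc (Real.exp 36 * WW k J b) * (Real.exp (36 * k ^ 2) - 1)
        ≤ (Real.exp 36 * WW k J b) * (36 * k ^ 2 * Real.exp 36) :=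
          mul_le_mul_of_nonneg_left hx1 (by positivity)
      _ = 36 * (Real.exp 36 * Real.exp 36) * k ^ 2 * WW k J b := by ring
      _ = _ := by rw [← Real.exp_add]; norm_num
  have hy2 : (Real.exp C * WW k J b) * (Real.exp (k ^ 2) - 1) ≤
      Real.exp (C + 1) * k ^ 2 * WW k J b := by
    calc (Real.exp C * WW k J b) * (Real.exp (k ^ 2) - 1)
        ≤ (Real.exp C * WW k J b) * (k ^ 2 * Real.exp 1) :=
          mul_le_mul_of_nonneg_left hx2 (by positivity)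
      _ = _ := by rw [Real.exp_add]; ring
  linarith

end Pool.Agent.Q198.KZ
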