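import Pool.Agent.Q198.KZ.UG
import Pool.Agent.Q280.CD.Ff

set_option autoImplicit false

/-! Project KZ (helper276), job G1. -/

namespace Pool.Agent.Q198.KZ

open MeasureTheory Filter Finset
open Pool.Agent.Q276.CD Pool.Agent.Q276.KZ Pool.Agent.Q280.CD

lemma mul_zt_apply (f : ArithmeticFunction ℝ) (n : ℕ) : (f * zt) n = ∑ d ∈ n.divisors, f d := by
  unfold zt; exact ArithmeticFunction.coe_mul_zeta_apply

/-- the rough part does not matter -/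
lemma mul_zt_rough {f : ArithmeticFunction ℝ} {N : ℕ} (hf : ∀ n, f n ≠ 0 → n ∈ Nat.smoothNumbers N)
    {m r : ℕ} (hm : m ∈ Nat.smoothNumbers N) (hr : r ≠ 0)
    (hr' : ∀ p : ℕ, p.Prime → p ∣ r → N ≤ p) : (f * zt) (m * r) = (f * zt) m := by
  have hm0 := (sm_iff.mp hm).1
  rw [mul_zt_apply, mul_zt_apply]
  symm
  refine sum_subset (Nat.divisors_subset_of_dvd (mul_ne_zero hm0 hr) ⟨r, rfl⟩) ?_
  intro d hd hd'
  by_contra h
  apply hd'
  rw [Nat.mem_divisors] at hd ⊢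
  refine ⟨?_, hm0⟩
  have hcop : Nat.Coprime d r := by
    refine Nat.coprime_of_dvd fun p hp h1 h2 => ?_
    have := (sm_iff.mp (hf d h)).2 p hp h1
    have := hr' p hp h2
    omega
  exact hcop.dvd_of_dvd_mul_right hd.1

lemma mul_zt_abs {f : ArithmeticFunction ℝ} (hf : ∀ n, |f n| ≤ 1) (n : ℕ) : |(f * zt) n| ≤ n := by
  rw [mul_zt_apply]
  refine (abs_sum_le_sum_abs _ _).trans ((sum_le_sum fun d _ => hf d).trans ?_)
  rw [sum_const, nsmul_eq_mul, mul_one]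
  exact_mod_cast Nat.card_divisors_le_self n

/-- mean values to the right of the line -/
lemma mv_bound (hM : P_MVC) (c : ℕ → ℝ) (Y : ℕ) {T1 T2 σ : ℝ} (h12 : T1 ≤ T2) (hσ : 0 ≤ σ)
    (hc : ∀ n ∈ Icc 1 Y, |c n| ≤ 2 * n) :
    ∫ t in T1..T2, ‖Dp (fun n => ((c n : ℝ) : ℂ)) Y (cl t + (σ : ℂ))‖ ^ 2 ≤
      (T2 - T1) * ∑ n ∈ Icc 1 Y, c n ^ 2 * (n : ℝ) ^ (-(1 + 2 * σ)) + 16 * (Y : ℝ) ^ 5 := by
  have e1 : ∀ t : ℝ, Dp (fun n => ((c n : ℝ) : ℂ)) Y (cl t + (σ : ℂ)) =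
      Dp (fun n => ((c n * (n : ℝ) ^ (-σ) : ℝ) : ℂ)) Y (cl t) := by
    intro t
    unfold Dp
    refine sum_congr rfl fun n hn => ?_
    rw [mem_Icc] at hn
    have hn0 : (n : ℂ) ≠ 0 := by exact_mod_cast (by omega : n ≠ 0)
    have h1 : (n : ℂ) ^ (-(cl t + (σ : ℂ))) = (n : ℂ) ^ (-cl t) * (((n : ℝ) ^ (-σ) : ℝ) : ℂ) := by
      rw [neg_add, Complex.cpow_add _ _ hn0, Complex.ofReal_cpow (Nat.cast_nonneg n)]
      push_cast
      rfl
    rw [h1]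
    push_cast
    ring
  simp only [e1]
  have h1 := (abs_le.mp (hM (fun n => ((c n * (n : ℝ) ^ (-σ) : ℝ) : ℂ)) Y T1 T2 h12)).2
  simp only [Complex.norm_real, Real.norm_eq_abs, sq_abs] at h1
  have e2 : ∑ n ∈ Icc 1 Y, (c n * (n : ℝ) ^ (-σ)) ^ 2 / (n : ℝ) =
      ∑ n ∈ Icc 1 Y, c n ^ 2 * (n : ℝ) ^ (-(1 + 2 * σ)) := by
    refine sum_congr rfl fun n hn => ?_
    rw [mem_Icc] at hn
    have hn0 : (0 : ℝ) < n := by exact_mod_cast (by omega : 0 < n)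
    have e3 : (n : ℝ) ^ (-(1 + 2 * σ)) = ((n : ℝ) ^ (-σ)) ^ 2 / (n : ℝ) := by
      rw [← Real.rpow_natCast, ← Real.rpow_mul hn0.le, div_eq_mul_inv, ← Real.rpow_neg_one (n : ℝ),
        ← Real.rpow_add hn0]
      congr 1; push_cast; ring
    rw [e3]; ring
  rw [e2] at h1
  have hY : (0 : ℝ) ≤ Y := Nat.cast_nonneg _
  have e4 : ∑ n ∈ Icc 1 Y, |c n * (n : ℝ) ^ (-σ)| ≤ 2 * (Y : ℝ) ^ 2 := by
    have a1 : ∀ n ∈ Icc 1 Y, |c n * (n : ℝ) ^ (-σ)| ≤ 2 * (Y : ℝ) := by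
      intro n hn
      have hb := hc n hn
      rw [mem_Icc] at hn
      have hn1 : (1 : ℝ) ≤ n := by exact_mod_cast hn.1
      have hnY : (n : ℝ) ≤ Y := by exact_mod_cast hn.2
      rw [abs_mul, abs_of_nonneg (Real.rpow_nonneg (by linarith) _)]
      have a2 : (n : ℝ) ^ (-σ) ≤ 1 := Real.rpow_le_one_of_one_le_of_nonpos hn1 (by linarith)
      calc |c n| * (n : ℝ) ^ (-σ) ≤ |c n| * 1 := mul_le_mul_of_nonneg_left a2 (abs_nonneg _)
        _ ≤ _ := by linarith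
    refine (sum_le_sum a1).trans (le_of_eq ?_)
    rw [sum_const, nsmul_eq_mul, Nat.card_Icc]
    push_cast
    ring
  have e5 : 4 * (Y : ℝ) * (∑ n ∈ Icc 1 Y, |c n * (n : ℝ) ^ (-σ)|) ^ 2 ≤ 16 * (Y : ℝ) ^ 5 := by
    calc 4 * (Y : ℝ) * (∑ n ∈ Icc 1 Y, |c n * (n : ℝ) ^ (-σ)|) ^ 2 ≤
          4 * (Y : ℝ) * (2 * (Y : ℝ) ^ 2) ^ 2 :=
        mul_le_mul_of_nonneg_left (pow_le_pow_left₀ (sum_nonneg fun _ _ => abs_nonneg _) e4 2)
          (by positivity)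
      _ = _ := by ring
  linarith

/-- elementary: the saving from the shift -/
lemma shift_gain {k x : ℝ} (hk0 : 0 < k) (hk1 : k ≤ 1) (hx : 1 ≤ x) :
    Real.exp (-(10 * x ^ 2 * Real.log (2 / k))) ≤ k / x ^ 2 := by
  have h2 : Real.log 2 ≤ Real.log (2 / k) := Real.log_le_log (by norm_num) (by
    rw [le_div_iff₀ hk0]; linarith)
  have h3 := Real.log_two_gt_d9
  have hx2 : 1 ≤ x ^ 2 := one_le_pow₀ hx
  have h4 : Real.log (2 / k) + x ^ 2 ≤ 10 * x ^ 2 * Real.log (2 / k) := by nlinarith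
  have h5 : Real.exp (-(10 * x ^ 2 * Real.log (2 / k))) ≤ Real.exp (-(Real.log (2 / k) + x ^ 2)) :=
    Real.exp_le_exp.2 (by linarith)
  refine h5.trans ?_
  rw [neg_add, Real.exp_add, Real.exp_neg, Real.exp_log (by positivity), Real.exp_neg]
  have h6 : x ^ 2 ≤ Real.exp (x ^ 2) := by have := Real.add_one_le_exp (x ^ 2); linarith
  have h7 : (Real.exp (x ^ 2))⁻¹ ≤ (x ^ 2)⁻¹ := inv_anti₀ (by positivity) h6
  have h8 : (2 / k)⁻¹ ≤ k := by rw [inv_div]; linarith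
  calc (2 / k)⁻¹ * (Real.exp (x ^ 2))⁻¹ ≤ k * (x ^ 2)⁻¹ :=
        mul_le_mul h8 h7 (by positivity) hk0.le
    _ = _ := by rw [div_eq_mul_inv]

lemma exp_le_k {k : ℝ} (hk0 : 0 < k) (hk1 : k ≤ 1) : Real.exp (-(2 * 100 * Real.log (2 / k))) ≤ k := by
  have h2 : 0 ≤ Real.log (2 / k) := Real.log_nonneg (by
    rw [le_div_iff₀ hk0]; linarith)
  have h5 : Real.exp (-(2 * 100 * Real.log (2 / k))) ≤ Real.exp (-(Real.log (2 / k))) :=
    Real.exp_le_exp.2 (by linarith)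
  refine h5.trans ?_
  rw [Real.exp_neg, Real.exp_log (by positivity), inv_div]
  linarith

/-- the shift is small -/
lemma dl_small (C3 : ℝ) (hC3 : 1 ≤ C3) : ∀ᶠ T : ℝ in atTop, ∀ (k : ℝ) (K : ℕ), 0 < k → k ≤ 1 →
    Real.log T ^ (-(1 / 5) : ℝ) ≤ k → (K : ℝ) ≤ C3 / k → dl 100 T k K ≤ 1 := by
  have h1 : ∀ᶠ T : ℝ in atTop, 200 * C3 ^ 2 ≤ Real.log T ^ ((1 : ℝ) / 5) :=
    ((tendsto_rpow_atTop (by norm_num : (0:ℝ) < 1 / 5)).comp
      Real.tendsto_log_atTop).eventually_ge_atTop _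
  filter_upwards [h1, Real.tendsto_log_atTop.eventually_ge_atTop 1] with T h1 hL k K hk0 hk1 hkT hK
  have hL0 : 0 < Real.log T := by linarith
  obtain ⟨x, hx⟩ : ∃ x, x = Real.log T ^ ((1 : ℝ) / 5) := ⟨_, rfl⟩
  have hx0 : 0 < x := by rw [hx]; exact Real.rpow_pos_of_pos hL0 _
  have hx5 : x ^ 5 = Real.log T := by
    rw [hx, ← Real.rpow_natCast, ← Real.rpow_mul hL0.le]
    norm_num
  rw [← hx] at h1
  have hx1 : 1 ≤ x := by nlinarith
  have hki : 1 / k ≤ x := by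
    rw [Real.rpow_neg hL0.le, ← hx] at hkT
    rw [div_le_iff₀ hk0]
    calc (1 : ℝ) = x * x⁻¹ := by field_simp
      _ ≤ x * k := mul_le_mul_of_nonneg_left hkT hx0.le
  have hK' : (K : ℝ) ≤ C3 * x := by
    refine hK.trans ?_
    rw [div_eq_mul_one_div]
    exact mul_le_mul_of_nonneg_left hki (by linarith)
  have hlog : Real.log (2 / k) ≤ 2 * x := by
    have h2 := Real.log_le_sub_one_of_pos (show (0:ℝ) < 2 / k by positivity)
    have h3 : 2 / k = 2 * (1 / k) := by ring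
    rw [h3] at h2 ⊢
    linarith
  have hlog0 : 0 ≤ Real.log (2 / k) := Real.log_nonneg (by
    rw [le_div_iff₀ hk0]; linarith)
  unfold dl
  rw [div_le_one hL0, ← hx5]
  have hK2 : (K : ℝ) ^ 2 ≤ (C3 * x) ^ 2 := pow_le_pow_left₀ (Nat.cast_nonneg _) hK' 2
  calc 100 * (K : ℝ) ^ 2 * Real.log (2 / k) ≤ 100 * (C3 * x) ^ 2 * (2 * x) := by gcongr
    _ = (200 * C3 ^ 2) * x ^ 3 := by ring
    _ ≤ x * x ^ 3 := by gcongr
    _ ≤ x ^ 5 := by nlinarith [pow_pos hx0 4]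

/-- the small terms -/
lemma tiny_ev : ∀ᶠ T : ℝ in atTop, ∀ k : ℝ, Real.log T ^ (-(1 / 5) : ℝ) ≤ k →
    16 * (y2 T : ℝ) ^ 5 ≤ k * T := by
  have h1 : ∀ᶠ x : ℝ in atTop, ‖Real.log x‖ ≤ 1 * ‖x ^ ((1:ℝ) / 4)‖ :=
    (isLittleO_log_rpow_atTop (by norm_num : (0:ℝ) < 1 / 4)).bound one_pos
  filter_upwards [h1, Real.tendsto_log_atTop.eventually_ge_atTop 1, eventually_ge_atTop 4,
    ev_pow (1 / 4) (3 / 4) 16 (by norm_num)] with T h1 hL hT h16 k hk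
  have hT0 : 0 < T := by linarith
  have hL0 : 0 < Real.log T := by linarith
  rw [one_mul, Real.norm_of_nonneg hL0.le, Real.norm_of_nonneg (Real.rpow_nonneg hT0.le _)] at h1
  have h2 : (Real.log T)⁻¹ ≤ k := by
    refine le_trans ?_ hk
    rw [← Real.rpow_neg_one]
    exact Real.rpow_le_rpow_of_exponent_le hL (by norm_num)
  have h3 : T ^ ((3 : ℝ) / 4) ≤ k * T := by
    have h4 : (T ^ ((1:ℝ) / 4))⁻¹ ≤ k := (inv_anti₀ hL0 h1).trans h2
    have h5 : T ^ ((3 : ℝ) / 4) = (T ^ ((1:ℝ) / 4))⁻¹ * T := by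
      rw [← Real.rpow_neg hT0.le]
      nth_rewrite 3 [← Real.rpow_one T]
      rw [← Real.rpow_add hT0]
      norm_num
    rw [h5]
    exact mul_le_mul_of_nonneg_right h4 hT0.le
  refine le_trans ?_ (h16.trans h3)
  have h6 := pow_le_pow_left₀ (Nat.cast_nonneg _) (y2_le hT0.le) 5
  rw [← Real.rpow_natCast (T ^ ((1:ℝ) / 20)) 5, ← Real.rpow_mul hT0.le] at h6
  norm_num at h6 ⊢
  linarith

theorem t_G1 (hM : P_MVC) (hSH : P_SH) (hZN : P_ZN) (hFN : P_FNG) (hUX : P_UX) (hUG : P_UG) (hRS : P_RS)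
    (hRG : P_RG) (hD1 : P_D1) (hPRM : P_PRM) (hFA : P_FA) : P_G1 := by
  classical
  obtain ⟨e1, he1, hUX⟩ := hUX
  obtain ⟨e2, he2, hUG⟩ := hUG
  obtain ⟨e3, he3, hD1⟩ := hD1
  obtain ⟨CR, hCR, hRG⟩ := hRG
  obtain ⟨Cz, hCz, hZN⟩ := hZN
  refine ⟨min (min e1 e2) (min e3 (1 / 100)), lt_min (lt_min he1 he2) (lt_min he3 (by norm_num)),
    100, by norm_num, fun e he hle C3 hC3 => ?_⟩
  obtain ⟨CX, hCX, hUX⟩ := hUX e he (hle.trans ((min_le_left _ _).trans (min_le_left _ _))) C3 hC3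
  obtain ⟨CG, hCG, hUG⟩ := hUG e he (hle.trans ((min_le_left _ _).trans (min_le_right _ _))) C3 hC3
  obtain ⟨CD, hCD, hD1⟩ := hD1 e he (hle.trans ((min_le_right _ _).trans (min_le_left _ _))) C3 hC3
  have hle100 : e ≤ 1 / 100 := hle.trans ((min_le_right _ _).trans (min_le_right _ _))
  refine ⟨2 * (4 * CX + 16 * CG * CR + 5) + 2 * (4 * (CD + CG * CR) + 1), by positivity, ?_⟩
  filter_upwards [hUX, hUG, hD1, hFN, dl_small C3 hC3, tiny_ev, eventually_ge_atTop 4,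
    ev_pow (1 / 10) 1 (16 * Cz ^ 2) (by norm_num), ev_pow (1 / 2) 1 20 (by norm_num),
    Real.tendsto_log_atTop.eventually_ge_atTop 1] with T hUX hUG hD1 hFN hdl htiny hT hp1 hp2 hL1
    k J K b hS
  have hUX := (hUX k J K b hS).2
  have hUG := (hUG k J K b hS).2
  obtain ⟨hD1a, hD1b⟩ := hD1 k J K b hS
  have hT0 : 0 < T := by linarith
  have hT1 : 1 ≤ T := by linarith
  have hL0 : 0 < Real.log T := by linarith
  rw [Real.rpow_one] at hp1 hp2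
  have hk0 := hS.k0
  have hk1 := hS.k1
  have hΔ1 := hdl k (K J) hk0 hk1 hS.kT hS.KJ
  have hti := htiny k hS.kT
  -- basic quantities
  have hKJ1 : (1 : ℝ) ≤ K J := by
    have h1 := hS.big J le_rfl
    have h2 : (1 : ℝ) ≤ 1 / e := by rw [le_div_iff₀ he]; linarith
    linarith
  have hKJn : 1 ≤ K J := by exact_mod_cast hKJ1
  have hlog2 : 0 < Real.log (2 / k) := Real.log_pos (by rw [lt_div_iff₀ hk0]; linarith)
  have hlog21 : Real.log 2 ≤ Real.log (2 / k) := Real.log_le_log (by norm_num) (by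
    rw [le_div_iff₀ hk0]; linarith)
  have hl2 := Real.log_two_gt_d9
  obtain ⟨W, hW⟩ : ∃ W, W = WW k J b := ⟨_, rfl⟩
  obtain ⟨N, hN⟩ : ∃ N, N = b (J + 1) := ⟨_, rfl⟩
  obtain ⟨Δ, hΔ⟩ : ∃ Δ, Δ = dl 100 T k (K J) := ⟨_, rfl⟩
  rw [← hW] at hUX hUG hD1b ⊢
  rw [← hN] at hUG hD1b hD1a
  rw [← hΔ] at hΔ1 ⊢
  have hW1 : 1 ≤ W := by
    rw [hW]; unfold WW
    exact Real.one_le_exp (mul_nonneg (sq_nonneg _) (R1_nonneg _))
  have hΔL : Δ * Real.log T = 100 * (K J : ℝ) ^ 2 * Real.log (2 / k) := by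
    rw [hΔ]; unfold dl; field_simp
  have hΔ0 : 0 < Δ := by rw [hΔ]; unfold dl; positivity
  have hb2 : ∀ j ≤ J + 1, 2 ≤ b j := fun j hj => hS.b0.trans (b_mono hS.mono (Nat.zero_le j) hj)
  have hN2 : 2 ≤ N := by rw [hN]; exact hb2 _ le_rfl
  have hNr : (1 : ℝ) ≤ N := by exact_mod_cast (by omega : 1 ≤ N)
  have hlogN0 : 0 < Real.log N := Real.log_pos (by exact_mod_cast (by omega : 1 < N))
  have hTe : T ^ e ≤ T ^ ((1 : ℝ) / 20) := Real.rpow_le_rpow_of_exponent_le hT1 (by linarith)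
  have hlen : 4 ^ b 0 * ∏ j ∈ range (J + 1), b (j + 1) ^ (2 * K j) ≤ y2 T :=
    Nat.le_floor (hS.len.trans hTe)
  have hprod : ∏ j ∈ range (J + 1), b (j + 1) ^ K j ≤ ∏ j ∈ range (J + 1), b (j + 1) ^ (2 * K j) :=
    prod_le_prod' fun j hj => Nat.pow_le_pow_right (by
      have := hb2 (j + 1) (by rw [mem_range] at hj; omega); omega) (by omega)
  have hY : 4 ^ b 0 * ∏ j ∈ range (J + 1), b (j + 1) ^ K j ≤ y2 T :=
    (Nat.mul_le_mul_left _ hprod).trans hlen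
  have hNY : N ≤ y2 T := by
    refine le_trans ?_ hlen
    have a1 : N ≤ b (J + 1) ^ (2 * K J) := by
      rw [hN]
      calc b (J + 1) = b (J + 1) ^ 1 := (pow_one _).symm
        _ ≤ _ := Nat.pow_le_pow_right (by rw [← hN]; omega) (by omega)
    have a2 : b (J + 1) ^ (2 * K J) ∣ ∏ j ∈ range (J + 1), b (j + 1) ^ (2 * K j) :=
      dvd_prod_of_mem (fun j => b (j + 1) ^ (2 * K j)) (mem_range.2 (Nat.lt_succ_self J))
    have a3 : 0 < ∏ j ∈ range (J + 1), b (j + 1) ^ (2 * K j) := prod_pos fun j hj => by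
      have := hb2 (j + 1) (by rw [mem_range] at hj; omega)
      positivity
    have a4 : 1 ≤ 4 ^ b 0 := Nat.one_le_pow _ _ (by norm_num)
    calc N ≤ _ := a1
      _ ≤ _ := Nat.le_of_dvd a3 a2
      _ ≤ _ := Nat.le_mul_of_pos_left _ (by omega)
  -- the coefficients
  obtain ⟨f, hf⟩ : ∃ f, f = mu0 (b 0) * fQ b J (QE (k - 1) K) := ⟨_, rfl⟩
  obtain ⟨a, ha⟩ : ∃ a, a = fQ b J (QE k K) := ⟨_, rfl⟩
  rw [← hf] at hUX hUG hD1a hD1b ⊢
  rw [← ha] at hD1a hD1b ⊢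
  obtain ⟨hpf, -, -, -⟩ := hPRM b J (QE (k - 1) K) K (y2 T) (by have := hS.b0; omega) hS.mono
    (fun j _ m hm => by unfold QE; rw [if_neg (by omega)]) hY
  obtain ⟨-, hpa, -, -⟩ := hPRM b J (QE k K) K (y2 T) (by have := hS.b0; omega) hS.mono
    (fun j _ m hm => by unfold QE; rw [if_neg (by omega)]) hY
  rw [← hf, ← hN] at hpf
  rw [← ha, ← hN] at hpa
  have hf1 : ∀ n, |f n| ≤ 1 := fun n => by
    rw [hf]; exact (hFA b J K (k - 1) (by rw [abs_le]; constructor <;> linarith) n).2.2.2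
  have ha1 : ∀ n, |a n| ≤ 1 := fun n => by
    rw [ha]; exact (hFA b J K k (by rw [abs_le]; constructor <;> linarith) n).2.2.1
  have hfY : ∀ n, f n ≠ 0 → n ≤ y2 T := fun n hn => (hpf n hn).1.trans hY
  have hfs : ∀ n, f n ≠ 0 → n ∈ Nat.smoothNumbers N := fun n hn => (hpf n hn).2
  have has : ∀ n, a n ≠ 0 → n ∈ Nat.smoothNumbers N := fun n hn => (hpa n hn).2
  have hg1 : ∀ n, |(f * zt) n| ≤ n := mul_zt_abs hf1
  -- sum of the coefficients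
  have hfsum : ∑ n ∈ Icc 1 (y2 T), |f n| ≤ T ^ ((1 : ℝ) / 20) := by
    refine (sum_le_sum fun n _ => hf1 n).trans ?_
    rw [sum_const, nsmul_eq_mul, mul_one, Nat.card_Icc]
    exact (by simpa using y2_le hT0.le)
  obtain ⟨h, hh1, hh2, hh3⟩ := hFN f hfY hfsum
  -- the mean square of the coefficients
  obtain ⟨G, hG⟩ : ∃ G : ℕ → ℝ, G = fun n => (f * zt) n ^ 2 := ⟨_, rfl⟩
  have hG0 : ∀ n, 0 ≤ G n := fun n => by rw [hG]; exact sq_nonneg _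
  have hGx : ∀ n ∈ Nat.smoothNumbers N, G n ≤ (f * zt) n ^ 2 * (n : ℝ) ^ (1 / Real.log T) := by
    intro n hn
    have hn0 := (sm_iff.mp hn).1
    rw [hG]
    refine le_mul_of_one_le_right (sq_nonneg _) (Real.one_le_rpow ?_ (by positivity))
    exact_mod_cast Nat.one_le_iff_ne_zero.mpr hn0
  have hGSb : Sb N G := Sb_of_le hUG.1 fun n hn => by rw [abs_of_nonneg (hG0 n)]; exact hGx n hn
  have hGSS : SS N G ≤ CG * W := (SS_le hGSb hUG.1 hGx).trans hUG.2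
  have hGSS0 : 0 ≤ SS N G := SS_nonneg fun n _ => hG0 n
  have hGinv : ∀ m r : ℕ, m ∈ Nat.smoothNumbers N → r ≠ 0 → (∀ p : ℕ, p.Prime → p ∣ r → N ≤ p) →
      G (m * r) = G m := by
    intro m r hm hr hr'
    rw [hG]
    show (f * zt) (m * r) ^ 2 = (f * zt) m ^ 2
    rw [mul_zt_rough hfs hm hr hr']
  obtain ⟨hR1, hR2⟩ := hRG N (y2 T) hN2 hNY
  have hlogY : Real.log (y2 T) ≤ Real.log T := by
    have h1 : 1 ≤ y2 T := one_le_y2 hT1
    refine Real.log_le_log (by exact_mod_cast h1) ((y2_le hT0.le).trans ?_)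
    calc T ^ ((1:ℝ) / 20) ≤ T ^ (1:ℝ) := Real.rpow_le_rpow_of_exponent_le hT1 (by norm_num)
      _ = T := Real.rpow_one T
  have hlogN : Real.log T ≤ (K J : ℝ) ^ 2 * Real.log N := by
    have h1 := hS.top
    rw [← hN, div_le_iff₀ (by positivity)] at h1
    linarith
  have hsum0 : ∑ n ∈ Icc 1 (y2 T), (f * zt) n ^ 2 * (n : ℝ) ^ (-(1 + 2 * (0 : ℝ))) ≤
      CG * CR * (K J : ℝ) ^ 2 * W := by
    have h1 := (hRS N (y2 T) 0 G le_rfl hG0 hGSb hGinv).1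
    have h2 : ∑ r ∈ rgh N 1 (y2 T), (r : ℝ) ^ (-(1 + (0 : ℝ))) ≤ CR * (K J : ℝ) ^ 2 := by
      have h3 : ∑ r ∈ rgh N 1 (y2 T), (r : ℝ) ^ (-(1 + (0 : ℝ))) = ∑ r ∈ rgh N 1 (y2 T), 1 / (r : ℝ) := by
        refine sum_congr rfl fun r _ => ?_
        rw [add_zero, Real.rpow_neg_one, one_div]
      rw [h3]
      refine hR1.trans ?_
      rw [mul_div_assoc]
      refine mul_le_mul_of_nonneg_left ?_ hCR.le
      rw [div_le_iff₀ hlogN0]
      exact hlogY.trans hlogN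
    have h4 : ∑ n ∈ Icc 1 (y2 T), (f * zt) n ^ 2 * (n : ℝ) ^ (-(1 + 2 * (0 : ℝ))) =
        ∑ n ∈ Icc 1 (y2 T), G n * (n : ℝ) ^ (-(1 + (0 : ℝ))) := by
      rw [hG, mul_zero]
    rw [h4]
    refine h1.trans ?_
    calc SS N G * ∑ r ∈ rgh N 1 (y2 T), (r : ℝ) ^ (-(1 + (0 : ℝ))) ≤
          (CG * W) * (CR * (K J : ℝ) ^ 2) :=
        mul_le_mul hGSS h2 (sum_nonneg fun r _ => Real.rpow_nonneg (Nat.cast_nonneg _) _)
          (by positivity)
      _ = _ := by ring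
  have hDL : ∫ t in (T / 4)..(8 * T), ‖Dr (f * zt) (y2 T) (cl t)‖ ^ 2 ≤
      8 * CG * CR * ((K J : ℝ) ^ 2 * (T * W)) + T := by
    have h1 := mv_bound hM (fun n => (f * zt) n) (y2 T) (T1 := T / 4) (T2 := 8 * T) (σ := 0)
      (by linarith) le_rfl (fun n _ => (hg1 n).trans (by
        have : (0 : ℝ) ≤ n := Nat.cast_nonneg _
        linarith))
    have h2 : ∫ t in (T / 4)..(8 * T), ‖Dr (f * zt) (y2 T) (cl t)‖ ^ 2 =
        ∫ t in (T / 4)..(8 * T), ‖Dp (fun n => (((f * zt) n : ℝ) : ℂ)) (y2 T) (cl t + ((0 : ℝ) : ℂ))‖ ^ 2 := by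
      simp only [Complex.ofReal_zero, add_zero]
      rfl
    rw [h2]
    refine h1.trans ?_
    have h3 : 16 * (y2 T : ℝ) ^ 5 ≤ T := hti.trans (by nlinarith)
    have h4 : (8 * T - T / 4) * ∑ n ∈ Icc 1 (y2 T), (f * zt) n ^ 2 * (n : ℝ) ^ (-(1 + 2 * (0 : ℝ))) ≤
        (8 * T) * (CG * CR * (K J : ℝ) ^ 2 * W) :=
      mul_le_mul (by linarith) hsum0 (sum_nonneg fun n _ =>
        mul_nonneg (sq_nonneg _) (Real.rpow_nonneg (Nat.cast_nonneg _) _)) (by linarith)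
    calc _ ≤ (8 * T) * (CG * CR * (K J : ℝ) ^ 2 * W) + T := add_le_add h4 h3
      _ = _ := by ring
  -- the product on the line
  have hcf : Continuous fun t : ℝ => Dr f (y2 T) (cl t) := (cont_Dr _ _).comp cont_cl
  have hcZ : Continuous fun t : ℝ => ZZ T (cl t) := (cont_Dp _ _).comp cont_cl
  have hFsq : ∀ t ∈ Set.Icc (T / 4) (8 * T), ‖ZZ T (cl t) * Dr f (y2 T) (cl t)‖ ^ 2 ≤
      2 * (‖riemannZeta (cl t)‖ ^ 2 * ‖Dr f (y2 T) (cl t)‖ ^ 2) + 2 * Cz ^ 2 * T ^ (-(9:ℝ) / 10) := by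
    intro t ht
    have e1 : ZZ T (cl t) * Dr f (y2 T) (cl t) = (riemannZeta (cl t) - (riemannZeta (cl t) - ZZ T (cl t))) *
        Dr f (y2 T) (cl t) := by ring
    have h1 := hZN T hT t ht
    have h2 := norm_sq_sub_le (riemannZeta (cl t)) (riemannZeta (cl t) - ZZ T (cl t))
    have h3 : ‖riemannZeta (cl t) - ZZ T (cl t)‖ ^ 2 ≤ Cz ^ 2 * T ^ (-(1:ℝ)) := by
      have h4 := pow_le_pow_left₀ (norm_nonneg _) h1 2
      rw [mul_pow, ← Real.rpow_natCast (T ^ (-(1:ℝ) / 2)) 2, ← Real.rpow_mul hT0.le] at h4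
      norm_num at h4 ⊢
      exact h4
    have h6 : ‖Dr f (y2 T) (cl t)‖ ^ 2 ≤ T ^ ((1:ℝ) / 10) := by
      have h4 := pow_le_pow_left₀ (norm_nonneg _)
        ((norm_Dr_cl_le f (y2 T) hf1 t).trans (y2_le hT0.le)) 2
      rw [← Real.rpow_natCast (T ^ ((1:ℝ) / 20)) 2, ← Real.rpow_mul hT0.le] at h4
      norm_num at h4 ⊢
      exact h4
    rw [e1, norm_mul, mul_pow]
    have h7 : 0 ≤ ‖Dr f (y2 T) (cl t)‖ ^ 2 := sq_nonneg _
    calc ‖riemannZeta (cl t) - (riemannZeta (cl t) - ZZ T (cl t))‖ ^ 2 * ‖Dr f (y2 T) (cl t)‖ ^ 2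
        ≤ (2 * ‖riemannZeta (cl t)‖ ^ 2 + 2 * ‖riemannZeta (cl t) - ZZ T (cl t)‖ ^ 2) *
          ‖Dr f (y2 T) (cl t)‖ ^ 2 := mul_le_mul_of_nonneg_right h2 h7
      _ = 2 * (‖riemannZeta (cl t)‖ ^ 2 * ‖Dr f (y2 T) (cl t)‖ ^ 2) +
          2 * (‖riemannZeta (cl t) - ZZ T (cl t)‖ ^ 2 * ‖Dr f (y2 T) (cl t)‖ ^ 2) := by ring
      _ ≤ 2 * (‖riemannZeta (cl t)‖ ^ 2 * ‖Dr f (y2 T) (cl t)‖ ^ 2) +
          2 * ((Cz ^ 2 * T ^ (-(1:ℝ))) * T ^ ((1:ℝ) / 10)) := by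
          gcongr
      _ = _ := by
          rw [mul_assoc (Cz ^ 2), ← Real.rpow_add hT0]
          norm_num
          ring
  have hle' : T / 4 ≤ 8 * T := by linarith
  have hcG : Continuous fun t : ℝ => ‖ZZ T (cl t) * Dr f (y2 T) (cl t)‖ ^ 2 := (hcZ.mul hcf).norm.pow 2
  have hc2 : Continuous fun t : ℝ => ‖riemannZeta (cl t)‖ ^ 2 * ‖Dr f (y2 T) (cl t)‖ ^ 2 :=
    (cont_zeta.norm.pow 2).mul (hcf.norm.pow 2)
  have hc3 : Continuous fun t : ℝ => 2 * (‖riemannZeta (cl t)‖ ^ 2 * ‖Dr f (y2 T) (cl t)‖ ^ 2) :=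
    continuous_const.mul hc2
  have hFi : ∫ t in (T / 4)..(8 * T), ‖ZZ T (cl t) * Dr f (y2 T) (cl t)‖ ^ 2 ≤
      2 * (CX * (K J : ℝ) ^ 2 * (T * W)) + T := by
    have h8 : ∫ t in (T / 4)..(8 * T), ‖ZZ T (cl t) * Dr f (y2 T) (cl t)‖ ^ 2 ≤
        ∫ t in (T / 4)..(8 * T), (2 * (‖riemannZeta (cl t)‖ ^ 2 * ‖Dr f (y2 T) (cl t)‖ ^ 2) +
          2 * Cz ^ 2 * T ^ (-(9:ℝ) / 10)) :=
      intervalIntegral.integral_mono_on hle' (hcG.intervalIntegrable _ _)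
        ((hc3.add continuous_const).intervalIntegrable _ _) hFsq
    rw [intervalIntegral.integral_add (hc3.intervalIntegrable _ _)
      (continuous_const.intervalIntegrable _ _), intervalIntegral.integral_const_mul,
      intervalIntegral.integral_const, smul_eq_mul] at h8
    have h9 : (8 * T - T / 4) * (2 * Cz ^ 2 * T ^ (-(9:ℝ) / 10)) ≤ 16 * Cz ^ 2 * T ^ ((1:ℝ) / 10) := by
      have e2 : T * T ^ (-(9:ℝ) / 10) = T ^ ((1:ℝ) / 10) := by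
        nth_rewrite 1 [← Real.rpow_one T]
        rw [← Real.rpow_add hT0]
        norm_num
      have e3 : 0 ≤ T ^ (-(9:ℝ) / 10) := Real.rpow_nonneg hT0.le _
      calc (8 * T - T / 4) * (2 * Cz ^ 2 * T ^ (-(9:ℝ) / 10))
          ≤ (8 * T) * (2 * Cz ^ 2 * T ^ (-(9:ℝ) / 10)) := by
            apply mul_le_mul_of_nonneg_right (by linarith); positivity
        _ = 16 * Cz ^ 2 * (T * T ^ (-(9:ℝ) / 10)) := by ring
        _ = _ := by rw [e2]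
    linarith
  -- the first part
  have hS0 : T ≤ (K J : ℝ) ^ 2 * (T * W) := by
    have h1 : 1 ≤ (K J : ℝ) ^ 2 * W := by
      have := one_le_pow₀ hKJ1 (n := 2)
      nlinarith
    nlinarith
  have hcD : Continuous fun t : ℝ => Dr (f * zt) (y2 T) (cl t) := (cont_Dr _ _).comp cont_cl
  have hH : ∫ u in (T / 4)..(8 * T), ‖ZZ T (cl u) * Dr f (y2 T) (cl u) - Dr (f * zt) (y2 T) (cl u)‖ ^ 2 ≤
      2 * (∫ u in (T / 4)..(8 * T), ‖ZZ T (cl u) * Dr f (y2 T) (cl u)‖ ^ 2) +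
        2 * (∫ u in (T / 4)..(8 * T), ‖Dr (f * zt) (y2 T) (cl u)‖ ^ 2) := by
    have c1 : Continuous fun t : ℝ => 2 * ‖ZZ T (cl t) * Dr f (y2 T) (cl t)‖ ^ 2 := continuous_const.mul hcG
    have c2 : Continuous fun t : ℝ => 2 * ‖Dr (f * zt) (y2 T) (cl t)‖ ^ 2 :=
      continuous_const.mul (hcD.norm.pow 2)
    rw [← intervalIntegral.integral_const_mul, ← intervalIntegral.integral_const_mul,
      ← intervalIntegral.integral_add (c1.intervalIntegrable _ _) (c2.intervalIntegrable _ _)]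
    exact intervalIntegral.integral_mono_on (by linarith)
      ((((hcZ.mul hcf).sub hcD).norm.pow 2).intervalIntegrable _ _)
      ((c1.add c2).intervalIntegrable _ _) fun t _ => norm_sq_sub_le _ _
  have hY1 : y2 T + 1 ≤ NN T * y2 T := by
    have h1 := one_le_y2 hT1
    have h2 : 2 ≤ NN T := by
      unfold NN
      have h : (2:ℝ) ≤ (⌈8 * T⌉₊ : ℝ) := le_trans (by linarith) (Nat.le_ceil (8 * T))
      exact_mod_cast h
    nlinarith [Nat.mul_le_mul h2 (le_refl (y2 T))]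
  have hgrow : ∀ t ∈ Set.Icc (T / 2) (4 * T), ∀ R : ℝ, T / 4 ≤ R →
      ∫ u in (t - R)..(t + R), ‖Dp (fun n => if n ≤ y2 T then 0 else h n) (NN T * y2 T) (cl u)‖ ^ 2 ≤
        T ^ ((1:ℝ) / 2) * R := by
    intro t ht R hR
    have := hh3 t ht R hR
    simpa only [hh2] using this
  have hs1 := (hSH (fun n => if n ≤ y2 T then 0 else h n) (y2 T + 1) (NN T * y2 T) T Δ hT (by omega) hY1
    (fun n hn => if_pos (by omega)) hΔ0 hΔ1 hgrow).1
  simp only [← hh2] at hs1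
  have hy : ((y2 T + 1 : ℕ) : ℝ) ^ (-(2 * Δ)) ≤ k / (K J : ℝ) ^ 2 := by
    have e1 : T ^ ((1:ℝ) / 20) ≤ ((y2 T + 1 : ℕ) : ℝ) := by
      push_cast
      exact y2_lt.le
    have e2 : 0 < T ^ ((1:ℝ) / 20) := Real.rpow_pos_of_pos hT0 _
    refine (Real.rpow_le_rpow_of_nonpos e2 e1 (by linarith)).trans ?_
    rw [← Real.rpow_mul hT0.le, Real.rpow_def_of_pos hT0]
    have e3 : Real.log T * (1 / 20 * -(2 * Δ)) = -(10 * (K J : ℝ) ^ 2 * Real.log (2 / k)) := by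
      linear_combination (-1 / 10) * hΔL
    rw [e3]
    exact shift_gain hk0 hk1 hKJ1
  have hKJp : (0 : ℝ) < (K J : ℝ) ^ 2 := by positivity
  have hs2 : ∫ t in (T / 2)..(4 * T), ‖ZZ T (cl t + (Δ : ℂ)) * Dr f (y2 T) (cl t + (Δ : ℂ)) -
      Dr (f * zt) (y2 T) (cl t + (Δ : ℂ))‖ ^ 2 ≤ (4 * CX + 16 * CG * CR + 5) * k * (T * W) := by
    refine hs1.trans ?_
    have h1 : (∫ u in (T / 4)..(8 * T), ‖ZZ T (cl u) * Dr f (y2 T) (cl u) - Dr (f * zt) (y2 T) (cl u)‖ ^ 2) +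
        20 * T ^ ((1:ℝ) / 2) ≤ (4 * CX + 16 * CG * CR + 5) * ((K J : ℝ) ^ 2 * (T * W)) := by
      linarith
    have h2 : 0 ≤ (∫ u in (T / 4)..(8 * T), ‖ZZ T (cl u) * Dr f (y2 T) (cl u) -
        Dr (f * zt) (y2 T) (cl u)‖ ^ 2) + 20 * T ^ ((1:ℝ) / 2) := by
      have : 0 ≤ ∫ u in (T / 4)..(8 * T), ‖ZZ T (cl u) * Dr f (y2 T) (cl u) -
          Dr (f * zt) (y2 T) (cl u)‖ ^ 2 :=
        intervalIntegral.integral_nonneg (by linarith) fun _ _ => sq_nonneg _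
      positivity
    refine (mul_le_mul hy h1 h2 (by positivity)).trans (le_of_eq ?_)
    field_simp
  -- the second part
  have hns : ∑ n ∈ nsm N (y2 T), ((f * zt) n - a n) ^ 2 * (n : ℝ) ^ (-(1 + 2 * Δ)) ≤
      CG * CR * k * W := by
    have h1 := (hRS N (y2 T) (2 * Δ) G (by positivity) hG0 hGSb hGinv).2
    have hδ : 2 * Δ * Real.log N ≥ 2 * 100 * Real.log (2 / k) := by
      have a1 : 100 * (K J : ℝ) ^ 2 * Real.log (2 / k) ≤ Δ * ((K J : ℝ) ^ 2 * Real.log N) := by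
        rw [← hΔL]; exact mul_le_mul_of_nonneg_left hlogN hΔ0.le
      have a2 : (K J : ℝ) ^ 2 * (100 * Real.log (2 / k)) ≤ (K J : ℝ) ^ 2 * (Δ * Real.log N) := by
        linarith
      have a3 := le_of_mul_le_mul_left a2 hKJp
      linarith
    have h2 := hR2 (2 * Δ) (by positivity) (by linarith) (by linarith)
    have h3 : Real.exp (-(2 * Δ * Real.log N)) ≤ k :=
      (Real.exp_le_exp.2 (by linarith)).trans (exp_le_k hk0 hk1)
    have h4 : ∑ n ∈ nsm N (y2 T), ((f * zt) n - a n) ^ 2 * (n : ℝ) ^ (-(1 + 2 * Δ)) =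
        ∑ n ∈ nsm N (y2 T), G n * (n : ℝ) ^ (-(1 + 2 * Δ)) := by
      refine sum_congr rfl fun n hn => ?_
      have hn' : n ∉ Nat.smoothNumbers N := by
        unfold nsm at hn; exact (mem_filter.mp hn).2
      have : a n = 0 := by
        by_contra hc; exact hn' (has n hc)
      rw [this, sub_zero, hG]
    rw [h4]
    refine h1.trans ?_
    calc SS N G * ∑ r ∈ rgh N 2 (y2 T), (r : ℝ) ^ (-(1 + 2 * Δ)) ≤ (CG * W) * (CR * k) := by
          refine mul_le_mul hGSS (h2.trans (mul_le_mul_of_nonneg_left h3 hCR.le))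
            (sum_nonneg fun r _ => Real.rpow_nonneg (Nat.cast_nonneg _) _) (by positivity)
      _ = _ := by ring
  have hsm : ∑ n ∈ (Icc 1 (y2 T)).filter (fun n => n ∈ Nat.smoothNumbers N),
      ((f * zt) n - a n) ^ 2 * (n : ℝ) ^ (-(1 + 2 * Δ)) ≤ CD * k ^ 2 * W := by
    refine le_trans ?_ hD1b
    refine le_trans (sum_le_sum (fun n hn => ?_)) (fin_le_SS hD1a (fun n _ => sq_nonneg _)
      (F := (Icc 1 (y2 T)).filter (fun n => n ∈ Nat.smoothNumbers N)) fun n hn => (mem_filter.mp hn).2)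
    rw [mem_filter, mem_Icc] at hn
    have hn1 : (1 : ℝ) ≤ n := by exact_mod_cast hn.1.1
    rw [div_eq_mul_inv, ← Real.rpow_neg_one]
    exact mul_le_mul_of_nonneg_left (Real.rpow_le_rpow_of_exponent_le hn1 (by linarith)) (sq_nonneg _)
  have hall : ∑ n ∈ Icc 1 (y2 T), ((f * zt) n - a n) ^ 2 * (n : ℝ) ^ (-(1 + 2 * Δ)) ≤
      (CD + CG * CR) * k * W := by
    rw [← sum_filter_add_sum_filter_not (Icc 1 (y2 T)) (fun n => n ∈ Nat.smoothNumbers N)]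
    have h1 : ∑ n ∈ (Icc 1 (y2 T)).filter (fun n => ¬ n ∈ Nat.smoothNumbers N),
        ((f * zt) n - a n) ^ 2 * (n : ℝ) ^ (-(1 + 2 * Δ)) =
        ∑ n ∈ nsm N (y2 T), ((f * zt) n - a n) ^ 2 * (n : ℝ) ^ (-(1 + 2 * Δ)) := by
      refine sum_congr ?_ fun _ _ => rfl
      unfold nsm
      ext n
      simp only [mem_filter]
    rw [h1]
    have h2 : CD * k ^ 2 * W ≤ CD * k * W := by
      have : k ^ 2 ≤ k := by nlinarith
      gcongr
    calc _ ≤ CD * k ^ 2 * W + CG * CR * k * W := add_le_add hsm hns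
      _ ≤ CD * k * W + CG * CR * k * W := by linarith
      _ = _ := by ring
  have hs3 : ∫ t in (T / 2)..(4 * T), ‖Dr (f * zt) (y2 T) (cl t + (Δ : ℂ)) - Dr a (y2 T) (cl t + (Δ : ℂ))‖ ^ 2 ≤
      (4 * (CD + CG * CR) + 1) * k * (T * W) := by
    have h1 := mv_bound hM (fun n => (f * zt) n - a n) (y2 T) (T1 := T / 2) (T2 := 4 * T) (σ := Δ)
      (by linarith) hΔ0.le (fun n hn => by
        rw [mem_Icc] at hn
        have h2 : (1 : ℝ) ≤ n := by exact_mod_cast hn.1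
        refine (abs_sub _ _).trans ?_
        linarith [hg1 n, ha1 n])
    have h2 : ∀ s : ℂ, Dr (f * zt) (y2 T) s - Dr a (y2 T) s =
        Dp (fun n => (((f * zt) n - a n : ℝ) : ℂ)) (y2 T) s := by
      intro s
      unfold Dr Dp
      rw [← sum_sub_distrib]
      refine sum_congr rfl fun n _ => ?_
      push_cast; ring
    simp only [h2]
    refine h1.trans ?_
    have h4 : (4 * T - T / 2) * ∑ n ∈ Icc 1 (y2 T), ((f * zt) n - a n) ^ 2 * (n : ℝ) ^ (-(1 + 2 * Δ)) ≤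
        (4 * T) * ((CD + CG * CR) * k * W) :=
      mul_le_mul (by linarith) hall (sum_nonneg fun n _ =>
        mul_nonneg (sq_nonneg _) (Real.rpow_nonneg (Nat.cast_nonneg _) _)) (by linarith)
    have h5 : k * T ≤ k * (T * W) := mul_le_mul_of_nonneg_left (by nlinarith) hk0.le
    calc _ ≤ (4 * T) * ((CD + CG * CR) * k * W) + k * (T * W) := add_le_add h4 (hti.trans h5)
      _ = _ := by ring
  -- conclusion
  have hcs : Continuous fun t : ℝ => cl t + (Δ : ℂ) := cont_cl.add continuous_const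
  have hcF2 : Continuous fun t : ℝ => ZZ T (cl t + (Δ : ℂ)) * Dr f (y2 T) (cl t + (Δ : ℂ)) :=
    ((cont_Dp _ _).comp hcs).mul ((cont_Dr _ _).comp hcs)
  have hcD2 : Continuous fun t : ℝ => Dr (f * zt) (y2 T) (cl t + (Δ : ℂ)) := (cont_Dr _ _).comp hcs
  have hcA2 : Continuous fun t : ℝ => Dr a (y2 T) (cl t + (Δ : ℂ)) := (cont_Dr _ _).comp hcs
  have hfin : ∫ t in (T / 2)..(4 * T), ‖ZZ T (cl t + (Δ : ℂ)) * Dr f (y2 T) (cl t + (Δ : ℂ)) -
      Dr a (y2 T) (cl t + (Δ : ℂ))‖ ^ 2 ≤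
      2 * (∫ t in (T / 2)..(4 * T), ‖ZZ T (cl t + (Δ : ℂ)) * Dr f (y2 T) (cl t + (Δ : ℂ)) -
        Dr (f * zt) (y2 T) (cl t + (Δ : ℂ))‖ ^ 2) +
      2 * (∫ t in (T / 2)..(4 * T), ‖Dr (f * zt) (y2 T) (cl t + (Δ : ℂ)) -
        Dr a (y2 T) (cl t + (Δ : ℂ))‖ ^ 2) := by
    have c1 : Continuous fun t : ℝ => 2 * ‖ZZ T (cl t + (Δ : ℂ)) * Dr f (y2 T) (cl t + (Δ : ℂ)) -
        Dr (f * zt) (y2 T) (cl t + (Δ : ℂ))‖ ^ 2 := continuous_const.mul ((hcF2.sub hcD2).norm.pow 2)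
    have c2 : Continuous fun t : ℝ => 2 * ‖Dr (f * zt) (y2 T) (cl t + (Δ : ℂ)) -
        Dr a (y2 T) (cl t + (Δ : ℂ))‖ ^ 2 := continuous_const.mul ((hcD2.sub hcA2).norm.pow 2)
    rw [← intervalIntegral.integral_const_mul, ← intervalIntegral.integral_const_mul,
      ← intervalIntegral.integral_add (c1.intervalIntegrable _ _) (c2.intervalIntegrable _ _)]
    refine intervalIntegral.integral_mono_on (by linarith)
      (((hcF2.sub hcA2).norm.pow 2).intervalIntegrable _ _)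
      ((c1.add c2).intervalIntegrable _ _) fun t _ => ?_
    have e1 : ZZ T (cl t + (Δ : ℂ)) * Dr f (y2 T) (cl t + (Δ : ℂ)) - Dr a (y2 T) (cl t + (Δ : ℂ)) =
        (ZZ T (cl t + (Δ : ℂ)) * Dr f (y2 T) (cl t + (Δ : ℂ)) - Dr (f * zt) (y2 T) (cl t + (Δ : ℂ))) +
        (Dr (f * zt) (y2 T) (cl t + (Δ : ℂ)) - Dr a (y2 T) (cl t + (Δ : ℂ))) := by ring
    rw [e1]
    exact norm_sq_add_le _ _
  refine hfin.trans ?_
  calc _ ≤ 2 * ((4 * CX + 16 * CG * CR + 5) * k * (T * W)) +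
        2 * ((4 * (CD + CG * CR) + 1) * k * (T * W)) := by linarith
    _ = _ := by ring

end Pool.Agent.Q198.KZ
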