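import Pool.Agent.Q198.KZ.D1

set_option autoImplicit false

/-! Project KZ (helper276), job UG. -/

namespace Pool.Agent.Q198.KZ

open MeasureTheory Filter Finset
open Pool.Agent.Q276.CD Pool.Agent.Q276.KZ

/-- the local values of `n ^ x` -/
noncomputable def qx (x : ℝ) (p a : ℕ) : ℝ := ((p : ℝ) ^ x) ^ a

lemma qx_zero (x : ℝ) (p : ℕ) : qx x p 0 = 1 := by simp [qx]

lemma qx_nonneg (x : ℝ) (p a : ℕ) : 0 ≤ qx x p a := by unfold qx; positivity

lemma rpow_mf {n : ℕ} (hn : n ≠ 0) (x : ℝ) : (n : ℝ) ^ x = mf (qx x) n := by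
  have h := Nat.prod_factorization_pow_eq_self hn
  conv_lhs => rw [← h]
  unfold Finsupp.prod mf qx
  push_cast
  rw [Nat.support_factorization, ← Real.finsetProd_rpow _ _ (fun p _ => by positivity)]
  refine prod_congr rfl fun p _ => ?_
  rw [← Real.rpow_natCast, ← Real.rpow_natCast, ← Real.rpow_mul (Nat.cast_nonneg p),
    ← Real.rpow_mul (Nat.cast_nonneg p), mul_comm]

lemma low_blk {b : ℕ → ℕ} {J n : ℕ} (hb : ∀ j ≤ J, b j ≤ b (j + 1))
    (hs : n ∈ Nat.smoothNumbers (b (J + 1))) (φ : ℕ → ℕ → ℝ) :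
    mf φ n = low b φ n * ∏ j ∈ range (J + 1), blk b j φ n := by
  rw [blk_prod hb]
  unfold low
  rw [← mf_mul_fun]
  refine mf_congr fun p hp => ?_
  rw [Nat.mem_primeFactors] at hp
  have h1 := (sm_iff.mp hs).2 p hp.1 hp.2.1
  have h2 : b 0 ≤ b (J + 1) := b_mono hb (by omega) (by omega)
  by_cases h3 : p < b 0
  · rw [if_pos h3, if_neg (by omega), mul_one]
  · rw [if_neg h3, if_pos (by omega), one_mul]

lemma blk_mul (b : ℕ → ℕ) (j : ℕ) (φ ψ : ℕ → ℕ → ℝ) (n : ℕ) :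
    blk b j φ n * blk b j ψ n = blk b j (fun p a => φ p a * ψ p a) n := by
  unfold blk
  rw [← mf_mul_fun]
  refine mf_congr fun p _ => ?_
  split_ifs <;> simp

lemma prod_ite_powerset {ι : Type*} [DecidableEq ι] (s : Finset ι) (C D : ι → ℝ) :
    ∑ c ∈ s.powerset, ∏ j ∈ s, (if j ∈ c then C j else D j) = ∏ j ∈ s, (C j + D j) := by
  rw [prod_add]
  refine sum_congr rfl fun c hc => ?_
  rw [mem_powerset] at hc
  rw [prod_ite]
  congr 1
  · refine prod_congr ?_ fun _ _ => rfl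
    ext x; simp only [mem_filter]; exact ⟨fun h => h.2, fun h => ⟨hc h, h⟩⟩
  · refine prod_congr ?_ fun _ _ => rfl
    ext x; rw [mem_filter, Finset.mem_sdiff]

/-- the pointwise bound, first sum -/
lemma ug_pt1 (hGS : P_GS) {b : ℕ → ℕ} {J : ℕ} {K : ℕ → ℕ} {k : ℝ}
    (hb : ∀ j ≤ J, b j ≤ b (j + 1)) (hk0 : 0 ≤ k) (hk1 : k ≤ 1) {n : ℕ}
    (hs : n ∈ Nat.smoothNumbers (b (J + 1))) (x : ℝ) :
    (∑ c ∈ (range (J + 1)).powerset, (fQ b J (QX (k - 1) K c) * zt) n ^ 2) * (n : ℝ) ^ x ≤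
      low b (qx x) n * ∏ j ∈ range (J + 1), (blk b j (fun p a => pe (k - 1) p a ^ 2 * qx x p a) n +
        rr⁻¹ ^ K j * blk b j (fun p a => tm 2 p a * qx x p a) n +
        (1 / 16) ^ K j * blk b j (fun p a => pe 40 p a ^ 2 * qx x p a) n) := by
  classical
  have hn : n ≠ 0 := (sm_iff.mp hs).1
  have h1 : ∑ c ∈ (range (J + 1)).powerset, (fQ b J (QX (k - 1) K c) * zt) n ^ 2 ≤
      ∏ j ∈ range (J + 1), ((1 / 16) ^ K j * blk b j (fun p a => pe 40 p a ^ 2) n +
        (blk b j (fun p a => pe (k - 1) p a ^ 2) n + rr⁻¹ ^ K j * blk b j (tm 2) n)) := by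
    rw [← prod_ite_powerset]
    exact sum_le_sum fun c _ => hGS b J K k c hb hk0 hk1 n hn
  rw [rpow_mf hn, low_blk hb hs (qx x)]
  have h2 : 0 ≤ low b (qx x) n * ∏ j ∈ range (J + 1), blk b j (qx x) n :=
    mul_nonneg (low_nonneg (qx_nonneg x) n) (prod_nonneg fun j _ => blk_nonneg (qx_nonneg x) n)
  refine (mul_le_mul_of_nonneg_right h1 h2).trans (le_of_eq ?_)
  rw [mul_left_comm, ← prod_mul_distrib]
  congr 1
  refine prod_congr rfl fun j _ => ?_
  rw [← blk_mul b j (fun p a => pe (k - 1) p a ^ 2), ← blk_mul b j (tm 2),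
    ← blk_mul b j (fun p a => pe 40 p a ^ 2)]
  ring

/-- the pointwise bound, second sum -/
lemma ug_pt2 (hGS : P_GS) (hM : P_FACM) {b : ℕ → ℕ} {J : ℕ} {K : ℕ → ℕ} {k : ℝ}
    (hb : ∀ j ≤ J, b j ≤ b (j + 1)) (hk0 : 0 ≤ k) (hk1 : k ≤ 1) {n : ℕ}
    (hs : n ∈ Nat.smoothNumbers (b (J + 1))) (x : ℝ) :
    (mu0 (b 0) * fQ b J (QE (k - 1) K) * zt) n ^ 2 * (n : ℝ) ^ x ≤
      low b dlt n * ∏ j ∈ range (J + 1), (blk b j (fun p a => pe (k - 1) p a ^ 2 * qx x p a) n +
        rr⁻¹ ^ K j * blk b j (fun p a => tm 2 p a * qx x p a) n) := by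
  classical
  have hn : n ≠ 0 := (sm_iff.mp hs).1
  have hdl : ∀ p a, 0 ≤ dlt p a := fun p a => by unfold dlt; split_ifs <;> norm_num
  have hR : 0 ≤ ∏ j ∈ range (J + 1), (blk b j (fun p a => pe (k - 1) p a ^ 2 * qx x p a) n +
        rr⁻¹ ^ K j * blk b j (fun p a => tm 2 p a * qx x p a) n) := by
    refine prod_nonneg fun j _ => add_nonneg
      (blk_nonneg (fun p a => mul_nonneg (sq_nonneg _) (qx_nonneg x p a)) n)
      (mul_nonneg (pow_nonneg (inv_nonneg.2 rr_pos.le) _)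
        (blk_nonneg (fun p a => mul_nonneg (tm_nonneg 2 p a) (qx_nonneg x p a)) n))
  rw [hM b J _ hb n hn]
  by_cases h0 : Ob 0 (b 0) n = 0
  · rw [if_pos h0, low_eq hn h0, one_mul]
    have h1 := hGS b J K k ∅ hb hk0 hk1 n hn
    have e1 : QX (k - 1) K ∅ = QE (k - 1) K := by
      funext j m
      simp [QX]
    rw [e1] at h1
    simp only [notMem_empty, if_false] at h1
    rw [rpow_mf hn, ← blk_prod' hb hs h0 (qx x)]
    have h2 : 0 ≤ ∏ j ∈ range (J + 1), blk b j (qx x) n :=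
      prod_nonneg fun j _ => blk_nonneg (qx_nonneg x) n
    refine (mul_le_mul_of_nonneg_right h1 h2).trans (le_of_eq ?_)
    rw [← prod_mul_distrib]
    refine prod_congr rfl fun j _ => ?_
    rw [← blk_mul b j (fun p a => pe (k - 1) p a ^ 2), ← blk_mul b j (tm 2)]
    ring
  · rw [if_neg h0]
    have : (0 : ℝ) ^ 2 * (n : ℝ) ^ x = 0 := by simp
    rw [this]
    exact mul_nonneg (low_nonneg hdl n) hR

lemma tsum_one_le {φ : ℕ → ℕ → ℝ} (h0 : ∀ p, φ p 0 = 1) (hφ : ∀ p a, 0 ≤ φ p a) {p : ℕ}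
    (hs : Summable fun a : ℕ => φ p a / (p : ℝ) ^ a) : 1 ≤ ∑' a : ℕ, φ p a / (p : ℝ) ^ a := by
  have h2 := hs.le_tsum 0 (fun a _ => div_nonneg (hφ p a) (by positivity))
  rw [h0] at h2
  simpa using h2

theorem t_UG (hGS : P_GS) (hM : P_FACM) (hL : P_GL) (hC : P_LC) (hRN : P_RN) : P_UG := by
  classical
  obtain ⟨C, hC1, hLC⟩ := hC
  obtain ⟨CL, hCL0, hCL⟩ := RL_bd
  refine ⟨min (1 / 100) (1 / (15 * C)), lt_min (by norm_num) (by positivity),
    fun e he0 he1 C3 hC3 => ?_⟩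
  have he2 : e ≤ 1 / 100 := he1.trans (min_le_left _ _)
  have he3 : e ≤ 1 / (15 * C) := he1.trans (min_le_right _ _)
  obtain ⟨C2, hC2, hRN2⟩ := hRN e he0 he2 C3 hC3
  refine ⟨(C2 + 1) * Real.exp (4 + 2 * CL + C + 1), by positivity, ?_⟩
  filter_upwards [hRN2, eventually_ge_atTop (Real.exp 1)] with T hT hTe k J K b hSu
  have hb := hSu.mono
  have hk0 : 0 ≤ k := hSu.k0.le
  have hkpos := hSu.k0
  have hk1 := hSu.k1
  have hk2 : 0 ≤ k ^ 2 := sq_nonneg k
  have hk21 : k ^ 2 ≤ 1 := pow_le_one₀ hk0 hk1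
  obtain ⟨_, _, hR0, _, hNT⟩ := hT k J K b hSu
  have hTpos : 0 < T := (Real.exp_pos 1).trans_le hTe
  have hL1 : 1 ≤ Real.log T := by
    rw [← Real.log_exp 1]
    exact Real.log_le_log (Real.exp_pos 1) hTe
  have hL0 : 0 < Real.log T := by linarith
  set x := 1 / Real.log T with hx
  have hx0 : 0 ≤ x := by positivity
  have hKbig : ∀ j ≤ J, (100 : ℝ) ≤ K j := by
    intro j hj
    have h1 := hSu.big j hj
    have h2 : (100 : ℝ) ≤ 1 / e := by
      rw [le_div_iff₀ he0]; linarith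
    linarith
  have hN10 : 2 ≤ b (J + 1) := hSu.b0.trans (b_mono hb (by omega) le_rfl)
  -- the size of `p ^ x`
  have hqx : ∀ p : ℕ, p.Prime → p < b (J + 1) → 1 ≤ (p : ℝ) ^ x ∧ (p : ℝ) ^ x ≤ 101 / 100 ∧
      Real.log ((p : ℝ) ^ x) = x * Real.log p := by
    intro p hp hpN
    have hp1 : (1 : ℝ) ≤ p := by exact_mod_cast hp.one_le
    have hlog : Real.log ((p : ℝ) ^ x) = x * Real.log p := Real.log_rpow (by linarith) x
    refine ⟨Real.one_le_rpow hp1 hx0, ?_, hlog⟩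
    have h1 : Real.log p ≤ Real.log (b (J + 1)) :=
      Real.log_le_log (by linarith) (by exact_mod_cast hpN.le)
    have h2 := hSu.lb J le_rfl
    have h3 := hKbig J le_rfl
    have h4 : x * Real.log p ≤ 1 / 1000 := by
      rw [hx, one_div, inv_mul_le_iff₀ hL0]
      refine (h1.trans h2).trans ?_
      rw [div_le_iff₀ (by positivity)]
      have : (10000 : ℝ) ≤ (K J : ℝ) ^ 2 := by nlinarith
      nlinarith
    have h5 : Real.log ((p : ℝ) ^ x) ≤ Real.log (101 / 100) := by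
      rw [hlog]
      have h6 := Real.one_sub_inv_le_log_of_pos (show (0 : ℝ) < 101 / 100 by norm_num)
      have h7 : 1 - (101 / 100 : ℝ)⁻¹ ≥ 1 / 1000 := by norm_num
      linarith
    exact (Real.log_le_log_iff (Real.rpow_pos_of_pos (by linarith) _) (by norm_num)).1 h5
  -- local sums
  have hloc : ∀ p : ℕ, p.Prime → p < b (J + 1) →
      ((Summable fun a : ℕ => qx x p a / (p : ℝ) ^ a) ∧
        ∑' a : ℕ, qx x p a / (p : ℝ) ^ a ≤
          Real.exp (1 * (1 / p) + 2 * x * (Real.log p / p) + C * (1 / (p : ℝ) ^ 2))) ∧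
      ((Summable fun a : ℕ => pe (k - 1) p a ^ 2 * qx x p a / (p : ℝ) ^ a) ∧
        ∑' a : ℕ, pe (k - 1) p a ^ 2 * qx x p a / (p : ℝ) ^ a ≤
          Real.exp (k ^ 2 * (1 / p) + 2 * x * (Real.log p / p) + C * (1 / (p : ℝ) ^ 2))) ∧
      ((Summable fun a : ℕ => tm 2 p a * qx x p a / (p : ℝ) ^ a) ∧
        ∑' a : ℕ, tm 2 p a * qx x p a / (p : ℝ) ^ a ≤ Real.exp (C * (1 / p))) ∧
      ((Summable fun a : ℕ => pe 40 p a ^ 2 * qx x p a / (p : ℝ) ^ a) ∧
        ∑' a : ℕ, pe 40 p a ^ 2 * qx x p a / (p : ℝ) ^ a ≤ Real.exp (C * (1 / p))) := by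
    intro p hp hpN
    obtain ⟨h1, h2, h3⟩ := hqx p hp hpN
    obtain ⟨⟨g1, g1'⟩, ⟨g2, g2'⟩, ⟨g3, g3'⟩, ⟨g4, g4'⟩, _⟩ := hLC p hp ((p : ℝ) ^ x) h1 h2 k hk0 hk1
    rw [h3] at g1' g2'
    have e1 : 1 / (p : ℝ) + 2 * (x * Real.log p) / p + C / (p : ℝ) ^ 2 =
        1 * (1 / p) + 2 * x * (Real.log p / p) + C * (1 / (p : ℝ) ^ 2) := by ring
    have e2 : k ^ 2 / (p : ℝ) + 2 * (x * Real.log p) / p + C / (p : ℝ) ^ 2 =
        k ^ 2 * (1 / p) + 2 * x * (Real.log p / p) + C * (1 / (p : ℝ) ^ 2) := by ring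
    have e3 : C / (p : ℝ) = C * (1 / p) := by ring
    rw [e1] at g1'
    rw [e2] at g2'
    rw [e3] at g3' g4'
    exact ⟨⟨g1, g1'⟩, ⟨g2, g2'⟩, ⟨g3, g3'⟩, ⟨g4, g4'⟩⟩
  have hbpp : ∀ j ≤ J, ∀ p ∈ bp b j, p.Prime ∧ p < b (J + 1) := fun j hj p hp => by
    simp only [bp, mem_filter, Nat.mem_primesBelow] at hp
    exact ⟨hp.1.2, hp.1.1.trans_le (b_mono hb (by omega) le_rfl)⟩
  -- the block factors
  have hX : ∀ j ∈ range (J + 1), 1 ≤ ∏ p ∈ bp b j, Real.exp (k ^ 2 * (1 / p) +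
      2 * x * (Real.log p / p) + C * (1 / (p : ℝ) ^ 2)) := by
    intro j hj
    refine Finset.one_le_prod fun p hp => Real.one_le_exp ?_
    have hp1 : (1 : ℝ) ≤ p := by
      exact_mod_cast (hbpp j (by rw [mem_range] at hj; omega) p hp).1.one_le
    have := Real.log_nonneg hp1
    positivity
  have hsmall : ∀ j ≤ J, ∀ (c : ℝ), 0 ≤ c → c ≤ Real.exp (-((K j : ℝ) / 6)) → ∀ (φ : ℕ → ℕ → ℝ),
      (∀ p a, 0 ≤ φ p a) → (∀ p ∈ bp b j, ∑' a : ℕ, φ p a / (p : ℝ) ^ a ≤
        Real.exp (C * (1 / p))) →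
      c * ∏ p ∈ bp b j, ∑' a : ℕ, φ p a / (p : ℝ) ^ a ≤ Real.exp (-((K j : ℝ) / 100)) / 2 := by
    intro j hj c hc0 hc φ hφ hφ2
    have h1 : ∏ p ∈ bp b j, ∑' a : ℕ, φ p a / (p : ℝ) ^ a ≤
        Real.exp (C * (R1 (b (j + 1)) - R1 (b j))) := by
      rw [← bp_sum (hb j hj), mul_sum, Real.exp_sum]
      exact prod_le_prod (fun p _ => tsum_nonneg fun a =>
        div_nonneg (hφ p a) (by positivity)) fun p hp => hφ2 p hp
    have h4 : C * (R1 (b (j + 1)) - R1 (b j)) ≤ (K j : ℝ) / 15 := by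
      have h5 := hSu.var j hj
      have h6 : C * e ≤ 1 / 15 := by
        calc C * e ≤ C * (1 / (15 * C)) := mul_le_mul_of_nonneg_left he3 (by linarith)
          _ = 1 / 15 := by field_simp
      have h7 : (0 : ℝ) ≤ K j := Nat.cast_nonneg _
      calc C * (R1 (b (j + 1)) - R1 (b j)) ≤ C * (e * K j) :=
            mul_le_mul_of_nonneg_left h5 (by linarith)
        _ = C * e * K j := by ring
        _ ≤ 1 / 15 * K j := mul_le_mul_of_nonneg_right h6 h7
        _ = _ := by ring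
    have h100 := hKbig j hj
    have h8 : Real.exp (-((K j : ℝ) / 6)) * Real.exp ((K j : ℝ) / 15) ≤
        Real.exp (-((K j : ℝ) / 100)) / 2 := by
      rw [← Real.exp_add]
      have h9 : Real.exp (-((K j : ℝ) / 6) + (K j : ℝ) / 15) ≤
          Real.exp (-((K j : ℝ) / 100) + (-1)) := Real.exp_le_exp.2 (by linarith)
      have h10 : Real.exp (-1) ≤ 1 / 2 := by
        rw [Real.exp_neg, inv_le_comm₀ (Real.exp_pos 1) (by norm_num)]
        have := Real.add_one_le_exp (1 : ℝ)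
        linarith
      rw [Real.exp_add (-((K j : ℝ) / 100))] at h9
      have h11 := Real.exp_pos (-((K j : ℝ) / 100))
      nlinarith
    refine le_trans (mul_le_mul hc (h1.trans (Real.exp_le_exp.2 h4)) (prod_nonneg fun p _ =>
      tsum_nonneg fun a => div_nonneg (hφ p a) (by positivity)) (Real.exp_pos _).le) h8
  have hc1 : ∀ j, rr⁻¹ ^ K j ≤ Real.exp (-((K j : ℝ) / 6)) := by
    intro j
    have h3 : rr⁻¹ = Real.exp (-Real.log rr) := by rw [Real.exp_neg, Real.exp_log rr_pos]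
    rw [h3, ← Real.exp_nat_mul]
    apply Real.exp_le_exp.2
    have h1 := Real.one_sub_inv_le_log_of_pos rr_pos
    have h2 : 1 - rr⁻¹ = 1 / 6 := by unfold rr; norm_num
    have : (0 : ℝ) ≤ K j := Nat.cast_nonneg _
    nlinarith
  have hc2 : ∀ j, (1 / 16 : ℝ) ^ K j ≤ Real.exp (-((K j : ℝ) / 6)) := by
    intro j
    refine le_trans (pow_le_pow_left₀ (by norm_num) ?_ _) (hc1 j)
    unfold rr; norm_num
  have hrr0 : ∀ j, 0 ≤ rr⁻¹ ^ K j := fun j => pow_nonneg (inv_nonneg.2 rr_pos.le) _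
  have hpeq : ∀ z : ℝ, ∀ p a : ℕ, 0 ≤ pe z p a ^ 2 * qx x p a := fun z p a =>
    mul_nonneg (sq_nonneg _) (qx_nonneg x p a)
  have htmq : ∀ p a : ℕ, 0 ≤ tm 2 p a * qx x p a := fun p a =>
    mul_nonneg (tm_nonneg 2 p a) (qx_nonneg x p a)
  -- the product over the blocks
  set PR := (Nat.primesBelow (b (J + 1))).filter (fun p => b 0 ≤ p) with hPR
  have hXprod : ∏ j ∈ range (J + 1), ((∏ p ∈ bp b j, Real.exp (k ^ 2 * (1 / p) +
      2 * x * (Real.log p / p) + C * (1 / (p : ℝ) ^ 2))) + Real.exp (-((K j : ℝ) / 100))) ≤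
      Real.exp (∑ p ∈ PR, (k ^ 2 * (1 / p) + 2 * x * (Real.log p / p) +
        C * (1 / (p : ℝ) ^ 2)) + 1) := by
    have h1 : ∏ j ∈ range (J + 1), ((∏ p ∈ bp b j, Real.exp (k ^ 2 * (1 / p) +
      2 * x * (Real.log p / p) + C * (1 / (p : ℝ) ^ 2))) + Real.exp (-((K j : ℝ) / 100))) ≤
      ∏ j ∈ range (J + 1), ((∏ p ∈ bp b j, Real.exp (k ^ 2 * (1 / p) +
      2 * x * (Real.log p / p) + C * (1 / (p : ℝ) ^ 2))) *
        Real.exp (Real.exp (-((K j : ℝ) / 100)))) := by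
      refine prod_le_prod (fun j hj => ?_) fun j hj => ?_
      · have := hX j hj
        have h2 := Real.exp_pos (-((K j : ℝ) / 100))
        linarith
      · have h2 := hX j hj
        have h3 := Real.exp_pos (-((K j : ℝ) / 100))
        have h4 := Real.add_one_le_exp (Real.exp (-((K j : ℝ) / 100)))
        nlinarith
    refine h1.trans ?_
    rw [prod_mul_distrib, bp_prod hb, ← hPR, ← Real.exp_sum, ← Real.exp_sum, ← Real.exp_add]
    apply Real.exp_le_exp.2
    have := hSu.err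
    linarith
  -- the exponents
  have hsumRL : 2 * x * RL (b (J + 1)) ≤ 4 + 2 * CL := by
    have h1 : RL (b (J + 1)) ≤ Real.log (b (J + 1)) + CL := by
      obtain ⟨m, hm⟩ : ∃ m, b (J + 1) = m + 1 := ⟨b (J + 1) - 1, by omega⟩
      have h2 := hCL m (by omega)
      rw [hm]
      have h3 : Real.log m ≤ Real.log ((m + 1 : ℕ) : ℝ) := by
        have hm1 : (1 : ℝ) ≤ m := by
          have : 1 ≤ m := by omega
          exact_mod_cast this
        exact Real.log_le_log (by linarith) (by push_cast; linarith)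
      linarith
    have h4 : Real.log (b (J + 1)) ≤ Real.log T :=
      Real.log_le_log (by
        have : (2 : ℝ) ≤ b (J + 1) := by exact_mod_cast hN10
        linarith) hNT
    have h5 : x * Real.log T = 1 := by rw [hx]; field_simp
    have h6 : x ≤ 1 := by rw [hx, div_le_one hL0]; exact hL1
    have h7 : x * RL (b (J + 1)) ≤ x * (Real.log T + CL) :=
      mul_le_mul_of_nonneg_left (by linarith) hx0
    nlinarith
  have hsq2 : ∑ p ∈ Nat.primesBelow (b (J + 1)), 1 / (p : ℝ) ^ 2 ≤ 1 := by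
    have h1 := sum_sq_le (m := 2) (N := b (J + 1)) le_rfl
    have e : (Nat.primesBelow (b (J + 1))).filter (fun p => 2 ≤ p) =
        Nat.primesBelow (b (J + 1)) := by
      refine filter_true_of_mem fun p hp => ?_
      exact (Nat.prime_of_mem_primesBelow hp).two_le
    rw [e] at h1
    norm_num at h1 ⊢
    exact h1
  have hsplit : ∀ F : ℕ → ℝ, ∑ p ∈ Nat.primesBelow (b 0), F p + ∑ p ∈ PR, F p =
      ∑ p ∈ Nat.primesBelow (b (J + 1)), F p := by
    intro F
    rw [← sum_filter_add_sum_filter_not (Nat.primesBelow (b (J + 1))) (fun p => b 0 ≤ p),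
      add_comm]
    congr 1
    refine sum_congr ?_ fun _ _ => rfl
    have h2 : b 0 ≤ b (J + 1) := b_mono hb (by omega) (by omega)
    ext p
    simp only [mem_filter, Nat.mem_primesBelow]
    constructor
    · rintro ⟨h1, h2⟩; exact ⟨⟨by omega, h2⟩, by omega⟩
    · rintro ⟨⟨_, h2⟩, h1⟩; exact ⟨by omega, h2⟩
  have hW : WW k J b = Real.exp (k ^ 2 * R1 (b (J + 1))) := rfl
  have hPRsum : ∑ p ∈ PR, (k ^ 2 * (1 / (p : ℝ)) + 2 * x * (Real.log p / p) +
        C * (1 / (p : ℝ) ^ 2)) ≤ k ^ 2 * R1 (b (J + 1)) + (4 + 2 * CL) + C := by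
    have hsub : ∀ F : ℕ → ℝ, (∀ p ∈ Nat.primesBelow (b (J + 1)), 0 ≤ F p) →
        ∑ p ∈ PR, F p ≤ ∑ p ∈ Nat.primesBelow (b (J + 1)), F p := fun F hF =>
      sum_le_sum_of_subset_of_nonneg (filter_subset _ _) fun p hp _ => hF p hp
    rw [sum_add_distrib, sum_add_distrib, ← mul_sum, ← mul_sum, ← mul_sum]
    have h1 : k ^ 2 * ∑ p ∈ PR, 1 / (p : ℝ) ≤ k ^ 2 * R1 (b (J + 1)) :=
      mul_le_mul_of_nonneg_left (hsub _ fun p _ => by positivity) hk2
    have h2 : 2 * x * ∑ p ∈ PR, Real.log p / (p : ℝ) ≤ 2 * x * RL (b (J + 1)) :=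
      mul_le_mul_of_nonneg_left (hsub _ fun p hp => by
        have := Real.log_nonneg (show (1 : ℝ) ≤ p by
          exact_mod_cast (Nat.prime_of_mem_primesBelow hp).one_le)
        positivity) (by positivity)
    have h3 : C * ∑ p ∈ PR, 1 / (p : ℝ) ^ 2 ≤ C * 1 :=
      mul_le_mul_of_nonneg_left ((hsub _ fun p _ => by positivity).trans hsq2) (by linarith)
    linarith
  refine ⟨?_, ?_⟩
  · -- first sum
    have h := hL b J (range 3) (qx x) (fun j o => if o = 0 then 1 else if o = 1 then rr⁻¹ ^ K j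
        else (1 / 16) ^ K j)
      (fun _ o => if o = 0 then (fun p a => pe (k - 1) p a ^ 2 * qx x p a) else
        if o = 1 then (fun p a => tm 2 p a * qx x p a) else (fun p a => pe 40 p a ^ 2 * qx x p a))
      hb (qx_zero x) (fun _ o p => by
        split_ifs <;> simp [pe_zero, qx_zero, tm_zero]) (fun p hp hp0 => by
        have hp1 : p < b (J + 1) := hp0.trans_le (b_mono hb (by omega) le_rfl)
        refine (hloc p hp hp1).1.1.congr fun a => ?_
        rw [abs_of_nonneg (qx_nonneg x p a)]) (fun j hj o _ p hp => by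
        obtain ⟨h1, h2⟩ := hbpp j hj p hp
        obtain ⟨_, ⟨g2, _⟩, ⟨g3, _⟩, ⟨g4, _⟩⟩ := hloc p h1 h2
        split_ifs
        · refine g2.congr fun a => ?_
          rw [abs_of_nonneg (hpeq (k - 1) p a)]
        · refine g3.congr fun a => ?_
          rw [abs_of_nonneg (htmq p a)]
        · refine g4.congr fun a => ?_
          rw [abs_of_nonneg (hpeq 40 p a)])
    simp only [sum_range_succ, range_zero, sum_empty, zero_add, if_true, one_ne_zero, if_false,
      one_mul, OfNat.ofNat_ne_zero, OfNat.ofNat_ne_one] at h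
    have hpt : ∀ n ∈ Nat.smoothNumbers (b (J + 1)), _ := fun n hn =>
      ug_pt1 hGS (K := K) hb hk0 hk1 hn x
    have hmaj : Sb (b (J + 1)) (fun n => low b (qx x) n * ∏ j ∈ range (J + 1),
        (blk b j (fun p a => pe (k - 1) p a ^ 2 * qx x p a) n +
        rr⁻¹ ^ K j * blk b j (fun p a => tm 2 p a * qx x p a) n +
        (1 / 16) ^ K j * blk b j (fun p a => pe 40 p a ^ 2 * qx x p a) n)) :=
      Sb_of_le h.1 fun n _ => le_rfl
    have hSb : Sb (b (J + 1)) (fun n => (∑ c ∈ (range (J + 1)).powerset,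
        (fQ b J (QX (k - 1) K c) * zt) n ^ 2) * (n : ℝ) ^ x) := by
      refine Sb_of_le hmaj fun n hn => ?_
      rw [abs_of_nonneg (mul_nonneg (sum_nonneg fun _ _ => sq_nonneg _) (by positivity))]
      exact hpt n hn
    refine ⟨hSb, (SS_le hSb hmaj hpt).trans ?_⟩
    rw [h.2]
    have hlowP : ∏ p ∈ Nat.primesBelow (b 0), ∑' a : ℕ, qx x p a / (p : ℝ) ^ a ≤
        Real.exp (∑ p ∈ Nat.primesBelow (b 0), (1 * (1 / (p : ℝ)) + 2 * x * (Real.log p / p) +
          C * (1 / (p : ℝ) ^ 2))) := by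
      rw [Real.exp_sum]
      refine prod_le_prod (fun p _ => tsum_nonneg fun a => div_nonneg (qx_nonneg x p a)
        (by positivity)) fun p hp => ?_
      exact (hloc p (Nat.prime_of_mem_primesBelow hp) ((Nat.lt_of_mem_primesBelow hp).trans_le
        (b_mono hb (by omega) le_rfl))).1.2
    have hblkP : ∏ j ∈ range (J + 1), ((∏ p ∈ bp b j, ∑' a : ℕ,
          pe (k - 1) p a ^ 2 * qx x p a / (p : ℝ) ^ a) +
        rr⁻¹ ^ K j * (∏ p ∈ bp b j, ∑' a : ℕ, tm 2 p a * qx x p a / (p : ℝ) ^ a) +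
        (1 / 16) ^ K j * (∏ p ∈ bp b j, ∑' a : ℕ, pe 40 p a ^ 2 * qx x p a / (p : ℝ) ^ a)) ≤
        Real.exp (∑ p ∈ PR, (k ^ 2 * (1 / (p : ℝ)) + 2 * x * (Real.log p / p) +
        C * (1 / (p : ℝ) ^ 2)) + 1) := by
      refine le_trans (prod_le_prod (fun j _ => ?_) fun j hj => ?_) hXprod
      · refine add_nonneg (add_nonneg (prod_nonneg fun p _ => tsum_nonneg fun a =>
          div_nonneg (hpeq _ p a) (by positivity)) (mul_nonneg (hrr0 j) (prod_nonneg fun p _ =>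
          tsum_nonneg fun a => div_nonneg (htmq p a) (by positivity)))) (mul_nonneg
          (by positivity) (prod_nonneg fun p _ =>
          tsum_nonneg fun a => div_nonneg (hpeq 40 p a) (by positivity)))
      · have hjJ : j ≤ J := by rw [mem_range] at hj; omega
        have f1 : ∏ p ∈ bp b j, ∑' a : ℕ, pe (k - 1) p a ^ 2 * qx x p a / (p : ℝ) ^ a ≤
            ∏ p ∈ bp b j, Real.exp (k ^ 2 * (1 / p) +
              2 * x * (Real.log p / p) + C * (1 / (p : ℝ) ^ 2)) :=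
          prod_le_prod (fun p _ => tsum_nonneg fun a =>
            div_nonneg (hpeq _ p a) (by positivity)) fun p hp => by
              obtain ⟨h1, h2⟩ := hbpp j hjJ p hp
              exact (hloc p h1 h2).2.1.2
        have f2 := hsmall j hjJ (rr⁻¹ ^ K j) (hrr0 j) (hc1 j) (fun p a => tm 2 p a * qx x p a)
          htmq (fun p hp => by
            obtain ⟨h1, h2⟩ := hbpp j hjJ p hp
            exact (hloc p h1 h2).2.2.1.2)
        have f3 := hsmall j hjJ ((1 / 16) ^ K j) (by positivity) (hc2 j)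
          (fun p a => pe 40 p a ^ 2 * qx x p a) (hpeq 40) (fun p hp => by
            obtain ⟨h1, h2⟩ := hbpp j hjJ p hp
            exact (hloc p h1 h2).2.2.2.2)
        linarith
    have hlowR : ∑ p ∈ Nat.primesBelow (b 0), (1 * (1 / (p : ℝ)) + 2 * x * (Real.log p / p) +
          C * (1 / (p : ℝ) ^ 2)) + (∑ p ∈ PR, (k ^ 2 * (1 / (p : ℝ)) + 2 * x * (Real.log p / p) +
        C * (1 / (p : ℝ) ^ 2)) + 1) ≤ R1 (b 0) + (k ^ 2 * R1 (b (J + 1)) +
          (4 + 2 * CL + C + 1)) := by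
      have a1 : ∑ p ∈ Nat.primesBelow (b 0), (1 * (1 / (p : ℝ)) + 2 * x * (Real.log p / p) +
          C * (1 / (p : ℝ) ^ 2)) = R1 (b 0) + ∑ p ∈ Nat.primesBelow (b 0),
            (2 * x * (Real.log p / p) + C * (1 / (p : ℝ) ^ 2)) := by
        unfold R1
        rw [← sum_add_distrib]
        refine sum_congr rfl fun p _ => by ring
      have a2 : ∑ p ∈ PR, (k ^ 2 * (1 / (p : ℝ)) + 2 * x * (Real.log p / p) +
        C * (1 / (p : ℝ) ^ 2)) = k ^ 2 * ∑ p ∈ PR, 1 / (p : ℝ) + ∑ p ∈ PR,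
            (2 * x * (Real.log p / p) + C * (1 / (p : ℝ) ^ 2)) := by
        rw [mul_sum, ← sum_add_distrib]
        refine sum_congr rfl fun p _ => by ring
      have a3 := hsplit (fun p => 2 * x * (Real.log p / p) + C * (1 / (p : ℝ) ^ 2))
      have a4 : ∑ p ∈ Nat.primesBelow (b (J + 1)), (2 * x * (Real.log p / (p : ℝ)) +
          C * (1 / (p : ℝ) ^ 2)) = 2 * x * RL (b (J + 1)) +
          C * ∑ p ∈ Nat.primesBelow (b (J + 1)), 1 / (p : ℝ) ^ 2 := by
        rw [sum_add_distrib, ← mul_sum, ← mul_sum]; rfl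
      have a5 : C * ∑ p ∈ Nat.primesBelow (b (J + 1)), 1 / (p : ℝ) ^ 2 ≤ C * 1 :=
        mul_le_mul_of_nonneg_left hsq2 (by linarith)
      have a6 : k ^ 2 * ∑ p ∈ PR, 1 / (p : ℝ) ≤ k ^ 2 * R1 (b (J + 1)) :=
        mul_le_mul_of_nonneg_left (by
          unfold R1
          exact sum_le_sum_of_subset_of_nonneg (filter_subset _ _) fun _ _ _ => by positivity) hk2
      rw [a1, a2]
      linarith
    have hlog2 : 0 ≤ Real.log (2 / k) := Real.log_nonneg (by
      rw [le_div_iff₀ hkpos]; linarith)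
    calc (∏ p ∈ Nat.primesBelow (b 0), ∑' a : ℕ, qx x p a / (p : ℝ) ^ a) * _
        ≤ Real.exp (∑ p ∈ Nat.primesBelow (b 0), (1 * (1 / (p : ℝ)) + 2 * x * (Real.log p / p) +
          C * (1 / (p : ℝ) ^ 2))) * Real.exp (∑ p ∈ PR, (k ^ 2 * (1 / (p : ℝ)) +
            2 * x * (Real.log p / p) + C * (1 / (p : ℝ) ^ 2)) + 1) :=
          mul_le_mul hlowP hblkP (prod_nonneg fun j _ => add_nonneg (add_nonneg
            (prod_nonneg fun p _ => tsum_nonneg fun a =>
            div_nonneg (hpeq _ p a) (by positivity)) (mul_nonneg (hrr0 j) (prod_nonneg fun p _ =>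
            tsum_nonneg fun a => div_nonneg (htmq p a) (by positivity)))) (mul_nonneg
            (by positivity) (prod_nonneg fun p _ =>
            tsum_nonneg fun a => div_nonneg (hpeq 40 p a) (by positivity)))) (Real.exp_pos _).le
      _ ≤ Real.exp (R1 (b 0) + (k ^ 2 * R1 (b (J + 1)) + (4 + 2 * CL + C + 1))) := by
          rw [← Real.exp_add]
          exact Real.exp_le_exp.2 hlowR
      _ = Real.exp (R1 (b 0)) * (WW k J b * Real.exp (4 + 2 * CL + C + 1)) := by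
          rw [Real.exp_add, Real.exp_add, hW]
      _ ≤ (C2 * Real.log (2 / k)) * (WW k J b * Real.exp (4 + 2 * CL + C + 1)) :=
          mul_le_mul_of_nonneg_right hR0 (by rw [hW]; positivity)
      _ ≤ (C2 + 1) * Real.exp (4 + 2 * CL + C + 1) * Real.log (2 / k) * WW k J b := by
          have h1 : 0 ≤ Real.log (2 / k) * (WW k J b * Real.exp (4 + 2 * CL + C + 1)) := by
            rw [hW]; positivity
          nlinarith
  · -- second sum
    have h := hL b J (range 2) dlt (fun j o => if o = 0 then 1 else rr⁻¹ ^ K j)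
      (fun _ o => if o = 0 then (fun p a => pe (k - 1) p a ^ 2 * qx x p a) else
        (fun p a => tm 2 p a * qx x p a))
      hb (fun p => by simp [dlt]) (fun _ o p => by
        split_ifs <;> simp [pe_zero, qx_zero, tm_zero]) (fun p _ _ => dlt_sum p)
      (fun j hj o _ p hp => by
        obtain ⟨h1, h2⟩ := hbpp j hj p hp
        obtain ⟨_, ⟨g2, _⟩, ⟨g3, _⟩, _⟩ := hloc p h1 h2
        split_ifs
        · refine g2.congr fun a => ?_
          rw [abs_of_nonneg (hpeq (k - 1) p a)]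
        · refine g3.congr fun a => ?_
          rw [abs_of_nonneg (htmq p a)])
    simp only [sum_range_succ, range_zero, sum_empty, zero_add, if_true, one_ne_zero, if_false,
      one_mul, dlt_tsum, prod_const_one] at h
    have hpt : ∀ n ∈ Nat.smoothNumbers (b (J + 1)), _ := fun n hn =>
      ug_pt2 hGS hM (K := K) hb hk0 hk1 hn x
    have hmaj : Sb (b (J + 1)) (fun n => low b dlt n * ∏ j ∈ range (J + 1),
        (blk b j (fun p a => pe (k - 1) p a ^ 2 * qx x p a) n +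
        rr⁻¹ ^ K j * blk b j (fun p a => tm 2 p a * qx x p a) n)) :=
      Sb_of_le h.1 fun n _ => le_rfl
    have hSb : Sb (b (J + 1)) (fun n => (mu0 (b 0) * fQ b J (QE (k - 1) K) * zt) n ^ 2 *
        (n : ℝ) ^ x) := by
      refine Sb_of_le hmaj fun n hn => ?_
      rw [abs_of_nonneg (mul_nonneg (sq_nonneg _) (by positivity))]
      exact hpt n hn
    refine ⟨hSb, (SS_le hSb hmaj hpt).trans ?_⟩
    rw [h.2]
    have hblkP : ∏ j ∈ range (J + 1), ((∏ p ∈ bp b j, ∑' a : ℕ,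
          pe (k - 1) p a ^ 2 * qx x p a / (p : ℝ) ^ a) +
        rr⁻¹ ^ K j * (∏ p ∈ bp b j, ∑' a : ℕ, tm 2 p a * qx x p a / (p : ℝ) ^ a)) ≤
        Real.exp (∑ p ∈ PR, (k ^ 2 * (1 / (p : ℝ)) + 2 * x * (Real.log p / p) +
        C * (1 / (p : ℝ) ^ 2)) + 1) := by
      refine le_trans (prod_le_prod (fun j _ => ?_) fun j hj => ?_) hXprod
      · exact add_nonneg (prod_nonneg fun p _ => tsum_nonneg fun a =>
          div_nonneg (hpeq _ p a) (by positivity)) (mul_nonneg (hrr0 j) (prod_nonneg fun p _ =>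
          tsum_nonneg fun a => div_nonneg (htmq p a) (by positivity)))
      · have hjJ : j ≤ J := by rw [mem_range] at hj; omega
        have f1 : ∏ p ∈ bp b j, ∑' a : ℕ, pe (k - 1) p a ^ 2 * qx x p a / (p : ℝ) ^ a ≤
            ∏ p ∈ bp b j, Real.exp (k ^ 2 * (1 / p) +
              2 * x * (Real.log p / p) + C * (1 / (p : ℝ) ^ 2)) :=
          prod_le_prod (fun p _ => tsum_nonneg fun a =>
            div_nonneg (hpeq _ p a) (by positivity)) fun p hp => by
              obtain ⟨h1, h2⟩ := hbpp j hjJ p hp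
              exact (hloc p h1 h2).2.1.2
        have f2 := hsmall j hjJ (rr⁻¹ ^ K j) (hrr0 j) (hc1 j) (fun p a => tm 2 p a * qx x p a)
          htmq (fun p hp => by
            obtain ⟨h1, h2⟩ := hbpp j hjJ p hp
            exact (hloc p h1 h2).2.2.1.2)
        have f4 := Real.exp_pos (-((K j : ℝ) / 100))
        linarith
    have hWp : 0 < WW k J b := by rw [hW]; exact Real.exp_pos _
    calc _ ≤ Real.exp (∑ p ∈ PR, (k ^ 2 * (1 / (p : ℝ)) + 2 * x * (Real.log p / p) +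
        C * (1 / (p : ℝ) ^ 2)) + 1) := hblkP
      _ ≤ Real.exp (k ^ 2 * R1 (b (J + 1)) + (4 + 2 * CL + C + 1)) :=
          Real.exp_le_exp.2 (by linarith)
      _ = WW k J b * Real.exp (4 + 2 * CL + C + 1) := by rw [Real.exp_add, hW]
      _ ≤ (C2 + 1) * Real.exp (4 + 2 * CL + C + 1) * WW k J b := by
          have h1 : 0 ≤ WW k J b * Real.exp (4 + 2 * CL + C + 1) := by positivity
          nlinarith

end Pool.Agent.Q198.KZ
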