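import Pool.Agent.Q18.KZ.S4

/-!
# Project KZ: job US
-/

set_option autoImplicit false

namespace Pool.Agent.Q198.KZ

open Finset Filter Topology MeasureTheory Pool.Agent.Q18.KZ
open scoped Classical
open Pool.Agent.W76.MO (hh nc cell lp Rough)
open Pool.Agent.Q240.KS (MAINP pic)

/-- The last comparison of the sizes. -/
theorem fin_size (a b : ℝ) (hab : a < b) (C : ℝ) : ∃ J : ℕ, ∀ i : ℕ, J ≤ i →
    (i : ℝ) * C * (2 : ℝ) ^ (a * (i : ℝ)) ≤ (2 : ℝ) ^ (b * (i : ℝ)) := by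
  have h1 : Tendsto (fun i : ℕ => (i : ℝ) ^ 1 * ((2 : ℝ) ^ (a - b)) ^ i) atTop (𝓝 0) := by
    refine tendsto_pow_const_mul_const_pow_of_lt_one 1 (by positivity) ?_
    exact Real.rpow_lt_one_of_one_lt_of_neg (by norm_num) (by linarith)
  have h2 := h1.const_mul C
  rw [mul_zero] at h2
  obtain ⟨J, hJ⟩ := eventually_atTop.1 (h2.eventually (gt_mem_nhds (show (0 : ℝ) < 1 by norm_num)))
  refine ⟨J, fun i hi => ?_⟩
  have h3 := (hJ i hi).le
  have h4 : ((2 : ℝ) ^ (a - b)) ^ i = (2 : ℝ) ^ (a * (i : ℝ)) / (2 : ℝ) ^ (b * (i : ℝ)) := by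
    rw [← Real.rpow_natCast, ← Real.rpow_mul (by norm_num), ← Real.rpow_sub (by norm_num)]
    congr 1
    ring
  rw [h4, pow_one] at h3
  have h5 : C * ((i : ℝ) * ((2 : ℝ) ^ (a * (i : ℝ)) / (2 : ℝ) ^ (b * (i : ℝ)))) =
      ((i : ℝ) * C * (2 : ℝ) ^ (a * (i : ℝ))) / (2 : ℝ) ^ (b * (i : ℝ)) := by ring
  rw [h5, div_le_one (by positivity)] at h3
  exact h3

/-- A light prime is missing or there are few primes. -/
theorem two_cases {δ : ℝ} {i k v : ℕ} {L : ℕ → Prop} {c : ℝ} (hc : 0 < c) (hv : 0 < v) (hi : 0 < i)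
    (h : ((LqD δ (fun _ => L) i k v).card : ℝ) < c / 2 * hh δ i / (v * i)) :
    ((QqD δ i k v).card : ℝ) < c * hh δ i / (v * i) ∨ ∃ q ∈ QqD δ i k v, ¬ L q := by
  by_contra hcon
  push Not at hcon
  obtain ⟨h1, h2⟩ := hcon
  have h3 : LqD δ (fun _ => L) i k v = QqD δ i k v := by
    ext q
    constructor
    · intro hq
      rw [LqD, mem_filter] at hq
      rw [QqD, mem_filter]
      exact ⟨hq.1, hq.2.1, hq.2.2.2⟩
    · intro hq
      have h4 := h2 q hq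
      rw [QqD, mem_filter] at hq
      rw [LqD, mem_filter]
      exact ⟨hq.1, hq.2.1, h4, hq.2.2⟩
  rw [h3] at h
  have hhh : (0 : ℝ) < hh δ i := by
    rw [hh]
    positivity
  have h5 : c / 2 * hh δ i / (v * i) < c * hh δ i / (v * i) := by
    have hv' : (0 : ℝ) < v := by exact_mod_cast hv
    have hi' : (0 : ℝ) < i := by exact_mod_cast hi
    refine div_lt_div_of_pos_right ?_ (by positivity)
    refine mul_lt_mul_of_pos_right ?_ hhh
    linarith
  linarith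

/-- The geometry of a prime of a dilated cell. -/
theorem geom {δ : ℝ} {i k v q M : ℕ} (hk : k < nc δ i) (hM : 0 < M) (hv1 : M < v) (hv2 : v ≤ 2 * M)
    (hq : q ∈ QqD δ i k v) : (2 : ℝ) ^ i ≤ 2 * M * q ∧ (M : ℝ) * q ≤ 4 * 2 ^ i ∧
      |lA δ i k / v - q| ≤ hh δ i / M := by
  rw [QqD, mem_filter, cell, mem_Ioc] at hq
  obtain ⟨-, -, h1, h2⟩ := hq
  have hM0 : (0 : ℝ) < M := by exact_mod_cast hM
  have hvM : (M : ℝ) ≤ v := by exact_mod_cast hv1.le
  have hvM2 : (v : ℝ) ≤ 2 * M := by exact_mod_cast hv2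
  have hv0 : (0 : ℝ) < v := lt_of_lt_of_le hM0 hvM
  have h1' : (2 : ℝ) ^ i + k * hh δ i < v * q := by
    have : ((2 ^ i + k * hh δ i : ℕ) : ℝ) < ((v * q : ℕ) : ℝ) := by exact_mod_cast h1
    push_cast at this
    exact this
  have h2' : (v : ℝ) * q ≤ 2 ^ i + (k + 1) * hh δ i := by
    have : ((v * q : ℕ) : ℝ) ≤ ((2 ^ i + (k + 1) * hh δ i : ℕ) : ℝ) := by exact_mod_cast h2
    push_cast at this
    exact this
  have h9 : (k + 1) * hh δ i ≤ 2 ^ i := by
    have h10 : nc δ i * hh δ i ≤ 2 ^ i := by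
      rw [nc]
      exact Nat.div_mul_le_self _ _
    exact (Nat.mul_le_mul_right _ hk).trans h10
  have h9' : ((k : ℝ) + 1) * hh δ i ≤ 2 ^ i := by
    have : (((k + 1) * hh δ i : ℕ) : ℝ) ≤ ((2 ^ i : ℕ) : ℝ) := by exact_mod_cast h9
    push_cast at this
    exact this
  have hk0 : (0 : ℝ) ≤ k * hh δ i := by positivity
  have hq0 : (0 : ℝ) ≤ q := by positivity
  have hp0 : (0 : ℝ) < 2 ^ i := by positivity
  refine ⟨?_, ?_, ?_⟩
  · have := mul_le_mul_of_nonneg_right hvM2 hq0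
    linarith
  · have := mul_le_mul_of_nonneg_right hvM hq0
    linarith
  · have h3 : lA δ i k / v - q = (lA δ i k - v * q) / v := by
      field_simp
    rw [h3, abs_div, abs_of_pos hv0]
    have h4 : |lA δ i k - v * q| ≤ hh δ i := by
      unfold lA
      rw [abs_le]
      constructor <;> linarith
    calc |lA δ i k - v * q| / v ≤ hh δ i / v := div_le_div_of_nonneg_right h4 hv0.le
      _ ≤ hh δ i / M := div_le_div_of_nonneg_left (by positivity) hM0 hvM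

theorem t_US (hCHE : S_CHE) (hCNT : S_CNT) (hHVY : S_HVY) (hPOR : S_POR) : S_US := by
  intro hMP
  obtain ⟨c, η, δ₀, hc, hη, hδ₀, hP⟩ := hPOR hMP
  obtain ⟨et, het⟩ : ∃ et : ℝ, et = min η (3 / 10000) := ⟨_, rfl⟩
  have het0 : 0 < et := by
    rw [het]
    exact lt_min hη (by norm_num)
  have het1 : et ≤ η := by
    rw [het]
    exact min_le_left _ _
  have het2 : et ≤ 3 / 10000 := by
    rw [het]
    exact min_le_right _ _
  obtain ⟨c₀, hc₀, J₀, hJ₀⟩ := hCHE et het0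
  obtain ⟨J₁, hJ₁⟩ := hHVY
  obtain ⟨γ, hγ⟩ : ∃ γ : ℝ, γ = min η (1 / 1000) / 2 := ⟨_, rfl⟩
  have hγ0 : 0 < γ := by
    rw [hγ]
    have : 0 < min η (1 / 1000) := lt_min hη (by norm_num)
    positivity
  have hγ1 : 2 * γ ≤ η := by
    rw [hγ]
    linarith [min_le_left η (1 / 1000 : ℝ)]
  have hγ2 : 2 * γ ≤ 1 / 1000 := by
    rw [hγ]
    linarith [min_le_right η (1 / 1000 : ℝ)]
  obtain ⟨J₂, hJ₂⟩ := hCNT γ (c₀ / 8) 2 hγ0 (by positivity) (by norm_num)
  refine ⟨c₀ / 2, c / 2, δ₀, by positivity, by positivity, hδ₀, ?_⟩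
  intro δ hδ hδ' B0
  obtain ⟨J₃, hJ₃⟩ := hP δ hδ hδ'
  obtain ⟨J₄, hJ₄⟩ := fin_size (3 / 26) 0.1162 (by norm_num) (1 + B0)
  obtain ⟨J₅, hJ₅⟩ := fin_size (1 / 2 - 2 * γ) (1 / 2 - γ) (by linarith) 2
  refine ⟨J₀ + J₁ + J₂ + J₃ + J₄ + J₅ + 1, ?_⟩
  intro i Bs pk L hi hBk hB0 hBc hL
  have hi0 : 0 < i := by omega
  have hir : (0 : ℝ) < i := by exact_mod_cast hi0
  have hi1 : (1 : ℝ) ≤ i := by exact_mod_cast hi0
  obtain ⟨W, hW⟩ : ∃ W : Finset ℕ, W = (range (2 ^ i + 1)).filter (fun v : ℕ => v.Prime ∧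
    (2 : ℝ) ^ (5 / 13 * (i : ℝ)) < v ∧ (v : ℝ) ≤ (2 : ℝ) ^ ((5 / 13 + et) * (i : ℝ))) := ⟨_, rfl⟩
  have hWsum : c₀ ≤ ∑ v ∈ W, 1 / (v : ℝ) := by
    rw [hW]
    exact hJ₀ i (by omega)
  have hWVR : W ⊆ VR i := by
    intro v hv
    rw [hW, mem_filter] at hv
    rw [VR, mem_filter]
    refine ⟨hv.1, hv.2.1, hv.2.2.1, hv.2.2.2.trans ?_⟩
    refine Real.rpow_le_rpow_of_exponent_le (by norm_num) ?_
    refine mul_le_mul_of_nonneg_right ?_ hir.le
    norm_num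
    linarith
  obtain ⟨K, hK⟩ : ∃ K : Finset ℕ, K = Bs ∪ Bs.image pk := ⟨_, rfl⟩
  have hKc : (K.card : ℝ) ≤ 2 * (2 : ℝ) ^ (0.306 * (i : ℝ)) := by
    have h1 : (K.card : ℝ) ≤ Bs.card + Bs.card := by
      rw [hK]
      exact_mod_cast (card_union_le _ _).trans (Nat.add_le_add_left card_image_le _)
    linarith
  have hKnc : ∀ k ∈ K, k < nc δ i := by
    intro k hk
    rw [hK, mem_union, mem_image] at hk
    rcases hk with hk | ⟨k', hk', rfl⟩
    · exact (hBk k hk).1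
    · exact (hBk k' hk').2
  -- the set of good `m`
  obtain ⟨MM, hMM⟩ : ∃ MM : Finset ℕ, MM = (range i).filter (fun m => (2 : ℝ) ^ (5 / 13 * (i : ℝ) - 1) ≤ ((2 ^ m : ℕ) : ℝ) ∧
    ((2 ^ m : ℕ) : ℝ) ≤ (2 : ℝ) ^ ((5 / 13 + et) * (i : ℝ))) := ⟨_, rfl⟩
  have hWm : ∀ v ∈ W, Nat.log 2 (v - 1) ∈ MM ∧ 2 ^ Nat.log 2 (v - 1) < v ∧ v ≤ 2 * 2 ^ Nat.log 2 (v - 1) := by
    intro v hv
    rw [hW, mem_filter, mem_range] at hv
    obtain ⟨hv1, hv2, hv3, hv4⟩ := hv
    have hv5 := hv2.two_le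
    have h1 : 2 ^ Nat.log 2 (v - 1) ≤ v - 1 := Nat.pow_log_le_self 2 (by omega)
    have h2 : v - 1 < 2 ^ (Nat.log 2 (v - 1) + 1) := Nat.lt_pow_succ_log_self (by norm_num) _
    rw [pow_succ] at h2
    have h3 : 2 ^ Nat.log 2 (v - 1) < v := by omega
    have h4 : v ≤ 2 * 2 ^ Nat.log 2 (v - 1) := by omega
    refine ⟨?_, h3, h4⟩
    rw [hMM, mem_filter, mem_range]
    refine ⟨?_, ?_, ?_⟩
    · exact Nat.log_lt_of_lt_pow (by omega) (by omega)
    · have h5 : (v : ℝ) ≤ 2 * ((2 ^ Nat.log 2 (v - 1) : ℕ) : ℝ) := by exact_mod_cast h4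
      have h6 : (2 : ℝ) * (2 : ℝ) ^ (5 / 13 * (i : ℝ) - 1) = (2 : ℝ) ^ (5 / 13 * (i : ℝ)) := by
        rw [Real.rpow_sub (by norm_num), Real.rpow_one]
        ring
      linarith
    · have h5 : ((2 ^ Nat.log 2 (v - 1) : ℕ) : ℝ) ≤ (v : ℝ) := by exact_mod_cast h3.le
      exact h5.trans hv4
  -- the sets `U`
  have hU : ∀ m ∈ MM, ∃ U : Finset ℝ, (U.card : ℝ) ≤ (2 : ℝ) ^ ((1 / 2 - γ) * (i : ℝ)) ∧
      ∀ k ∈ K, ∀ v ∈ W, 2 ^ m < v → v ≤ 2 * 2 ^ m →
        ((LqD δ (fun _ => L) i k v).card : ℝ) < c / 2 * hh δ i / (v * i) →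
        ∃ u ∈ U, |lA δ i k / v - u| ≤ 2 * hh δ i / ((2 ^ m : ℕ) : ℝ) := by
    intro m hm
    rw [hMM, mem_filter, mem_range] at hm
    obtain ⟨hm1, hm2, hm3⟩ := hm
    have hM0 : 0 < 2 ^ m := by positivity
    have hM0' : (0 : ℝ) < ((2 ^ m : ℕ) : ℝ) := by exact_mod_cast hM0
    obtain ⟨U₁, hU1, hU1'⟩ := hJ₃ i (2 ^ m) (by omega) hm2 (hm3.trans (by
      refine Real.rpow_le_rpow_of_exponent_le (by norm_num) ?_
      refine mul_le_mul_of_nonneg_right ?_ hir.le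
      linarith))
    obtain ⟨U₂, hU2, hU2'⟩ := hJ₁ i (2 ^ m) δ K (by omega) hδ hKc hM0 (hm3.trans (by
      refine Real.rpow_le_rpow_of_exponent_le (by norm_num) ?_
      refine mul_le_mul_of_nonneg_right ?_ hir.le
      norm_num
      linarith))
    refine ⟨U₁ ∪ U₂, ?_, ?_⟩
    · have h1 : ((U₁ ∪ U₂).card : ℝ) ≤ U₁.card + U₂.card := by exact_mod_cast card_union_le _ _
      have h2 : (U₁.card : ℝ) ≤ (2 : ℝ) ^ ((1 / 2 - 2 * γ) * (i : ℝ)) := by
        refine hU1.trans (Real.rpow_le_rpow_of_exponent_le (by norm_num) ?_)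
        refine mul_le_mul_of_nonneg_right ?_ hir.le
        linarith
      have h3 : (U₂.card : ℝ) ≤ (2 : ℝ) ^ ((1 / 2 - 2 * γ) * (i : ℝ)) := by
        refine hU2.trans (Real.rpow_le_rpow_of_exponent_le (by norm_num) ?_)
        refine mul_le_mul_of_nonneg_right ?_ hir.le
        norm_num
        linarith
      have h4 := hJ₅ i (by omega)
      have h5 : (2 : ℝ) * (2 : ℝ) ^ ((1 / 2 - 2 * γ) * (i : ℝ)) ≤ (i : ℝ) * 2 * (2 : ℝ) ^ ((1 / 2 - 2 * γ) * (i : ℝ)) := by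
        refine mul_le_mul_of_nonneg_right ?_ (by positivity)
        linarith
      linarith
    · intro k hk v hv hv1 hv2 hbad
      have hknc := hKnc k hk
      have hvp : v.Prime := by
        rw [hW, mem_filter] at hv
        exact hv.2.1
      have hhh : (0 : ℝ) ≤ hh δ i := by positivity
      rcases two_cases hc hvp.pos hi0 hbad with h1 | ⟨q, hq, hLq⟩
      · obtain ⟨u, hu, h2⟩ := hU1' k v hknc hvp hv1 hv2 h1
        refine ⟨u, mem_union_left _ hu, h2.trans ?_⟩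
        refine div_le_div_of_nonneg_right ?_ hM0'.le
        linarith
      · obtain ⟨g1, g2, g3⟩ := geom hknc hM0 hv1 hv2 hq
        have h1 : (2 : ℝ) ^ ((5 / 26 - 1 / 2000) * (i : ℝ)) <
            (((VR i).filter (fun v => v * q ∈ ActD δ i K)).card : ℝ) := by
          by_contra hcon
          rw [not_lt, hK] at hcon
          exact hLq (hL q hcon)
        obtain ⟨u, hu, h2⟩ := hU2' q g1 g2 h1
        refine ⟨u, mem_union_right _ hu, ?_⟩
        have h3 : |lA δ i k / v - u| ≤ |lA δ i k / v - q| + |(q : ℝ) - u| := by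
          have h4 : lA δ i k / v - u = (lA δ i k / v - q) + ((q : ℝ) - u) := by ring
          rw [h4]
          exact abs_add_le _ _
        have h5 : 2 * (hh δ i : ℝ) / ((2 ^ m : ℕ) : ℝ) = hh δ i / ((2 ^ m : ℕ) : ℝ) + hh δ i / ((2 ^ m : ℕ) : ℝ) := by
          ring
        rw [h5]
        linarith
  choose! U hU1 hU2 using hU
  -- the number of near primes
  obtain ⟨FF, hFF⟩ : ∃ FF : ℕ → ℕ → Finset ℝ, FF = fun m k => ((PrM (2 ^ m)).filter (fun v =>
    ∃ u ∈ U m, |lA δ i k / v - u| ≤ 2 * hh δ i / ((2 ^ m : ℕ) : ℝ))) := ⟨_, rfl⟩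
  have hFm : ∀ (m k v : ℕ), v ∈ PrM (2 ^ m) → (∃ u ∈ U m, |lA δ i k / v - u| ≤ 2 * hh δ i / ((2 ^ m : ℕ) : ℝ)) →
      (v : ℝ) ∈ FF m k := by
    intro m k v hv hu
    rw [hFF]
    refine mem_filter.2 ⟨?_, hu⟩
    change (v : ℝ) ∈ Finset.sup (PrM (2 ^ m)) (fun a => ({(a : ℝ)} : Finset ℝ))
    rw [Finset.mem_sup]
    exact ⟨v, hv, mem_singleton_self _⟩
  obtain ⟨NN, hNN⟩ : ∃ NN : ℕ → ℕ → ℝ, NN = fun m k => ((FF m k).card : ℝ) := ⟨_, rfl⟩
  obtain ⟨A, hA⟩ : ∃ A : ℕ → Finset ℕ, A = fun m => Bs.filter (fun k => c₀ / 8 * ((2 ^ m : ℕ) : ℝ) / i ≤ NN m k) := ⟨_, rfl⟩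
  obtain ⟨B, hB⟩ : ∃ B : ℕ → Finset ℕ, B = fun m => Bs.filter (fun k => c₀ / 8 * ((2 ^ m : ℕ) : ℝ) / i ≤ NN m (pk k)) := ⟨_, rfl⟩
  have hAc : ∀ m ∈ MM, ((A m).card : ℝ) ≤ (2 : ℝ) ^ (3 / 26 * (i : ℝ)) := by
    intro m hm
    refine hJ₂ i (2 ^ m) δ (U m) (A m) (by omega) hδ ?_ (hU1 m hm) ?_
    · rw [hMM, mem_filter] at hm
      exact hm.2.1
    · intro k hk
      rw [hA, mem_filter, hNN, hFF] at hk
      exact hk.2
  have hBc' : ∀ m ∈ MM, ((B m).card : ℝ) ≤ B0 * (2 : ℝ) ^ (3 / 26 * (i : ℝ)) := by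
    intro m hm
    have h1 : (((B m).image pk).card : ℝ) ≤ (2 : ℝ) ^ (3 / 26 * (i : ℝ)) := by
      refine hJ₂ i (2 ^ m) δ (U m) ((B m).image pk) (by omega) hδ ?_ (hU1 m hm) ?_
      · rw [hMM, mem_filter] at hm
        exact hm.2.1
      · intro k hk
        obtain ⟨k', hk', rfl⟩ := mem_image.1 hk
        rw [hB, mem_filter, hNN, hFF] at hk'
        exact hk'.2
    have h2 : (B m).card ≤ B0 * ((B m).image pk).card := by
      refine card_le_mul_card_image _ _ (fun k' _ => ?_)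
      refine le_trans (card_le_card ?_) (hB0 k')
      intro k hk
      rw [mem_filter, hB, mem_filter] at hk
      rw [mem_filter]
      exact ⟨hk.1.1, hk.2⟩
    have h3 : ((B m).card : ℝ) ≤ B0 * ((B m).image pk).card := by exact_mod_cast h2
    exact h3.trans (mul_le_mul_of_nonneg_left h1 (by positivity))
  -- the cover
  have hcov : (Bs.filter (fun k => ∑ v ∈ (VR i).filter (fun v => c / 2 * hh δ i / (v * i) ≤ ((LqD δ (fun _ => L) i k v).card : ℝ) ∧
      c / 2 * hh δ i / (v * i) ≤ ((LqD δ (fun _ => L) i (pk k) v).card : ℝ)), 1 / (v : ℝ) < c₀ / 2)) ⊆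
      MM.biUnion (fun m => A m ∪ B m) := by
    intro k hk
    rw [mem_filter] at hk
    obtain ⟨hkB, hsum⟩ := hk
    by_contra hnot
    rw [mem_biUnion] at hnot
    push Not at hnot
    have hkK : k ∈ K := by
      rw [hK]
      exact mem_union_left _ hkB
    have hpkK : pk k ∈ K := by
      rw [hK]
      exact mem_union_right _ (mem_image_of_mem _ hkB)
    obtain ⟨T, hT⟩ : ∃ T : Finset ℕ, T = W.filter (fun v => ¬ (c / 2 * hh δ i / (v * i) ≤ ((LqD δ (fun _ => L) i k v).card : ℝ) ∧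
      c / 2 * hh δ i / (v * i) ≤ ((LqD δ (fun _ => L) i (pk k) v).card : ℝ))) := ⟨_, rfl⟩
    have h1 : c₀ / 2 ≤ ∑ v ∈ T, 1 / (v : ℝ) := by
      have h2 := sum_filter_add_sum_filter_not W (fun v => c / 2 * hh δ i / (v * i) ≤ ((LqD δ (fun _ => L) i k v).card : ℝ) ∧
        c / 2 * hh δ i / (v * i) ≤ ((LqD δ (fun _ => L) i (pk k) v).card : ℝ)) (fun v : ℕ => 1 / (v : ℝ))
      have h3 : ∑ v ∈ W.filter (fun v => c / 2 * hh δ i / (v * i) ≤ ((LqD δ (fun _ => L) i k v).card : ℝ) ∧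
        c / 2 * hh δ i / (v * i) ≤ ((LqD δ (fun _ => L) i (pk k) v).card : ℝ)), 1 / (v : ℝ) ≤
          ∑ v ∈ (VR i).filter (fun v => c / 2 * hh δ i / (v * i) ≤ ((LqD δ (fun _ => L) i k v).card : ℝ) ∧
        c / 2 * hh δ i / (v * i) ≤ ((LqD δ (fun _ => L) i (pk k) v).card : ℝ)), 1 / (v : ℝ) := by
        refine sum_le_sum_of_subset_of_nonneg (filter_subset_filter _ hWVR) (fun v _ _ => by positivity)
      rw [hT]
      linarith
    have hTm : ∀ v ∈ T, Nat.log 2 (v - 1) ∈ MM := by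
      intro v hv
      rw [hT, mem_filter] at hv
      exact (hWm v hv.1).1
    rw [← sum_fiberwise_of_maps_to hTm] at h1
    have h2 : ∀ m ∈ MM, ∑ v ∈ T.filter (fun v => Nat.log 2 (v - 1) = m), 1 / (v : ℝ) ≤ c₀ / 4 / i := by
      intro m hm
      have hM0' : (0 : ℝ) < ((2 ^ m : ℕ) : ℝ) := by
        push_cast
        positivity
      have h3 := hnot m hm
      rw [mem_union] at h3
      push Not at h3
      obtain ⟨h3a, h3b⟩ := h3
      have h4a : NN m k < c₀ / 8 * ((2 ^ m : ℕ) : ℝ) / i := by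
        by_contra hcon
        apply h3a
        rw [hA, mem_filter]
        exact ⟨hkB, not_lt.1 hcon⟩
      have h4b : NN m (pk k) < c₀ / 8 * ((2 ^ m : ℕ) : ℝ) / i := by
        by_contra hcon
        apply h3b
        rw [hB, mem_filter]
        exact ⟨hkB, not_lt.1 hcon⟩
      have h5 : ∑ v ∈ T.filter (fun v => Nat.log 2 (v - 1) = m), 1 / (v : ℝ) ≤
          ∑ v ∈ T.filter (fun v => Nat.log 2 (v - 1) = m), 1 / ((2 ^ m : ℕ) : ℝ) := by
        refine sum_le_sum (fun v hv => ?_)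
        rw [mem_filter] at hv
        obtain ⟨hvT, hvm⟩ := hv
        rw [hT, mem_filter] at hvT
        have h6 := (hWm v hvT.1).2.1
        rw [hvm] at h6
        refine one_div_le_one_div_of_le hM0' ?_
        exact_mod_cast h6.le
      have h6 : (T.filter (fun v => Nat.log 2 (v - 1) = m)).image (fun v : ℕ => (v : ℝ)) ⊆ FF m k ∪ FF m (pk k) := by
        intro x hx
        obtain ⟨v, hv, rfl⟩ := mem_image.1 hx
        rw [mem_filter] at hv
        obtain ⟨hvT, hvm⟩ := hv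
        rw [hT, mem_filter] at hvT
        obtain ⟨hvW, hvbad⟩ := hvT
        obtain ⟨-, g1, g2⟩ := hWm v hvW
        rw [hvm] at g1 g2
        have hvP : v ∈ PrM (2 ^ m) := by
          rw [PrM, mem_filter, mem_range]
          refine ⟨by omega, ?_, by omega⟩
          rw [hW, mem_filter] at hvW
          exact hvW.2.1
        rw [mem_union]
        rw [not_and_or, not_le, not_le] at hvbad
        rcases hvbad with h | h
        · exact Or.inl (hFm m k v hvP (hU2 m hm k hkK v hvW g1 g2 h))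
        · exact Or.inr (hFm m (pk k) v hvP (hU2 m hm (pk k) hpkK v hvW g1 g2 h))
      have h7 : ((T.filter (fun v => Nat.log 2 (v - 1) = m)).card : ℝ) ≤ NN m k + NN m (pk k) := by
        have h7a := (card_le_card h6).trans (card_union_le _ _)
        have h7b : ((T.filter (fun v => Nat.log 2 (v - 1) = m)).image (fun v : ℕ => (v : ℝ))).card =
            (T.filter (fun v => Nat.log 2 (v - 1) = m)).card :=
          card_image_of_injective _ (Nat.cast_injective (R := ℝ))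
        rw [h7b] at h7a
        simp only [hNN]
        exact_mod_cast h7a
      refine h5.trans ?_
      rw [sum_const, nsmul_eq_mul, mul_one_div, div_le_iff₀ hM0']
      have h8 : c₀ / 4 / i * ((2 ^ m : ℕ) : ℝ) = c₀ / 8 * ((2 ^ m : ℕ) : ℝ) / i + c₀ / 8 * ((2 ^ m : ℕ) : ℝ) / i := by
        ring
      rw [h8]
      linarith
    have h3 := h1.trans (sum_le_sum h2)
    rw [sum_const, nsmul_eq_mul] at h3
    have h4 : (MM.card : ℝ) ≤ i := by
      have h5 : MM.card ≤ i := by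
        rw [hMM]
        exact (card_filter_le _ _).trans (by rw [card_range])
      exact_mod_cast h5
    have h5 : (MM.card : ℝ) * (c₀ / 4 / i) ≤ i * (c₀ / 4 / i) :=
      mul_le_mul_of_nonneg_right h4 (by positivity)
    have h6 : (i : ℝ) * (c₀ / 4 / i) = c₀ / 4 := by field_simp
    linarith
  have h1 : ((MM.biUnion (fun m => A m ∪ B m)).card : ℝ) ≤ ∑ m ∈ MM, ((1 + B0) * (2 : ℝ) ^ (3 / 26 * (i : ℝ))) := by
    have h2 : ((MM.biUnion (fun m => A m ∪ B m)).card : ℝ) ≤ ∑ m ∈ MM, ((A m ∪ B m).card : ℝ) := by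
      exact_mod_cast card_biUnion_le
    refine h2.trans (sum_le_sum (fun m hm => ?_))
    have h3 : ((A m ∪ B m).card : ℝ) ≤ (A m).card + (B m).card := by exact_mod_cast card_union_le _ _
    have h4 := hAc m hm
    have h5 := hBc' m hm
    linarith
  have h2 : ∑ m ∈ MM, ((1 + (B0 : ℝ)) * (2 : ℝ) ^ (3 / 26 * (i : ℝ))) ≤ i * (1 + B0) * (2 : ℝ) ^ (3 / 26 * (i : ℝ)) := by
    rw [sum_const, nsmul_eq_mul, ← mul_assoc]
    refine mul_le_mul_of_nonneg_right ?_ (by positivity)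
    refine mul_le_mul_of_nonneg_right ?_ (by positivity)
    have h5 : MM.card ≤ i := by
      rw [hMM]
      exact (card_filter_le _ _).trans (by rw [card_range])
    exact_mod_cast h5
  have h3 := hJ₄ i (by omega)
  have h4 : ((Bs.filter (fun k => ∑ v ∈ (VR i).filter (fun v => c / 2 * hh δ i / (v * i) ≤ ((LqD δ (fun _ => L) i k v).card : ℝ) ∧
      c / 2 * hh δ i / (v * i) ≤ ((LqD δ (fun _ => L) i (pk k) v).card : ℝ)), 1 / (v : ℝ) < c₀ / 2)).card : ℝ) ≤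
      ((MM.biUnion (fun m => A m ∪ B m)).card : ℝ) := by
    exact_mod_cast card_le_card hcov
  exact h4.trans (h1.trans (h2.trans h3))

end Pool.Agent.Q198.KZ
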